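import Pool.Agent.DSU.St2
import Pool.Agent.DSD.Ep

/-!
# DSU, module ConE: choice of the constants for all graphs where small sets span few edges
(helper26, after DSU/Conc.lean)
-/

set_option autoImplicit false

namespace DSU

open Finset
open DSD (DepOn Ep Par Ep_abs_le Ep_sub Ep_add)

section

variable {V : Type}

private theorem ConE_abs_sg (E : Finset (V × V)) (x : V → Bool) : |SgE E x| = 1 := by
  unfold SgE
  rw [abs_prod]
  refine prod_eq_one fun e _ => ?_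
  split_ifs
  · simp
  · simp

private theorem ConE_sg_phi (E : Finset (V × V)) (x : V → Bool) :
    SgE E x * (1 - PhE E x) = 1 - PhE E x := by
  unfold PhE
  by_cases h : ∃ e ∈ E, x e.1 = true ∧ x e.2 = true
  · rw [if_pos h]
    ring
  · rw [if_neg h]
    have h1 : SgE E x = 1 := by
      unfold SgE
      refine prod_eq_one fun e he => ?_
      rw [if_neg]
      exact fun h2 => h ⟨e, he, h2⟩
    rw [h1]
    ring

end

theorem thm_ConE (hC : St_CorE) (hD : St_Dcp) (hN : St_Nrm) (hH : St_HarE) (hR : St_RlE) :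
    St_ConE := by
  classical
  intro d₀ γ₀ ε hγ₀ hε
  obtain ⟨d, hd1, hd⟩ : ∃ d : ℕ, 1 ≤ d ∧ d₀ ≤ d := ⟨d₀ + 1, by omega, by omega⟩
  obtain ⟨γ, hγ, hγ2, hγγ⟩ : ∃ γ : ℝ, 0 < γ ∧ γ ≤ 1 / 2 ∧ γ ≤ γ₀ :=
    ⟨min γ₀ (1 / 2), lt_min hγ₀ (by norm_num), min_le_right _ _, min_le_left _ _⟩
  obtain ⟨r, hr⟩ : ∃ r : ℕ, 4 / ε ≤ r := ⟨⌈4 / ε⌉₊, Nat.le_ceil _⟩
  obtain ⟨p, c, n₁, hp0, hp1, hc0, hcε, hPar, hreal⟩ :=
    hR d r (2 * r + 3) γ ε hd1 (by omega) hγ hγ2 hε
  obtain ⟨n₂, hn₂⟩ : ∃ n₂ : ℕ, 1 / ε ≤ n₂ := ⟨⌈1 / ε⌉₊, Nat.le_ceil _⟩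
  refine ⟨p, c, max n₁ n₂, hp0, hp1, hc0, ?_⟩
  intro V _ _ E hn hOE hNE hSp
  obtain ⟨n, hnV⟩ : ∃ n : ℕ, n = Fintype.card V := ⟨_, rfl⟩
  rw [← hnV] at hn hNE hSp ⊢
  have hn1 : n₁ ≤ n := (le_max_left _ _).trans hn
  have hn3 : n₂ ≤ n := (le_max_right _ _).trans hn
  have hεn : 1 ≤ ε * n := by
    have h1 : 1 / ε ≤ n := hn₂.trans (by exact_mod_cast hn3)
    rw [div_le_iff₀ hε] at h1
    linarith
  obtain ⟨m, hm⟩ : ∃ m : ℕ, m = ⌊ε * n⌋₊ := ⟨_, rfl⟩
  rw [← hm] at hSp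
  have hm1 : 1 ≤ m := by
    rw [hm]
    exact Nat.le_floor (by exact_mod_cast hεn)
  have hm3 : ε * n ≤ 2 * m := by
    have h1 : ε * n < m + 1 := by
      rw [hm]
      exact Nat.lt_floor_add_one _
    have h2 : (1 : ℝ) ≤ m := by exact_mod_cast hm1
    linarith
  have hrm : 2 * n ≤ r * m := by
    have h1 : (2 * n : ℝ) ≤ r * m := by
      have h2 : (2 * n : ℝ) = 4 / ε * (ε * n) / 2 := by
        field_simp
        ring
      have h3 : 4 / ε * (ε * n) ≤ r * (2 * m) :=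
        mul_le_mul hr hm3 (by positivity) (Nat.cast_nonneg r)
      rw [h2]
      linarith
    exact_mod_cast h1
  have hdiv : n / m ≤ r := Nat.div_le_of_le_mul (by
    have : m * r = r * m := Nat.mul_comm _ _
    omega)
  have hSp2 : Sprd E d m γ := by
    refine ⟨fun v => (hSp.1 v).trans hd, fun X hX => (hSp.2 X hX).trans ?_⟩
    refine mul_le_mul_of_nonneg_right (mul_le_mul_of_nonneg_right ?_ (Nat.cast_nonneg _))
      (Nat.cast_nonneg _)
    linarith
  have hcor := hC V E d m (r + 1) (2 * r + 3) p γ hOE hm1 hPar hγ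
    (by rw [← hnV]; omega) hSp2
  rw [← hnV] at hcor
  obtain ⟨M, hM⟩ : ∃ M : ℝ, M = Real.exp (-(2 * p ^ 2 * (1 - 5 * d * ((2 * r + 3 : ℕ) : ℝ) * p)) *
    ((1 / 2 + γ) * E.card) + 32 * ((2 * r + 3 : ℕ) : ℝ) * p ^ 3 * d ^ 5 * n) := ⟨_, rfl⟩
  rw [← hM] at hcor
  have hM0 : 0 ≤ M := by
    rw [hM]
    exact (Real.exp_pos _).le
  have hπ : ∀ v : V, 0 ≤ (fun _ => p) v ∧ (fun _ => p) v ≤ 1 :=
    fun _ => ⟨hp0.le, hp1.le⟩
  obtain ⟨P, hP⟩ : ∃ P : ℝ, P = Ep (fun _ => p) fun x => 1 - PhE E x := ⟨_, rfl⟩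
  have hPH : (1 - p ^ 2) ^ E.card ≤ P := by
    rw [hP]
    exact hH V E p hOE hp0.le hp1.le
  have hp2 : 0 < 1 - p ^ 2 := by nlinarith
  have hP0 : 0 < P := (pow_pos hp2 _).trans_le hPH
  have hSg : |Ep (fun _ => p) fun x => SgE E x| ≤ M := by
    have h := hcor (fun _ => ∅) (fun _ _ => 1)
      (fun i => ⟨by simp, fun _ _ _ => rfl, fun _ => by simp⟩)
      (fun i j _ => disjoint_empty_left _)
    have e : (fun x : V → Bool => SgE E x * ∏ i : Fin (r + 1), (1 : ℝ)) = fun x => SgE E x := by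
      funext x
      rw [prod_const_one, mul_one]
    rw [e] at h
    exact h
  rw [← hP]
  refine ⟨hP0, ?_⟩
  intro k L hk hL hlen g hg hg1
  have hkm : k ≤ m := by
    rcases le_or_gt k 1 with h | h
    · exact h.trans hm1
    · rw [hm]
      refine Nat.le_floor ?_
      have h1 : (1 : ℝ) < k := by exact_mod_cast h
      have h2 : (k : ℝ) ≤ c * n := by
        rcases le_max_iff.1 hk with h3 | h3
        · linarith
        · exact h3
      exact h2.trans (mul_le_mul_of_nonneg_right hcε (Nat.cast_nonneg n))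
  have hcard : 2 * g.vars.card ≤ r * m := by
    have h1 : g.vars.card ≤ n := by
      rw [hnV]
      exact card_le_univ g.vars
    omega
  have hprods := hD V k m r L hL hkm hm1 g hg hcard
  have hgM := hN V (fun _ => p) g.vars m (r + 1)
    ((2 * 4 ^ r * L.length) ^ r) g.f g.a (2 ^ (c * n)) hprods hg1
    (Real.rpow_nonneg (by norm_num) _) (SgE E) M hM0 hcor
  have hfin := hreal n hn1 E.card hNE L.length (Nat.cast_nonneg _) hlen
  rw [← hM] at hfin
  push_cast at hgM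
  obtain ⟨T, hT⟩ : ∃ T : ℝ, T = (2 * 4 ^ r * (L.length : ℝ)) ^ r := ⟨_, rfl⟩
  rw [← hT] at hgM hfin
  have hT0 : 0 ≤ T := by
    rw [hT]
    positivity
  have hfin2 : (T * 2 ^ (c * n) + 1) * M ≤ 2 ^ (-(c * n)) * P :=
    hfin.trans (mul_le_mul_of_nonneg_left hPH (Real.rpow_nonneg (by norm_num) _))
  have hSP : (Ep (fun _ => p) fun x => SgE E x * (1 - PhE E x)) = P := by
    rw [hP]
    congr 1
    funext x
    exact ConE_sg_phi E x
  have habs : ∀ F : (V → Bool) → ℝ,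
      |Ep (fun _ => p) fun x => SgE E x * F x| ≤ Ep (fun _ => p) fun x => |F x| := by
    intro F
    refine (Ep_abs_le hπ _).trans (le_of_eq ?_)
    congr 1
    funext x
    rw [abs_mul, ConE_abs_sg, one_mul]
  constructor
  · have h1 := habs fun x => g.f x - PhE E x
    have h2 : (Ep (fun _ => p) fun x => SgE E x * (g.f x - PhE E x)) =
        (Ep (fun _ => p) fun x => SgE E x * g.f x) - (Ep (fun _ => p) fun x => SgE E x) + P := by
      rw [← hSP, ← Ep_sub, ← Ep_add]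
      congr 1
      funext x
      ring
    rw [h2] at h1
    have h3 := (abs_le.1 hgM).1
    have h4 := (abs_le.1 hSg).2
    have h5 := (le_abs_self _).trans h1
    nlinarith
  · have h1 := habs fun x => g.f x - (1 - PhE E x)
    have h2 : (Ep (fun _ => p) fun x => SgE E x * (g.f x - (1 - PhE E x))) =
        (Ep (fun _ => p) fun x => SgE E x * g.f x) - P := by
      rw [← hSP, ← Ep_sub]
      congr 1
      funext x
      ring
    rw [h2] at h1
    have h3 := (abs_le.1 hgM).2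
    have h5 := (neg_le_abs _).trans h1
    nlinarith

end DSU
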