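import Pool.Agent.DSU.St
import Pool.Agent.DSD.Ep

/-!
# DSU, module Con: choice of the constants (helper25, after DSD/Conc.lean of helper68)
-/

set_option autoImplicit false

namespace DSU

open Finset
open DSD (DepOn bv ind Mean ReadOnce Ep Phi Sg Par Ep_abs_le Ep_sub Ep_add)

private theorem Con_exp (x : ℝ) (h0 : 0 ≤ x) (h1 : x ≤ 1 / 2) :
    Real.exp (-(x + x ^ 2)) ≤ 1 - x := by
  have h2 : 0 ≤ x + x ^ 2 := by positivity
  have h3 := Real.quadratic_le_exp_of_nonneg h2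
  have h4 : 0 < 1 - x := by linarith
  have h5 : 1 ≤ (1 - x) * (1 + (x + x ^ 2) + (x + x ^ 2) ^ 2 / 2) := by
    have h6 : (1 - x) * (1 + (x + x ^ 2) + (x + x ^ 2) ^ 2 / 2) =
        1 + x ^ 2 * (1 - x - x ^ 2 - x ^ 3) / 2 := by ring
    have h7 : 0 ≤ 1 - x - x ^ 2 - x ^ 3 := by
      have h8 : x ^ 2 ≤ 1 / 4 := by nlinarith
      have h9 : x ^ 3 ≤ 1 / 8 := by
        have : x ^ 3 = x ^ 2 * x := by ring
        rw [this]
        nlinarith [sq_nonneg x]
      linarith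
    have h8 : 0 ≤ x ^ 2 * (1 - x - x ^ 2 - x ^ 3) / 2 := by positivity
    linarith
  have h6 : 1 ≤ (1 - x) * Real.exp (x + x ^ 2) :=
    h5.trans (mul_le_mul_of_nonneg_left h3 h4.le)
  rw [Real.exp_neg]
  rw [inv_le_iff_one_le_mul₀ (Real.exp_pos _)]
  exact h6

private theorem Con_real (r r' : ℕ) (ε : ℝ) (hε : 0 < ε) (hr' : 1 ≤ r') :
    ∃ (p c : ℝ) (n₀ : ℕ), 0 < p ∧ p < 1 ∧ 0 < c ∧ c ≤ ε ∧ Par 16 r' p ∧
      ∀ n : ℕ, n₀ ≤ n → ∀ s : ℝ, 0 ≤ s → s ≤ 2 ^ (c * n) →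
        ((2 * 4 ^ r * s) ^ r * 2 ^ (c * n) + 1) *
          Real.exp (-(2 * p ^ 2 * (1 - 80 * r' * p)) * (192 * n) +
            32 * r' * p ^ 3 * 16 ^ 5 * (32 * n)) ≤
          2 ^ (-(c * n)) * (1 - p ^ 2) ^ (256 * n) := by
  have hr1 : (1 : ℝ) ≤ r' := by exact_mod_cast hr'
  set p : ℝ := 1 / (2147483648 * r') with hp
  have hrp : (r' : ℝ) * p = 1 / 2147483648 := by
    rw [hp]
    field_simp
  have hp0 : 0 < p := by
    rw [hp]
    positivity
  have hpl : p ≤ 1 / 2147483648 := by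
    rw [← hrp]
    nlinarith
  set c : ℝ := min ε (p ^ 2 / (r + 2)) with hc
  have hc0 : 0 < c := lt_min hε (by positivity)
  have hcr : c * (r + 2) ≤ p ^ 2 := by
    have h1 : c ≤ p ^ 2 / (r + 2) := min_le_right _ _
    have h2 : (0 : ℝ) < r + 2 := by positivity
    rwa [le_div_iff₀ h2] at h1
  set D : ℝ := 2 * (2 * 4 ^ r) ^ r with hD
  refine ⟨p, c, ⌈D / (63 * p ^ 2)⌉₊, hp0, by linarith, hc0, min_le_left _ _, ?_, ?_⟩
  · refine ⟨by norm_num, hr', hp0, ?_, ?_⟩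
    · push_cast
      nlinarith
    · push_cast
      have : 5 * 16 * (r' : ℝ) * p = 80 * (r' * p) := by ring
      rw [this, hrp]
      norm_num
  intro n hn s hs0 hs
  have hn0 : (0 : ℝ) ≤ n := Nat.cast_nonneg n
  have hDn : D ≤ Real.exp (63 * p ^ 2 * n) := by
    have h1 : D / (63 * p ^ 2) ≤ n := (Nat.le_ceil _).trans (by exact_mod_cast hn)
    have h2 : 0 < 63 * p ^ 2 := by positivity
    rw [div_le_iff₀ h2] at h1
    have h3 := Real.add_one_le_exp (63 * p ^ 2 * n)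
    linarith
  set W : ℝ := (2 : ℝ) ^ (c * n) with hW
  have hcn : 0 ≤ c * n := by positivity
  have hW1 : 1 ≤ W := Real.one_le_rpow (by norm_num) hcn
  have hW0 : 0 < W := by linarith
  have hWe : W ≤ Real.exp (c * n) := by
    rw [hW, Real.rpow_def_of_pos (by norm_num)]
    apply Real.exp_le_exp.2
    have h1 : Real.log 2 ≤ 1 := by
      have := Real.log_le_sub_one_of_pos (show (0 : ℝ) < 2 by norm_num)
      linarith
    nlinarith
  have hWr : W ^ (r + 2) ≤ Real.exp (p ^ 2 * n) := by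
    calc W ^ (r + 2) ≤ Real.exp (c * n) ^ (r + 2) := pow_le_pow_left₀ hW0.le hWe _
      _ = Real.exp (c * (r + 2) * n) := by
        rw [← Real.exp_nat_mul]
        congr 1
        push_cast
        ring
      _ ≤ Real.exp (p ^ 2 * n) := Real.exp_le_exp.2 (mul_le_mul_of_nonneg_right hcr hn0)
  have hT : (2 * 4 ^ r * s) ^ r * W + 1 ≤ D * W ^ (r + 1) := by
    have h1 : (2 * 4 ^ r * s) ^ r ≤ (2 * 4 ^ r * W) ^ r :=
      pow_le_pow_left₀ (by positivity) (mul_le_mul_of_nonneg_left hs (by positivity)) _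
    have h2 : (2 * 4 ^ r * W) ^ r = (2 * 4 ^ r) ^ r * W ^ r := mul_pow _ _ _
    have h3 : (1 : ℝ) ≤ (2 * 4 ^ r) ^ r * W ^ r := by
      have h4 : (1 : ℝ) ≤ 2 * 4 ^ r := by
        have : (1 : ℝ) ≤ 4 ^ r := one_le_pow₀ (by norm_num)
        linarith
      exact one_le_mul_of_one_le_of_one_le (one_le_pow₀ h4) (one_le_pow₀ hW1)
    have h5 : (2 * 4 ^ r * s) ^ r * W ≤ (2 * 4 ^ r) ^ r * W ^ (r + 1) := by
      have h6 := mul_le_mul_of_nonneg_right (h1.trans_eq h2) hW0.le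
      rw [pow_succ, ← mul_assoc]
      exact h6
    have h7 : (1 : ℝ) ≤ (2 * 4 ^ r) ^ r * W ^ (r + 1) := by
      rw [pow_succ, ← mul_assoc]
      exact one_le_mul_of_one_le_of_one_le h3 hW1
    rw [hD]
    linarith
  have hTW : ((2 * 4 ^ r * s) ^ r * W + 1) * W ≤ Real.exp (64 * p ^ 2 * n) := by
    calc ((2 * 4 ^ r * s) ^ r * W + 1) * W ≤ D * W ^ (r + 1) * W :=
        mul_le_mul_of_nonneg_right hT hW0.le
      _ = D * W ^ (r + 2) := by ring
      _ ≤ Real.exp (63 * p ^ 2 * n) * Real.exp (p ^ 2 * n) :=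
        mul_le_mul hDn hWr (by positivity) (Real.exp_pos _).le
      _ = Real.exp (64 * p ^ 2 * n) := by
        rw [← Real.exp_add]
        congr 1
        ring
  have hp2 : p ^ 2 ≤ 1 / 2 := by nlinarith
  have hQ : Real.exp (-(256 * n * (p ^ 2 + p ^ 4))) ≤ (1 - p ^ 2) ^ (256 * n) := by
    have h1 := Con_exp (p ^ 2) (by positivity) hp2
    calc Real.exp (-(256 * n * (p ^ 2 + p ^ 4))) =
        Real.exp (-(p ^ 2 + (p ^ 2) ^ 2)) ^ (256 * n) := by
          rw [← Real.exp_nat_mul]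
          congr 1
          push_cast
          ring
      _ ≤ _ := pow_le_pow_left₀ (Real.exp_pos _).le h1 _
  have hM : Real.exp (-(2 * p ^ 2 * (1 - 80 * r' * p)) * (192 * n) +
      32 * r' * p ^ 3 * 16 ^ 5 * (32 * n)) ≤
      Real.exp (-(64 * p ^ 2 * n)) * Real.exp (-(256 * n * (p ^ 2 + p ^ 4))) := by
    rw [← Real.exp_add]
    apply Real.exp_le_exp.2
    have h1 : -(64 * p ^ 2 * n) + -(256 * n * (p ^ 2 + p ^ 4)) -
        (-(2 * p ^ 2 * (1 - 80 * r' * p)) * (192 * n) + 32 * r' * p ^ 3 * 16 ^ 5 * (32 * n)) =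
        n * (p ^ 2 * (64 - 1073772544 * (r' * p) - 256 * p ^ 2)) := by ring
    have h2 : 0 ≤ 64 - 1073772544 * (r' * p) - 256 * p ^ 2 := by
      rw [hrp]
      have h3 : 256 * p ^ 2 ≤ 1 := by nlinarith
      have h4 : (1073772544 : ℝ) * (1 / 2147483648) ≤ 1 := by norm_num
      linarith
    have h3 : 0 ≤ n * (p ^ 2 * (64 - 1073772544 * (r' * p) - 256 * p ^ 2)) :=
      mul_nonneg hn0 (mul_nonneg (sq_nonneg p) h2)
    linarith
  set T : ℝ := (2 * 4 ^ r * s) ^ r * W + 1 with hTdef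
  have hT0 : 0 ≤ T := by positivity
  have hneg : (2 : ℝ) ^ (-(c * n)) = W⁻¹ := by rw [hW, Real.rpow_neg (by norm_num)]
  rw [hneg]
  set Q : ℝ := (1 - p ^ 2) ^ (256 * n) with hQdef
  have hQ0 : 0 ≤ Q := (Real.exp_pos _).le.trans hQ
  calc T * Real.exp (-(2 * p ^ 2 * (1 - 80 * r' * p)) * (192 * n) +
        32 * r' * p ^ 3 * 16 ^ 5 * (32 * n))
      ≤ T * (Real.exp (-(64 * p ^ 2 * n)) * Q) :=
        mul_le_mul_of_nonneg_left (hM.trans (mul_le_mul_of_nonneg_left hQ (Real.exp_pos _).le)) hT0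
    _ = W⁻¹ * (T * W * Real.exp (-(64 * p ^ 2 * n))) * Q := by
        field_simp
    _ ≤ W⁻¹ * 1 * Q := by
        refine mul_le_mul_of_nonneg_right (mul_le_mul_of_nonneg_left ?_ (by positivity)) hQ0
        rw [Real.exp_neg, ← div_eq_mul_inv, div_le_one (Real.exp_pos _)]
        exact hTW
    _ = W⁻¹ * Q := by ring

section

variable {K : Type}

private theorem Con_abs_sg (E : Finset (K × K)) (x : K ⊕ K → Bool) : |Sg E x| = 1 := by
  unfold Sg
  rw [abs_prod]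
  refine prod_eq_one fun e _ => ?_
  split_ifs
  · simp
  · simp

private theorem Con_sg_phi (E : Finset (K × K)) (x : K ⊕ K → Bool) :
    Sg E x * (1 - Phi E x) = 1 - Phi E x := by
  unfold Phi
  by_cases h : ∃ e ∈ E, x (Sum.inl e.1) = true ∧ x (Sum.inr e.2) = true
  · rw [if_pos h]
    ring
  · rw [if_neg h]
    have h1 : Sg E x = 1 := by
      unfold Sg
      refine prod_eq_one fun e he => ?_
      rw [if_neg]
      exact fun h2 => h ⟨e, he, h2⟩
    rw [h1]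
    ring

end

theorem thm_Con (hC : St_Cor) (hD : St_Dcp) (hN : St_Nrm) (hH : DSD.St_Har)
    (hG : DSD.St_Gra) :
    St_Con := by
  classical
  obtain ⟨ε, hε, hG⟩ := hG
  obtain ⟨r, hr⟩ : ∃ r : ℕ, 128 / ε ≤ r := ⟨⌈128 / ε⌉₊, Nat.le_ceil _⟩
  obtain ⟨p, c, n₁, hp0, hp1, hc0, hcε, hPar, hreal⟩ := Con_real r (2 * r + 3) ε hε (by omega)
  obtain ⟨n₂, hn₂⟩ : ∃ n₂ : ℕ, 1 / ε ≤ n₂ := ⟨⌈1 / ε⌉₊, Nat.le_ceil _⟩
  refine ⟨p, c, max n₁ (max 1 n₂), hp0, hp1, hc0, fun n hn => ?_⟩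
  have hn1 : n₁ ≤ n := (le_max_left _ _).trans hn
  have hn2 : 1 ≤ n := (le_max_left _ _).trans ((le_max_right _ _).trans hn)
  have hn3 : n₂ ≤ n := (le_max_right _ _).trans ((le_max_right _ _).trans hn)
  obtain ⟨E, hE1, hE2, hE3, hE4⟩ := hG n hn2
  have hnR : (1 : ℝ) ≤ n := by exact_mod_cast hn2
  have hεn : 1 ≤ ε * n := by
    have h1 : 1 / ε ≤ n := hn₂.trans (by exact_mod_cast hn3)
    rw [div_le_iff₀ hε] at h1
    linarith
  obtain ⟨m, hm⟩ : ∃ m : ℕ, m = ⌊ε * n⌋₊ := ⟨_, rfl⟩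
  have hm1 : 1 ≤ m := by
    rw [hm]
    exact Nat.le_floor (by exact_mod_cast hεn)
  have hm2 : (m : ℝ) ≤ ε * n := by
    rw [hm]
    exact Nat.floor_le (by positivity)
  have hm3 : ε * n ≤ 2 * m := by
    have h1 : ε * n < m + 1 := by
      rw [hm]
      exact Nat.lt_floor_add_one _
    have h2 : (1 : ℝ) ≤ m := by exact_mod_cast hm1
    linarith
  have hrm : 64 * n ≤ r * m := by
    have h1 : (64 * n : ℝ) ≤ r * m := by
      have h2 : (64 * n : ℝ) = 128 / ε * (ε * n) / 2 := by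
        field_simp
        norm_num
      have h3 : 128 / ε * (ε * n) ≤ r * (2 * m) :=
        mul_le_mul hr hm3 (by positivity) (Nat.cast_nonneg r)
      rw [h2]
      linarith
    exact_mod_cast h1
  have hdiv : 32 * n / m ≤ r := Nat.div_le_of_le_mul (by
    have : m * r = r * m := Nat.mul_comm _ _
    omega)
  have hcor := hC n m (r + 1) (2 * r + 3) p E hm1 hPar (by omega) hE1 hE2 hE3
    (fun X hX => hE4 X ((Nat.cast_le.2 hX).trans hm2))
  obtain ⟨M, hM⟩ : ∃ M : ℝ, M = Real.exp (-(2 * p ^ 2 * (1 - 80 * ((2 * r + 3 : ℕ) : ℝ) * p)) *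
    (192 * n) + 32 * ((2 * r + 3 : ℕ) : ℝ) * p ^ 3 * 16 ^ 5 * (32 * n)) := ⟨_, rfl⟩
  rw [← hM] at hcor
  have hM0 : 0 ≤ M := by
    rw [hM]
    exact (Real.exp_pos _).le
  have hπ : ∀ v : (Fin 16 × Fin n) ⊕ (Fin 16 × Fin n), 0 ≤ (fun _ => p) v ∧ (fun _ => p) v ≤ 1 :=
    fun _ => ⟨hp0.le, hp1.le⟩
  obtain ⟨P, hP⟩ : ∃ P : ℝ, P = Ep (fun _ => p) fun x => 1 - Phi E x := ⟨_, rfl⟩
  have hPH : (1 - p ^ 2) ^ (256 * n) ≤ P := by
    have h1 := hH (Fin 16 × Fin n) E p hp0.le hp1.le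
    rw [hE1] at h1
    rw [hP]
    exact h1
  have hp2 : 0 < 1 - p ^ 2 := by nlinarith
  have hP0 : 0 < P := (pow_pos hp2 _).trans_le hPH
  have hSg : |Ep (fun _ => p) fun x => Sg E x| ≤ M := by
    have h := hcor (fun _ => ∅) (fun _ _ => 1)
      (fun i => ⟨by simp, fun _ _ _ => rfl, fun _ => by simp⟩)
      (fun i j _ => disjoint_empty_left _)
    have e : (fun x : (Fin 16 × Fin n) ⊕ (Fin 16 × Fin n) → Bool =>
        Sg E x * ∏ i : Fin (r + 1), (1 : ℝ)) = fun x => Sg E x := by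
      funext x
      rw [prod_const_one, mul_one]
    rw [e] at h
    exact h
  refine ⟨E, hE1, fun a => ?_, fun b => ?_, hP ▸ hP0, ?_⟩
  · have h1 : (E.filter fun e => e.1 = a).Nonempty := by
      rw [← card_pos, hE2 a]
      norm_num
    obtain ⟨e, he⟩ := h1
    rw [mem_filter] at he
    refine ⟨e.2, ?_⟩
    rw [← he.2]
    exact he.1
  · have h1 : (E.filter fun e => e.2 = b).Nonempty := by
      rw [← card_pos, hE3 b]
      norm_num
    obtain ⟨e, he⟩ := h1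
    rw [mem_filter] at he
    refine ⟨e.1, ?_⟩
    rw [← he.2]
    exact he.1
  intro k L hk hL hlen g hg hg1
  rw [← hP]
  have hkm : k ≤ m := by
    rcases le_or_gt k 1 with h | h
    · exact h.trans hm1
    · rw [hm]
      refine Nat.le_floor ?_
      have h1 : (1 : ℝ) < k := by exact_mod_cast h
      have h2 : (k : ℝ) ≤ c * n := by
        rcases le_max_iff.1 hk with h3 | h3
        · linarith
        · exact h3
      exact h2.trans (mul_le_mul_of_nonneg_right hcε (Nat.cast_nonneg n))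
  have hcard : 2 * g.vars.card ≤ r * m := by
    have h1 : g.vars.card ≤ 32 * n := by
      have h2 := card_le_univ g.vars
      have h3 : Fintype.card ((Fin 16 × Fin n) ⊕ (Fin 16 × Fin n)) = 32 * n := by
        rw [Fintype.card_sum, Fintype.card_prod, Fintype.card_fin, Fintype.card_fin]
        ring
      rwa [h3] at h2
    omega
  have hprods := hD ((Fin 16 × Fin n) ⊕ (Fin 16 × Fin n)) k m r L hL hkm hm1 g hg hcard
  have hgM := hN ((Fin 16 × Fin n) ⊕ (Fin 16 × Fin n)) (fun _ => p) g.vars m (r + 1)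
    ((2 * 4 ^ r * L.length) ^ r) g.f g.a (2 ^ (c * n)) hprods hg1
    (Real.rpow_nonneg (by norm_num) _) (Sg E) M hM0 hcor
  have hfin := hreal n hn1 L.length (Nat.cast_nonneg _) hlen
  rw [← hM] at hfin
  push_cast at hgM
  obtain ⟨T, hT⟩ : ∃ T : ℝ, T = (2 * 4 ^ r * (L.length : ℝ)) ^ r := ⟨_, rfl⟩
  rw [← hT] at hgM hfin
  have hT0 : 0 ≤ T := by
    rw [hT]
    positivity
  have hfin2 : (T * 2 ^ (c * n) + 1) * M ≤ 2 ^ (-(c * n)) * P :=
    hfin.trans (mul_le_mul_of_nonneg_left hPH (Real.rpow_nonneg (by norm_num) _))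
  have hSP : (Ep (fun _ => p) fun x => Sg E x * (1 - Phi E x)) = P := by
    rw [hP]
    congr 1
    funext x
    exact Con_sg_phi E x
  have habs : ∀ F : ((Fin 16 × Fin n) ⊕ (Fin 16 × Fin n) → Bool) → ℝ,
      |Ep (fun _ => p) fun x => Sg E x * F x| ≤ Ep (fun _ => p) fun x => |F x| := by
    intro F
    refine (Ep_abs_le hπ _).trans (le_of_eq ?_)
    congr 1
    funext x
    rw [abs_mul, Con_abs_sg, one_mul]
  constructor
  · have h1 := habs fun x => g.f x - Phi E x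
    have h2 : (Ep (fun _ => p) fun x => Sg E x * (g.f x - Phi E x)) =
        (Ep (fun _ => p) fun x => Sg E x * g.f x) - (Ep (fun _ => p) fun x => Sg E x) + P := by
      rw [← hSP, ← Ep_sub, ← Ep_add]
      congr 1
      funext x
      ring
    rw [h2] at h1
    have h3 := (abs_le.1 hgM).1
    have h4 := (abs_le.1 hSg).2
    have h5 := (le_abs_self _).trans h1
    nlinarith
  · have h1 := habs fun x => g.f x - (1 - Phi E x)
    have h2 : (Ep (fun _ => p) fun x => Sg E x * (g.f x - (1 - Phi E x))) =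
        (Ep (fun _ => p) fun x => Sg E x * g.f x) - P := by
      rw [← hSP, ← Ep_sub]
      congr 1
      funext x
      ring
    rw [h2] at h1
    have h3 := (abs_le.1 hgM).2
    have h5 := (neg_le_abs _).trans h1
    nlinarith

end DSU
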