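import Pool.Agent.DSU.St

/-!
# Module Cor: correlation of the sign with products of signed functions of few variables

Modification of Pool/Agent/DSD/Cor.lean (helper12).
-/

set_option autoImplicit false
set_option linter.unusedSectionVars false

namespace DSU

open Finset
open DSD (DepOn bv ind Mean ReadOnce Ep Phi Sg Par Sgn ec act Loc Adm bd Low)

/-- the functions of the parts -/
private noncomputable def Cor_f {V : Type} {r : ℕ} (h : Fin r → (V → Bool) → ℝ)
    (hh : ℕ → (V → Bool) → ℝ) (i : ℕ) (x : V → Bool) : ℝ :=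
  hh i x * if hi : i < r then h ⟨i, hi⟩ x else 1

private theorem Cor_prod {V : Type} {r r' : ℕ} (hr : r ≤ r') (h : Fin r → (V → Bool) → ℝ)
    (hh : ℕ → (V → Bool) → ℝ) (x : V → Bool) :
    ∏ i ∈ range r', Cor_f h hh i x = (∏ i ∈ range r', hh i x) * ∏ i, h i x := by
  unfold Cor_f
  rw [Finset.prod_mul_distrib]
  congr 1
  obtain ⟨k, rfl⟩ := Nat.exists_eq_add_of_le hr
  rw [Finset.prod_range_add]
  have h1 : ∏ j ∈ range k, (if hi : r + j < r then h ⟨r + j, hi⟩ x else 1) = 1 := by
    apply Finset.prod_eq_one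
    intro j _
    rw [dif_neg (by omega)]
  rw [h1, mul_one, Finset.prod_range fun i => (if hi : i < r then h ⟨i, hi⟩ x else 1)]
  apply Finset.prod_congr rfl
  intro i _
  rw [dif_pos i.2]

theorem thm_Cor (hD : DSD.St_Dis) (hS : DSD.St_Spl) (hP : DSD.St_Prt) : St_Cor := by
  intro n m r r' p E hm hpar hr hE h1 h2 hX A h hA hdis
  obtain ⟨hd1, hr1, hp, hp1, hp2⟩ := hpar
  have hcard : Fintype.card ((Fin 16 × Fin n) ⊕ (Fin 16 × Fin n)) = 32 * n := by
    rw [Fintype.card_sum, Fintype.card_prod, Fintype.card_fin, Fintype.card_fin]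
    ring
  obtain ⟨χ, hχ, hχA, hχm⟩ := hP _ m r A hm (fun i => (hA i).1) hdis
  rw [hcard] at hχ
  have hχ' : ∀ v, χ v < r' := fun v => (hχ v).trans_le hr
  obtain ⟨N, hh, hlow, hloc, hsg, hcnt⟩ := hS (Fin 16 × Fin n) E 16 r' χ (fun a => (h1 a).le)
    (fun b => (h2 b).le) hχ'
  -- edges inside the parts
  have hin : ∀ i ∈ range r', (E.filter fun e => χ (Sum.inl e.1) = i ∧ χ (Sum.inr e.2) = i).card ≤
      2 * (univ.filter fun v => χ v = i).card := by
    intro i _
    have h3 := hX (univ.filter fun v => χ v = i) (hχm i)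
    simp only [mem_filter, mem_univ, true_and] at h3
    exact h3
  have hsum : ∑ i ∈ range r', (univ.filter fun v => χ v = i).card = 32 * n := by
    rw [← hcard, ← Finset.card_univ]
    exact (Finset.card_eq_sum_card_fiberwise fun v _ => mem_coe.2 (mem_range.2 (hχ' v))).symm
  have hec : 192 * n ≤ ec χ N r' univ := by
    have h3 := Finset.sum_le_sum hin
    rw [← Finset.mul_sum, hsum] at h3
    rw [hE] at hcnt
    omega
  have hact : act (fun _ : (Fin 16 × Fin n) ⊕ (Fin 16 × Fin n) => p) = univ := by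
    unfold act
    ext v
    simp only [mem_filter, mem_univ, true_and, iff_true]
    exact hp.ne'
  have hloc' : Loc χ (Cor_f h hh) := by
    intro i
    obtain ⟨h3, h4⟩ := hloc i
    refine ⟨fun x y hxy => ?_, fun x => ?_⟩
    · unfold Cor_f
      rw [h3 x y hxy]
      congr 1
      by_cases hi : i < r
      · rw [dif_pos hi, dif_pos hi]
        refine (hA ⟨i, hi⟩).2.1 x y fun v hv => hxy v ?_
        rw [mem_filter]
        exact ⟨mem_univ _, hχA ⟨i, hi⟩ v hv⟩
      · rw [dif_neg hi, dif_neg hi]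
    · unfold Cor_f
      rw [abs_mul]
      have h5 : |if hi : i < r then h ⟨i, hi⟩ x else 1| ≤ 1 := by
        by_cases hi : i < r
        · rw [dif_pos hi]
          exact (hA ⟨i, hi⟩).2.2 x
        · rw [dif_neg hi, abs_one]
      exact mul_le_one₀ (h4 x) (abs_nonneg _) h5
  have hadm : Adm p (2 * (16 : ℕ) * p * ((r' : ℝ) - r'))
      (fun _ : (Fin 16 × Fin n) ⊕ (Fin 16 × Fin n) => p) := by
    intro v
    right
    rw [sub_self, mul_zero, sub_zero, one_mul]
    exact ⟨le_refl _, le_refl _⟩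
  have hmain := hD _ χ N 16 r' p ⟨hd1, hr1, hp, hp1, hp2⟩ hlow r' (le_refl _) _ hadm _ hloc'
  have hrr : r ≤ r' := (Nat.le_add_right r (32 * n / m + 1)).trans hr
  have hfun : (fun x => Sgn χ N r' x * ∏ i ∈ range r', Cor_f h hh i x) =
      fun x => Sg E x * ∏ i, h i x := by
    funext x
    rw [Cor_prod hrr, hsg x, mul_assoc]
  rw [hfun, hact, hcard] at hmain
  refine hmain.trans ?_
  unfold bd
  apply Real.exp_le_exp.2
  have h6 : (192 * n : ℝ) ≤ ec χ N r' univ := by exact_mod_cast hec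
  have h7 : 0 ≤ 2 * p ^ 2 * (1 - 80 * r' * p) := by
    have h8 : (5 : ℝ) * (16 : ℕ) * r' * p ≤ 1 := hp2
    push_cast at h8
    have h9 : (0 : ℝ) ≤ 1 - 80 * r' * p := by linarith
    positivity
  have h10 : 2 * p ^ 2 * (1 - 80 * r' * p) * (192 * n) ≤
      2 * p ^ 2 * (1 - 80 * r' * p) * ec χ N r' univ := mul_le_mul_of_nonneg_left h6 h7
  push_cast
  have e1 : (5 : ℝ) * 16 * r' * p = 80 * r' * p := by ring
  rw [e1]
  linarith

end DSU
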