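import Pool.Agent.DSU.St2

/-!
# Module CorE: correlation of the sign with products of signed functions of few variables

Modification of Pool/Agent/DSU/Cor.lean (helper12, helper81) by helper95.
-/

set_option autoImplicit false
set_option linter.unusedSectionVars false

namespace DSU

open Finset
open DSD (DepOn bv ind Mean ReadOnce Ep Phi Sg Par Sgn ec act Loc Adm bd Low)

/-- the functions of the parts -/
private noncomputable def CorE_f {V : Type} {r : ℕ} (h : Fin r → (V → Bool) → ℝ)
    (hh : ℕ → (V → Bool) → ℝ) (i : ℕ) (x : V → Bool) : ℝ :=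
  hh i x * if hi : i < r then h ⟨i, hi⟩ x else 1

private theorem CorE_prod {V : Type} {r r' : ℕ} (hr : r ≤ r') (h : Fin r → (V → Bool) → ℝ)
    (hh : ℕ → (V → Bool) → ℝ) (x : V → Bool) :
    ∏ i ∈ range r', CorE_f h hh i x = (∏ i ∈ range r', hh i x) * ∏ i, h i x := by
  unfold CorE_f
  rw [Finset.prod_mul_distrib]
  congr 1
  obtain ⟨k, rfl⟩ := Nat.exists_eq_add_of_le hr
  rw [Finset.prod_range_add]
  have h1 : ∏ j ∈ range k, (if hi : r + j < r then h ⟨r + j, hi⟩ x else 1) = 1 := by
    apply Finset.prod_eq_one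
    intro j _
    rw [dif_neg (by omega)]
  rw [h1, mul_one, Finset.prod_range fun i => (if hi : i < r then h ⟨i, hi⟩ x else 1)]
  apply Finset.prod_congr rfl
  intro i _
  rw [dif_pos i.2]

/-- the number of edges between different parts -/
private theorem CorE_ec {V : Type} [Fintype V] [DecidableEq V] (E : Finset (V × V)) (m r' : ℕ)
    (γ : ℝ) (χ : V → ℕ) (hχ : ∀ v, χ v < r')
    (hχm : ∀ i, (univ.filter fun v => χ v = i).card ≤ m)
    (hX : ∀ X : Finset V, X.card ≤ m →
      (Fintype.card V : ℝ) * ein E X ≤ (1 / 2 - γ) * E.card * X.card)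
    (s : ℕ) (hcnt : E.card ≤ s + ∑ i ∈ range r', (E.filter fun e => χ e.1 = i ∧ χ e.2 = i).card) :
    (1 / 2 + γ) * (E.card : ℝ) ≤ s := by
  rcases Nat.eq_zero_or_pos (Fintype.card V) with h0 | hpos
  · have hV : IsEmpty V := Fintype.card_eq_zero_iff.1 h0
    have hE : E = ∅ := Finset.eq_empty_of_forall_notMem fun e _ => hV.false e.1
    rw [hE, Finset.card_empty, Nat.cast_zero, mul_zero]
    exact Nat.cast_nonneg _
  · have hV : (0 : ℝ) < Fintype.card V := by exact_mod_cast hpos
    have hin : ∀ i ∈ range r', (Fintype.card V : ℝ) *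
        ((E.filter fun e => χ e.1 = i ∧ χ e.2 = i).card : ℝ) ≤
        (1 / 2 - γ) * E.card * ((univ.filter fun v => χ v = i).card : ℝ) := by
      intro i _
      have h3 := hX (univ.filter fun v => χ v = i) (hχm i)
      unfold ein at h3
      simp only [mem_filter, mem_univ, true_and] at h3
      exact h3
    have hsum : ∑ i ∈ range r', ((univ.filter fun v => χ v = i).card : ℝ) = Fintype.card V := by
      have h1 : ∑ i ∈ range r', (univ.filter fun v => χ v = i).card = Fintype.card V := by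
        rw [← Finset.card_univ]
        exact (Finset.card_eq_sum_card_fiberwise fun v _ => mem_coe.2 (mem_range.2 (hχ v))).symm
      exact_mod_cast h1
    have h3 := Finset.sum_le_sum hin
    rw [← Finset.mul_sum, ← Finset.mul_sum, hsum] at h3
    have h4 : (∑ i ∈ range r', ((E.filter fun e => χ e.1 = i ∧ χ e.2 = i).card : ℝ)) ≤
        (1 / 2 - γ) * E.card := by
      have h5 : (Fintype.card V : ℝ) *
          (∑ i ∈ range r', ((E.filter fun e => χ e.1 = i ∧ χ e.2 = i).card : ℝ)) ≤
          Fintype.card V * ((1 / 2 - γ) * E.card) := by linarith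
      exact le_of_mul_le_mul_left h5 hV
    have h6 : (E.card : ℝ) ≤ s +
        ∑ i ∈ range r', ((E.filter fun e => χ e.1 = i ∧ χ e.2 = i).card : ℝ) := by
      exact_mod_cast hcnt
    linarith

theorem thm_CorE (hD : DSD.St_Dis) (hS : St_SplE) (hP : DSD.St_Prt) : St_CorE := by
  intro V _ _ E d m r r' p γ hOE hm hpar hγ hr hSp A h hA hdis
  obtain ⟨hd1, hr1, hp, hp1, hp2⟩ := hpar
  obtain ⟨χ, hχ, hχA, hχm⟩ := hP _ m r A hm (fun i => (hA i).1) hdis
  have hχ' : ∀ v, χ v < r' := fun v => (hχ v).trans_le hr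
  obtain ⟨N, hh, hlow, hloc, hsg, hcnt⟩ := hS V E d r' χ hOE hSp.1 hχ'
  have hec := CorE_ec E m r' γ χ hχ' hχm hSp.2 _ hcnt
  have hact : act (fun _ : V => p) = univ := by
    unfold act
    ext v
    simp only [mem_filter, mem_univ, true_and, iff_true]
    exact hp.ne'
  have hloc' : Loc χ (CorE_f h hh) := by
    intro i
    obtain ⟨h3, h4⟩ := hloc i
    refine ⟨fun x y hxy => ?_, fun x => ?_⟩
    · unfold CorE_f
      rw [h3 x y hxy]
      congr 1
      by_cases hi : i < r
      · rw [dif_pos hi, dif_pos hi]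
        refine (hA ⟨i, hi⟩).2.1 x y fun v hv => hxy v ?_
        rw [mem_filter]
        exact ⟨mem_univ _, hχA ⟨i, hi⟩ v hv⟩
      · rw [dif_neg hi, dif_neg hi]
    · unfold CorE_f
      rw [abs_mul]
      have h5 : |if hi : i < r then h ⟨i, hi⟩ x else 1| ≤ 1 := by
        by_cases hi : i < r
        · rw [dif_pos hi]
          exact (hA ⟨i, hi⟩).2.2 x
        · rw [dif_neg hi, abs_one]
      exact mul_le_one₀ (h4 x) (abs_nonneg _) h5
  have hadm : Adm p (2 * (d : ℕ) * p * ((r' : ℝ) - r')) (fun _ : V => p) := by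
    intro v
    right
    rw [sub_self, mul_zero, sub_zero, one_mul]
    exact ⟨le_refl _, le_refl _⟩
  have hmain := hD _ χ N d r' p ⟨hd1, hr1, hp, hp1, hp2⟩ hlow r' (le_refl _) _ hadm _ hloc'
  have hrr : r ≤ r' := le_trans (by rw [Nat.add_assoc]; exact Nat.le_add_right _ _) hr
  have hfun : (fun x => Sgn χ N r' x * ∏ i ∈ range r', CorE_f h hh i x) =
      fun x => SgE E x * ∏ i, h i x := by
    funext x
    rw [CorE_prod hrr, hsg x, mul_assoc]
  rw [hfun, hact] at hmain
  refine hmain.trans ?_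
  unfold bd
  apply Real.exp_le_exp.2
  have h7 : 0 ≤ 2 * p ^ 2 * (1 - 5 * d * r' * p) := by
    have h9 : (0 : ℝ) ≤ 1 - 5 * d * r' * p := by linarith
    positivity
  have h10 : 2 * p ^ 2 * (1 - 5 * d * r' * p) * ((1 / 2 + γ) * E.card) ≤
      2 * p ^ 2 * (1 - 5 * d * r' * p) * ec χ N r' univ := mul_le_mul_of_nonneg_left hec h7
  linarith

end DSU
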