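import Pool.Agent.DSU.St

/-!
# DSU, module Dcp: decomposition of circuits, iteration
-/

set_option autoImplicit false

namespace DSU

open Finset
open DSD (DepOn bv ind Mean ReadOnce Ep Phi Sg Par)

private theorem Dcp_gate {V : Type} [DecidableEq V] {k : ℕ} {L : List (Gate V)} (hL : Circ k L) :
    ∀ g ∈ L, DepOn g.f g.vars ∧ DepOn g.a g.vars ∧ ∀ x, |g.f x| ≤ g.a x := by
  induction hL with
  | nil => intro g hg; exact absurd hg List.not_mem_nil
  | cons hL hg ih =>
    intro g' hg'
    rcases List.mem_cons.1 hg' with rfl | h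
    · rcases hg with ⟨-, h1, h2⟩ | ⟨a, ha, b, hb, α, β, hv, hf⟩ | ⟨a, ha, b, hb, -, hv, hf⟩
      · refine ⟨h1, fun x y hxy => ?_, fun x => ?_⟩
        · rw [h2, h2, h1 x y hxy]
        · rw [h2]
      · have hda : ∀ x y : V → Bool, (∀ v ∈ g'.vars, x v = y v) → ∀ v ∈ a.vars, x v = y v :=
          fun x y hxy v h => hxy v (by rw [hv]; exact mem_union_left _ h)
        have hdb : ∀ x y : V → Bool, (∀ v ∈ g'.vars, x v = y v) → ∀ v ∈ b.vars, x v = y v :=
          fun x y hxy v h => hxy v (by rw [hv]; exact mem_union_right _ h)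
        obtain ⟨a1, a2, a3⟩ := ih a ha
        obtain ⟨b1, b2, b3⟩ := ih b hb
        refine ⟨fun x y hxy => ?_, fun x y hxy => ?_, fun x => ?_⟩
        · rw [(hf x).1, (hf y).1, a1 x y (hda x y hxy), b1 x y (hdb x y hxy)]
        · rw [(hf x).2, (hf y).2, a2 x y (hda x y hxy), b2 x y (hdb x y hxy)]
        · rw [(hf x).1, (hf x).2]
          calc |α * a.f x + β * b.f x| ≤ |α * a.f x| + |β * b.f x| := abs_add_le _ _
            _ = |α| * |a.f x| + |β| * |b.f x| := by rw [abs_mul, abs_mul]
            _ ≤ |α| * a.a x + |β| * b.a x :=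
                add_le_add (mul_le_mul_of_nonneg_left (a3 x) (abs_nonneg _))
                  (mul_le_mul_of_nonneg_left (b3 x) (abs_nonneg _))
      · have hda : ∀ x y : V → Bool, (∀ v ∈ g'.vars, x v = y v) → ∀ v ∈ a.vars, x v = y v :=
          fun x y hxy v h => hxy v (by rw [hv]; exact mem_union_left _ h)
        have hdb : ∀ x y : V → Bool, (∀ v ∈ g'.vars, x v = y v) → ∀ v ∈ b.vars, x v = y v :=
          fun x y hxy v h => hxy v (by rw [hv]; exact mem_union_right _ h)
        obtain ⟨a1, a2, a3⟩ := ih a ha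
        obtain ⟨b1, b2, b3⟩ := ih b hb
        refine ⟨fun x y hxy => ?_, fun x y hxy => ?_, fun x => ?_⟩
        · rw [(hf x).1, (hf y).1, a1 x y (hda x y hxy), b1 x y (hdb x y hxy)]
        · rw [(hf x).2, (hf y).2, a2 x y (hda x y hxy), b2 x y (hdb x y hxy)]
        · rw [(hf x).1, (hf x).2, abs_mul]
          exact mul_le_mul (a3 x) (b3 x) (abs_nonneg _) ((abs_nonneg _).trans (a3 x))
    · exact ih g' h

private theorem Dcp_zero {V : Type} (S : Finset V) (m r : ℕ) :
    Prods S m r 0 (fun _ => 0) fun _ => 0 :=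
  ⟨fun t => t.elim0, fun t => t.elim0, fun t => t.elim0, fun t => t.elim0, fun t => t.elim0,
    fun x => by simp⟩

private theorem Dcp_pad {V : Type} (S : Finset V) (m r T : ℕ) :
    Prods S m (r + 1) T (fun _ => 0) fun _ => 0 := by
  refine ⟨fun _ _ => ∅, fun _ _ _ => 0, fun _ _ _ => 0, fun t i => ⟨Finset.empty_subset _, by simp,
    fun _ _ _ => rfl, fun _ _ _ => rfl, fun _ => by simp⟩,
    fun t i j _ => Finset.disjoint_empty_left _, fun x => ?_⟩
  simp

private theorem Dcp_add {V : Type} {S : Finset V} {m r T T' : ℕ} {f f' a a' : (V → Bool) → ℝ}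
    (h : Prods S m r T f a) (h' : Prods S m r T' f' a') :
    Prods S m r (T + T') (fun x => f x + f' x) fun x => a x + a' x := by
  obtain ⟨A, g, b, h1, h2, h3⟩ := h
  obtain ⟨A', g', b', h1', h2', h3'⟩ := h'
  refine ⟨Fin.append A A', Fin.append g g', Fin.append b b', ?_, ?_, ?_⟩
  · intro t
    refine Fin.addCases (fun t => ?_) (fun t => ?_) t
    · rw [Fin.append_left, Fin.append_left, Fin.append_left]
      exact h1 t
    · rw [Fin.append_right, Fin.append_right, Fin.append_right]
      exact h1' t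
  · intro t
    refine Fin.addCases (fun t => ?_) (fun t => ?_) t
    · rw [Fin.append_left]
      exact h2 t
    · rw [Fin.append_right]
      exact h2' t
  · intro x
    beta_reduce
    rw [Fin.sum_univ_add, Fin.sum_univ_add, (h3 x).1, (h3' x).1, (h3 x).2, (h3' x).2]
    simp only [Fin.append_left, Fin.append_right]
    exact ⟨trivial, trivial⟩

private theorem Dcp_mono {V : Type} {S : Finset V} {m r T T' : ℕ} {f a : (V → Bool) → ℝ}
    (h : Prods S m (r + 1) T f a) (hT : T ≤ T') : Prods S m (r + 1) T' f a := by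
  obtain ⟨n, rfl⟩ := Nat.exists_eq_add_of_le hT
  have h1 := Dcp_add h (Dcp_pad S m r n)
  have h2 : (fun x => f x + (fun _ : V → Bool => (0 : ℝ)) x) = f := by
    funext x
    simp
  have h3 : (fun x => a x + (fun _ : V → Bool => (0 : ℝ)) x) = a := by
    funext x
    simp
  rwa [h2, h3] at h1

private theorem Dcp_mul {V : Type} {S S' : Finset V} {m r T : ℕ} {f a u c : (V → Bool) → ℝ}
    {B : Finset V} (hu : B.card ≤ m) (hd : DepOn u B) (hc : DepOn c B) (h0 : ∀ x, |u x| ≤ c x)
    (hS : B ⊆ S) (hS' : S' ⊆ S) (hdis : Disjoint B S') (h : Prods S' m r T f a) :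
    Prods S m (r + 1) T (fun x => u x * f x) fun x => c x * a x := by
  obtain ⟨A, g, b, h1, h2, h3⟩ := h
  refine ⟨fun t => Fin.cons B (A t), fun t => Fin.cons u (g t), fun t => Fin.cons c (b t),
    ?_, ?_, ?_⟩
  · intro t i
    refine Fin.cases ?_ (fun i => ?_) i
    · beta_reduce
      rw [Fin.cons_zero, Fin.cons_zero, Fin.cons_zero]
      exact ⟨hS, hu, hd, hc, h0⟩
    · beta_reduce
      rw [Fin.cons_succ, Fin.cons_succ, Fin.cons_succ]
      exact ⟨(h1 t i).1.trans hS', (h1 t i).2⟩
  · intro t i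
    refine Fin.cases ?_ (fun i => ?_) i
    · intro j
      refine Fin.cases ?_ (fun j => ?_) j
      · intro h
        exact absurd rfl h
      · intro _
        beta_reduce
        rw [Fin.cons_zero, Fin.cons_succ]
        exact Finset.disjoint_of_subset_right (h1 t j).1 hdis
    · intro j
      refine Fin.cases ?_ (fun j => ?_) j
      · intro _
        beta_reduce
        rw [Fin.cons_zero, Fin.cons_succ]
        exact (Finset.disjoint_of_subset_right (h1 t i).1 hdis).symm
      · intro hij
        beta_reduce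
        rw [Fin.cons_succ, Fin.cons_succ]
        exact h2 t i j fun h => hij (by rw [h])
  · intro x
    beta_reduce
    rw [(h3 x).1, (h3 x).2, Finset.mul_sum, Finset.mul_sum]
    refine ⟨Finset.sum_congr rfl fun t _ => ?_, Finset.sum_congr rfl fun t _ => ?_⟩
    · rw [Fin.prod_univ_succ, Fin.cons_zero]
      simp only [Fin.cons_succ]
    · rw [Fin.prod_univ_succ, Fin.cons_zero]
      simp only [Fin.cons_succ]

private theorem Dcp_list {V ι : Type} {S : Finset V} {m r B : ℕ} (F G : ι → (V → Bool) → ℝ) :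
    ∀ E : List ι, (∀ e ∈ E, Prods S m (r + 1) B (F e) (G e)) →
      Prods S m (r + 1) (E.length * B) (fun x => (E.map fun e => F e x).sum)
        fun x => (E.map fun e => G e x).sum := by
  intro E
  induction E with
  | nil =>
    intro _
    have h1 := Dcp_zero S m (r + 1)
    rw [List.length_nil, Nat.zero_mul]
    exact h1
  | cons e E ih =>
    intro h
    have h1 := Dcp_add (h e List.mem_cons_self) (ih fun e' he' => h e' (List.mem_cons_of_mem _ he'))
    have h2 : (e :: E).length * B = B + E.length * B := by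
      rw [List.length_cons]
      ring
    rw [h2]
    exact h1

private theorem Dcp_one {V : Type} {S : Finset V} {m : ℕ} (r : ℕ) {f a : (V → Bool) → ℝ}
    (hS : S.card ≤ m) (hf : DepOn f S) (ha : DepOn a S) (h0 : ∀ x, |f x| ≤ a x) :
    Prods S m (r + 1) 1 f a := by
  refine ⟨fun _ => Fin.cons S fun _ => ∅, fun _ => Fin.cons f fun _ _ => 1,
    fun _ => Fin.cons a fun _ _ => 1, ?_, ?_, ?_⟩
  · intro t i
    refine Fin.cases ?_ (fun i => ?_) i
    · beta_reduce
      rw [Fin.cons_zero, Fin.cons_zero, Fin.cons_zero]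
      exact ⟨Finset.Subset.refl S, hS, hf, ha, h0⟩
    · beta_reduce
      rw [Fin.cons_succ, Fin.cons_succ, Fin.cons_succ]
      exact ⟨Finset.empty_subset _, by simp, fun _ _ _ => rfl, fun _ _ _ => rfl,
        fun _ => by simp⟩
  · intro t i
    refine Fin.cases ?_ (fun i => ?_) i
    · intro j
      refine Fin.cases ?_ (fun j => ?_) j
      · intro h
        exact absurd rfl h
      · intro _
        beta_reduce
        rw [Fin.cons_succ]
        exact Finset.disjoint_empty_right _
    · intro j _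
      beta_reduce
      rw [Fin.cons_succ]
      exact Finset.disjoint_empty_left _
  · intro x
    rw [Fin.sum_univ_one, Fin.sum_univ_one, Fin.prod_univ_succ, Fin.prod_univ_succ]
    beta_reduce
    rw [Fin.cons_zero, Fin.cons_zero]
    simp only [Fin.cons_succ, Finset.prod_const_one, mul_one]
    exact ⟨trivial, trivial⟩

/-- [Dcp] -/
theorem thm_Dcp (h : St_One) : St_Dcp := by
  intro V _ k m r
  induction r with
  | zero =>
    intro L hL hkm hm g hg hc
    have h0 : g.vars.card ≤ m := by omega
    have h1 := Dcp_gate hL g hg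
    refine Dcp_mono (Dcp_one 0 h0 h1.1 h1.2.1 h1.2.2) ?_
    simp
  | succ r ih =>
    intro L hL hkm hm g hg hc
    have hlen : 1 ≤ L.length := List.length_pos_of_mem hg
    by_cases h0 : g.vars.card ≤ m
    · have h1 := Dcp_gate hL g hg
      refine Dcp_mono (Dcp_one (r + 1) h0 h1.1 h1.2.1 h1.2.2) ?_
      exact Nat.one_le_pow _ _ (by positivity)
    · obtain ⟨E, hE1, hE2, hE3⟩ := h V k m L hL hkm g hg (not_le.1 h0)
      have h2 : ∀ e ∈ E, Prods g.vars m (r + 1 + 1) ((2 * 4 ^ r * (4 * L.length)) ^ r)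
          (fun x => e.1.f x * e.2.1.f x) (fun x => e.1.a x * e.2.1.a x) := by
        intro e he
        obtain ⟨h3, h4, h5, h6, h7, h7a, h8, h9, h10, h11, h12⟩ := hE2 e he
        have h13 : 2 * e.2.1.vars.card ≤ r * m := by
          have h14 : (r + 1) * m = r * m + m := by ring
          omega
        have h15 := ih e.2.2 h3 hkm hm e.2.1 h5 h13
        have h16 : (2 * 4 ^ r * e.2.2.length) ^ r ≤ (2 * 4 ^ r * (4 * L.length)) ^ r :=
          Nat.pow_le_pow_left (Nat.mul_le_mul_left _ h4) r
        exact Dcp_mul h6 h7 h7a h8 h10 h11 h9 (Dcp_mono h15 h16)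
      have h3 := Dcp_list (fun (e : Gate V × Gate V × List (Gate V)) x => e.1.f x * e.2.1.f x)
        (fun (e : Gate V × Gate V × List (Gate V)) x => e.1.a x * e.2.1.a x) E h2
      have h4 : (fun x => (E.map fun e => e.1.f x * e.2.1.f x).sum) = g.f := by
        funext x
        exact (hE3 x).1.symm
      have h4a : (fun x => (E.map fun e => e.1.a x * e.2.1.a x).sum) = g.a := by
        funext x
        exact (hE3 x).2.symm
      beta_reduce at h3
      rw [h4, h4a] at h3
      refine Dcp_mono h3 ?_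
      have h5 : 2 * L.length ≤ 2 * 4 ^ (r + 1) * L.length := by
        have h6 : 1 ≤ 4 ^ (r + 1) := Nat.one_le_pow _ _ (by norm_num)
        calc 2 * L.length = 2 * 1 * L.length := by ring
          _ ≤ 2 * 4 ^ (r + 1) * L.length := by gcongr
      have h6 : 2 * 4 ^ r * (4 * L.length) = 2 * 4 ^ (r + 1) * L.length := by ring
      rw [h6]
      calc E.length * (2 * 4 ^ (r + 1) * L.length) ^ r ≤
            (2 * 4 ^ (r + 1) * L.length) * (2 * 4 ^ (r + 1) * L.length) ^ r :=
            Nat.mul_le_mul_right _ (hE1.trans h5)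
        _ = (2 * 4 ^ (r + 1) * L.length) ^ (r + 1) := by ring

end DSU
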