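import Pool.Agent.DSD.Defs

/-!
# Conjunctive queries and decomposable circuits with subtraction (MP_4ed1f9_lc): definitions
-/

set_option autoImplicit false

namespace DSU

open Finset
open DSD (DepOn bv ind Mean ReadOnce)

/-! ### Circuits -/

/-- a gate: its set of variables, the function `f` which it computes, and its value `a` if all
coefficients and leaves are replaced by their absolute values -/
structure Gate (V : Type) where
  vars : Finset V
  f : (V → Bool) → ℝ
  a : (V → Bool) → ℝ

/-- The gate `g` with inputs in `L`: a leaf (any real function of at most `k` variables), a linear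
combination, or a product of two gates without common variables. -/
def Ok {V : Type} [DecidableEq V] (k : ℕ) (L : List (Gate V)) (g : Gate V) : Prop :=
  (g.vars.card ≤ k ∧ DepOn g.f g.vars ∧ ∀ x, g.a x = |g.f x|) ∨
  (∃ h ∈ L, ∃ h' ∈ L, ∃ α β : ℝ, g.vars = h.vars ∪ h'.vars ∧
    ∀ x, g.f x = α * h.f x + β * h'.f x ∧ g.a x = |α| * h.a x + |β| * h'.a x) ∨
  (∃ h ∈ L, ∃ h' ∈ L, Disjoint h.vars h'.vars ∧ g.vars = h.vars ∪ h'.vars ∧
    ∀ x, g.f x = h.f x * h'.f x ∧ g.a x = h.a x * h'.a x)

/-- Decomposable circuits: lists of gates; the inputs of a gate are further down the list. -/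
inductive Circ {V : Type} [DecidableEq V] (k : ℕ) : List (Gate V) → Prop
  | nil : Circ k []
  | cons {L : List (Gate V)} {g : Gate V} : Circ k L → Ok k L g → Circ k (g :: L)

/-- The gate `g` of a d-DNNF with inputs in `L`: a leaf (a function of at most one variable), an OR of
two gates which are never both true, or an AND of two gates without common variables; the values are
`0` and `1`. -/
def DetOk {V : Type} [DecidableEq V] (L : List (Gate V)) (g : Gate V) : Prop :=
  (∀ x, g.a x = g.f x ∧ (g.f x = 0 ∨ g.f x = 1)) ∧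
  ((g.vars.card ≤ 1 ∧ DepOn g.f g.vars) ∨
  (∃ h ∈ L, ∃ h' ∈ L, g.vars = h.vars ∪ h'.vars ∧ ∀ x, g.f x = h.f x + h'.f x) ∨
  (∃ h ∈ L, ∃ h' ∈ L, Disjoint h.vars h'.vars ∧ g.vars = h.vars ∪ h'.vars ∧
    ∀ x, g.f x = h.f x * h'.f x))

/-- d-DNNFs -/
inductive DetCirc {V : Type} [DecidableEq V] : List (Gate V) → Prop
  | nil : DetCirc []
  | cons {L : List (Gate V)} {g : Gate V} : DetCirc L → DetOk L g → DetCirc (g :: L)

/-- A gate `g` of a circuit with leaves of at most `max 1 b` variables whose value with all signs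
positive is at most `2 ^ b` (on the points with `P`): if `g = F` or `g = 1 - F` then the circuit has
more than `2 ^ b` gates; if it has at most `2 ^ b` gates then `g` is not closer to `F` than the
constant `1` and not closer to `1 - F` than the constant `0`, up to the factor `1 - 2 ^ (-b)`
(`E` is the mean). -/
def Hard {V : Type} [DecidableEq V] (E : ((V → Bool) → ℝ) → ℝ) (F : (V → Bool) → ℝ)
    (P : (V → Bool) → Prop) (b : ℝ) : Prop :=
  ∀ (k : ℕ) (L : List (Gate V)), (k : ℝ) ≤ max 1 b → Circ k L → ∀ g ∈ L,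
    (∀ x, P x → g.a x ≤ 2 ^ b) →
    ((∀ x, P x → g.f x = F x) ∨ (∀ x, P x → g.f x = 1 - F x) → 2 ^ b < (L.length : ℝ)) ∧
    ((L.length : ℝ) ≤ 2 ^ b →
      (1 - 2 ^ (-b)) * (E fun x => 1 - F x) ≤ (E fun x => |g.f x - F x|) ∧
      (1 - 2 ^ (-b)) * (E fun x => 1 - F x) ≤ (E fun x => |g.f x - (1 - F x)|))

/-- `f` is a sum of `T` products of `r` functions with pairwise disjoint sets of at most `m`
variables from `S`; the sum of the products of bounds `b` for the factors is `a` -/
def Prods {V : Type} (S : Finset V) (m r T : ℕ) (f a : (V → Bool) → ℝ) : Prop :=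
  ∃ (A : Fin T → Fin r → Finset V) (g b : Fin T → Fin r → (V → Bool) → ℝ),
    (∀ t i, A t i ⊆ S ∧ (A t i).card ≤ m ∧ DepOn (g t i) (A t i) ∧ DepOn (b t i) (A t i) ∧
      ∀ x, |g t i x| ≤ b t i x) ∧
    (∀ t i j, i ≠ j → Disjoint (A t i) (A t j)) ∧
    ∀ x, f x = ∑ t, ∏ i, g t i x ∧ a x = ∑ t, ∏ i, b t i x

/-! ### Graphs -/

section

variable {V : Type} [Fintype V] [DecidableEq V]

open Classical in
/-- some edge has both ends true -/
noncomputable def PhiG (G : SimpleGraph V) (x : V → Bool) : ℝ :=
  if ∃ u v, G.Adj u v ∧ x u = true ∧ x v = true then 1 else 0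

open Classical in
/-- twice the number of edges inside `X` -/
noncomputable def pr (G : SimpleGraph V) (X : Finset V) : ℕ :=
  ((X ×ˢ X).filter fun e => G.Adj e.1 e.2).card

/-- a graph with degrees at most `d` and average degree at least `1` where every set `X` of at most
`ε |V|` vertices spans at most `(1/2 - γ) (m / |V|) |X|` of the `m` edges -/
def Spread (G : SimpleGraph V) (d : ℕ) (γ ε : ℝ) : Prop :=
  (∀ v, {u | G.Adj v u}.ncard ≤ d) ∧ Fintype.card V ≤ pr G univ ∧
  ∀ X : Finset V, (X.card : ℝ) ≤ ε * Fintype.card V →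
    (Fintype.card V : ℝ) * pr G X ≤ (1 / 2 - γ) * pr G univ * X.card

end

/-! ### Queries and databases -/

/-- An atom: its relation and the list of its terms; `inl v` is the variable `v` and `inr c` the
constant `c`. -/
abbrev Atom := ℕ × List (ℕ ⊕ ℕ)

/-- A Boolean conjunctive query: the set of its atoms. -/
abbrev CQ := Finset Atom

/-- A union of conjunctive queries: the set of its disjuncts. -/
abbrev UCQ := Finset CQ

/-- A fact: its relation and the tuple. A database is a finite set of facts. -/
abbrev Fact := ℕ × List ℕ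

/-- the fact obtained from an atom by a valuation of the variables -/
def Atom.fact (A : Atom) (θ : ℕ → ℕ) : Fact := (A.1, A.2.map (Sum.elim θ id))

/-- the atom obtained from an atom by substituting terms for the variables -/
def Atom.sub (A : Atom) (h : ℕ → ℕ ⊕ ℕ) : Atom := (A.1, A.2.map (Sum.elim h Sum.inr))

/-- no self-joins: different atoms have different relations -/
def SJF (q : CQ) : Prop := ∀ A ∈ q, ∀ B ∈ q, A.1 = B.1 → A = B

/-- hierarchical: for all variables `v`, `w` the sets of the atoms which contain them are disjoint or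
one contains the other -/
def Hier (q : CQ) : Prop :=
  ∀ v w : ℕ, (∀ A ∈ q, ¬ (Sum.inl v ∈ A.2 ∧ Sum.inl w ∈ A.2)) ∨
    (∀ A ∈ q, Sum.inl v ∈ A.2 → Sum.inl w ∈ A.2) ∨ (∀ A ∈ q, Sum.inl w ∈ A.2 → Sum.inl v ∈ A.2)

/-- reduced: no redundant disjuncts and no redundant atoms (a substitution which maps the atoms of a
disjunct to atoms of a disjunct can only permute the atoms of one disjunct) -/
def Reduced (Q : UCQ) : Prop :=
  ∀ q ∈ Q, ∀ q' ∈ Q, ∀ h : ℕ → ℕ ⊕ ℕ, (∀ A ∈ q, Atom.sub A h ∈ q') →
    q = q' ∧ ∀ A ∈ q, ∀ B ∈ q, Atom.sub A h = Atom.sub B h → A = B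

open Classical in
/-- the lineage of `Q` on the database `D`: is `Q` true in the database of the facts `f ∈ D` with
`x f = true`? -/
noncomputable def lin (Q : UCQ) (D : Finset Fact) (x : Fact → Bool) : Bool :=
  decide (∃ q ∈ Q, ∃ θ : ℕ → ℕ, ∀ A ∈ q, Atom.fact A θ ∈ D ∧ x (Atom.fact A θ) = true)

end DSU
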