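import Pool.Agent.DSU.St
import Pool.Agent.DSD.Ep

/-!
The theorem from the modules.
-/

set_option autoImplicit false

namespace DSU

open Finset
open DSD (DepOn bv ind Mean ReadOnce Ep Phi Sg Par Ep_const)

/-- substitution of the bits of the vertices in the database -/
private def Fin_rho {V W : Type} [Fintype V] [DecidableEq V] [DecidableEq W] (ι : V → W)
    (D : Finset W) (x : V → Bool) : W → Bool :=
  ind (D \ (univ.filter fun v => x v = false).image ι)

private lemma Fin_rho_in {V W : Type} [Fintype V] [DecidableEq V] [DecidableEq W] (ι : V → W)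
    (D : Finset W) (hi : Function.Injective ι) (hD : ∀ v, ι v ∈ D) (x : V → Bool) (v : V) :
    Fin_rho ι D x (ι v) = x v := by
  have h : ι v ∈ D \ (univ.filter fun v => x v = false).image ι ↔ x v = true := by
    rw [mem_sdiff, mem_image]
    constructor
    · rintro ⟨-, h⟩
      by_contra hx
      exact h ⟨v, mem_filter.2 ⟨mem_univ v, by simpa using hx⟩, rfl⟩
    · intro hx
      refine ⟨hD v, ?_⟩
      rintro ⟨w, hw, hwv⟩
      rw [hi hwv] at hw
      rw [(mem_filter.1 hw).2] at hx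
      exact Bool.false_ne_true hx
  unfold Fin_rho ind
  by_cases hx : x v = true
  · rw [hx, decide_eq_true (h.2 hx)]
  · rw [decide_eq_false (fun h' => hx (h.1 h'))]
    exact (Bool.eq_false_iff.2 hx).symm

private lemma Fin_rho_out {V W : Type} [Fintype V] [DecidableEq V] [DecidableEq W] (ι : V → W)
    (D : Finset W) (w : W) (hw : ∀ v, ι v ≠ w) (x y : V → Bool) :
    Fin_rho ι D x w = Fin_rho ι D y w := by
  have h : ∀ z : V → Bool, (w ∈ D \ (univ.filter fun v => z v = false).image ι ↔ w ∈ D) := by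
    intro z
    rw [mem_sdiff, mem_image]
    exact ⟨fun h => h.1, fun h => ⟨h, fun ⟨v, _, hv⟩ => hw v hv⟩⟩
  unfold Fin_rho ind
  by_cases hD : w ∈ D
  · rw [decide_eq_true ((h x).2 hD), decide_eq_true ((h y).2 hD)]
  · rw [decide_eq_false (fun h' => hD ((h x).1 h')), decide_eq_false (fun h' => hD ((h y).1 h'))]

private lemma Fin_sjf {q : CQ} (h : SJF q) : Reduced {q} := by
  intro q₁ h₁ q₂ h₂ s hs
  rw [mem_singleton] at h₁ h₂
  subst h₁
  subst h₂
  refine ⟨rfl, fun A hA B hB hAB => h A hA B hB ?_⟩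
  have h1 : (Atom.sub A s).1 = (Atom.sub B s).1 := by rw [hAB]
  exact h1

private lemma Fin_hard {V : Type} [DecidableEq V] (E : ((V → Bool) → ℝ) → ℝ) (F : (V → Bool) → ℝ)
    (P : (V → Bool) → Prop) {b b' : ℝ} (hb : 0 < b) (hbb : b ≤ b') (h0 : 0 < E fun x => 1 - F x)
    (hz : ∀ G : (V → Bool) → ℝ, (∀ x, P x → G x = 0) → E G = 0)
    (core : ∀ (k : ℕ) (L : List (Gate V)), (k : ℝ) ≤ max 1 b' → Circ k L →
      (L.length : ℝ) ≤ 2 ^ b' → ∀ g ∈ L, (∀ x, P x → g.a x ≤ 2 ^ b') →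
      (1 - 2 ^ (-b')) * (E fun x => 1 - F x) ≤ (E fun x => |g.f x - F x|) ∧
      (1 - 2 ^ (-b')) * (E fun x => 1 - F x) ≤ (E fun x => |g.f x - (1 - F x)|)) :
    Hard E F P b := by
  have hpow : (2 : ℝ) ^ b ≤ 2 ^ b' := Real.rpow_le_rpow_of_exponent_le (by norm_num) hbb
  have hpow' : (1 : ℝ) - 2 ^ (-b) ≤ 1 - 2 ^ (-b') := by
    have : (2 : ℝ) ^ (-b') ≤ 2 ^ (-b) :=
      Real.rpow_le_rpow_of_exponent_le (by norm_num) (neg_le_neg hbb)
    linarith
  have hlt : (2 : ℝ) ^ (-b) < 1 := Real.rpow_lt_one_of_one_lt_of_neg (by norm_num) (by linarith)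
  intro k L hk hL g hg hga
  have hrob : (L.length : ℝ) ≤ 2 ^ b →
      (1 - 2 ^ (-b)) * (E fun x => 1 - F x) ≤ (E fun x => |g.f x - F x|) ∧
      (1 - 2 ^ (-b)) * (E fun x => 1 - F x) ≤ (E fun x => |g.f x - (1 - F x)|) := by
    intro hlen
    have h1 := core k L (hk.trans (max_le_max le_rfl hbb)) hL (hlen.trans hpow) g hg
      (fun x hx => (hga x hx).trans hpow)
    exact ⟨(mul_le_mul_of_nonneg_right hpow' h0.le).trans h1.1,
      (mul_le_mul_of_nonneg_right hpow' h0.le).trans h1.2⟩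
  refine ⟨?_, hrob⟩
  intro hex
  by_contra hlen
  push Not at hlen
  have hpos : 0 < (1 - 2 ^ (-b)) * (E fun x => 1 - F x) := mul_pos (by linarith) h0
  rcases hex with h | h
  · have h1 := (hrob hlen).1
    have h2 : (E fun x => |g.f x - F x|) = 0 :=
      hz _ fun x hx => by rw [h x hx, sub_self, abs_zero]
    linarith
  · have h1 := (hrob hlen).2
    have h2 : (E fun x => |g.f x - (1 - F x)|) = 0 :=
      hz _ fun x hx => by rw [h x hx, sub_self, abs_zero]
    linarith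

theorem thm_Fin (hRO : St_RO) (hLic : St_Lic) (hRed : St_Red) (hExs : DSD.St_Exs) (hSub : St_Sub)
    (hCon : St_Con) : Main := by
  refine ⟨?_, ?_⟩
  · intro q hq
    refine ⟨Fin_sjf hq, fun hh D => ?_⟩
    obtain ⟨S, hS, hR⟩ := hRO q hq hh D
    refine ⟨⟨S, hS, hR⟩, ?_⟩
    obtain ⟨L, hL, hL', hlen, h1, h2⟩ := hLic Fact S _ hR
    exact ⟨L, hL, hL', hlen.trans (by have := card_le_card hS; omega), h1, h2⟩
  obtain ⟨p, c, n₀, hp0, hp1, hc, hG⟩ := hCon
  refine ⟨p, c, 256 * (n₀ + 1), hp0, hp1, hc, ?_⟩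
  intro n hn
  set n' : ℕ := max n n₀ with hn'
  have hnn : (n : ℝ) ≤ n' := by exact_mod_cast le_max_left n n₀
  have hn1 : (1 : ℝ) ≤ n := by exact_mod_cast hn
  have hn'n : (n' : ℝ) ≤ (n₀ + 1) * n := by
    have h0 : (0 : ℝ) ≤ n₀ := Nat.cast_nonneg _
    rw [hn', Nat.cast_max]
    apply max_le
    · nlinarith
    · nlinarith
  have hcn : 0 < c * (n : ℝ) := by positivity
  have hcc : c * (n : ℝ) ≤ c * n' := mul_le_mul_of_nonneg_left hnn hc.le
  have hn'0 : (0 : ℝ) ≤ n' := Nat.cast_nonneg _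
  obtain ⟨E, hE, hEa, hEb, hPos, hcirc⟩ := hG n' (le_max_right n n₀)
  refine ⟨⟨Fin 16 × Fin n', inferInstance, inferInstance, E, ?_, ?_, hPos, ?_⟩, ?_⟩
  · have h1 : (Fintype.card (Fin 16 × Fin n') : ℝ) = 16 * n' := by
      rw [Fintype.card_prod, Fintype.card_fin, Fintype.card_fin]
      push_cast
      ring
    rw [h1]
    linarith
  · have h1 : (E.card : ℝ) = 256 * n' := by
      rw [hE]
      push_cast
      ring
    rw [h1]
    linarith
  · refine Fin_hard _ _ _ hcn hcc hPos ?_ ?_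
    · intro G hG'
      have h3 : G = fun _ => (0 : ℝ) := funext fun x => hG' x trivial
      rw [h3, Ep_const]
    · intro k L hk hL hlen g hg hga
      exact hcirc k L hk hL hlen g hg fun x => hga x trivial
  intro Q hQ q hqQ hq
  obtain ⟨D, ι, T, hι, hιD, hDc, hTc, hT1, hT2, hlin⟩ :=
    hRed Q hQ q hqQ hq (Fin 16 × Fin n') E hEa hEb
  classical
  set t : Fact → ℝ := fun f => if ∃ v, ι v = f then p else 1 with ht
  have ht1 : ∀ v, t (ι v) = p := fun v => if_pos ⟨v, rfl⟩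
  have ht2 : ∀ w ∈ D, (∀ v, ι v ≠ w) → t w = 1 := fun w _ hw =>
    if_neg fun ⟨v, hv⟩ => hw v hv
  have hmean : ∀ F : (Fact → Bool) → ℝ, Mean D t F = Ep (fun _ => p) fun x => F (Fin_rho ι D x) :=
    fun F => hExs _ _ ι D t p F hι hιD ht1 ht2
  have hlin' : ∀ x, bv (lin Q D (Fin_rho ι D x)) = Phi E x := hlin
  have hM0 : (Mean D t fun x => 1 - bv (lin Q D x)) = Ep (fun _ => p) fun x => 1 - Phi E x := by
    rw [hmean]
    simp only [hlin']
  refine ⟨D, t, T, ?_, ?_, ⟨?_, hT1, hT2⟩, by rw [hM0]; exact hPos, ?_⟩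
  · have h1 : (D.card : ℝ) ≤ q.card * (256 * n') := by
      rw [hE] at hDc
      exact_mod_cast hDc
    calc (D.card : ℝ) ≤ q.card * (256 * n') := h1
      _ ≤ q.card * (256 * ((n₀ + 1) * n)) := by gcongr
      _ = 256 * (n₀ + 1) * q.card * n := by ring
  · intro f _
    by_cases hf : ∃ v, ι v = f
    · exact Or.inl (if_pos hf)
    · exact Or.inr (if_neg hf)
  · have h1 : (T.card : ℝ) ≤ 256 * n' := by
      rw [hE] at hTc
      exact_mod_cast hTc
    calc (T.card : ℝ) ≤ 256 * n' := h1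
      _ ≤ 256 * ((n₀ + 1) * n) := by gcongr
      _ = 256 * (n₀ + 1) * n := by ring
  · refine Fin_hard _ _ _ hcn hcc (by rw [hM0]; exact hPos) ?_ ?_
    · intro G hG'
      apply Finset.sum_eq_zero
      intro W hW
      rw [hG' (ind W) ⟨W, mem_powerset.1 hW, rfl⟩, mul_zero]
    · intro k L hk hL hlen g hg hga
      obtain ⟨L', hL'len, hL', hgg⟩ := hSub _ _ ι (Fin_rho ι D) k L hι
        (Fin_rho_in ι D hι hιD) (Fin_rho_out ι D) hL
      obtain ⟨g', hg', hgf⟩ := hgg g hg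
      have h1 := hcirc k L' hk hL' (by rw [hL'len]; exact hlen) g' hg'
        (fun x => by rw [(hgf x).2]; exact hga _ ⟨_, sdiff_subset, rfl⟩)
      have hgf' : ∀ x, g'.f x = g.f (Fin_rho ι D x) := fun x => (hgf x).1
      have h2 : (Mean D t fun x => |g.f x - bv (lin Q D x)|) =
          Ep (fun _ => p) fun x => |g'.f x - Phi E x| := by
        rw [hmean]
        simp only [hlin', hgf']
      have h3 : (Mean D t fun x => |g.f x - (1 - bv (lin Q D x))|) =
          Ep (fun _ => p) fun x => |g'.f x - (1 - Phi E x)| := by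
        rw [hmean]
        simp only [hlin', hgf']
      rw [h2, h3, hM0]
      exact h1

end DSU
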