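import Pool.Agent.DSU.St2
import Pool.Agent.DSD.Ep

/-!
The theorem for spread graphs and for queries, from the modules.
-/

set_option autoImplicit false

namespace DSU

open Finset
open DSD (DepOn bv ind Mean ReadOnce Ep Phi Sg Par Ep_const)

private def Fin2_rho {V W : Type} [Fintype V] [DecidableEq V] [DecidableEq W] (ι : V → W)
    (D : Finset W) (x : V → Bool) : W → Bool :=
  ind (D \ (univ.filter fun v => x v = false).image ι)

private lemma Fin2_rho_in {V W : Type} [Fintype V] [DecidableEq V] [DecidableEq W] (ι : V → W)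
    (D : Finset W) (hi : Function.Injective ι) (hD : ∀ v, ι v ∈ D) (x : V → Bool) (v : V) :
    Fin2_rho ι D x (ι v) = x v := by
  have h : ι v ∈ D \ (univ.filter fun v => x v = false).image ι ↔ x v = true := by
    rw [mem_sdiff, mem_image]
    constructor
    · rintro ⟨-, h⟩
      by_contra hx
      exact h ⟨v, mem_filter.2 ⟨mem_univ v, by simpa using hx⟩, rfl⟩
    · intro hx
      refine ⟨hD v, ?_⟩
      rintro ⟨w, hw, hwv⟩
      rw [hi hwv] at hw
      rw [(mem_filter.1 hw).2] at hx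
      exact Bool.false_ne_true hx
  unfold Fin2_rho ind
  by_cases hx : x v = true
  · rw [hx, decide_eq_true (h.2 hx)]
  · rw [decide_eq_false (fun h' => hx (h.1 h'))]
    exact (Bool.eq_false_iff.2 hx).symm

private lemma Fin2_rho_out {V W : Type} [Fintype V] [DecidableEq V] [DecidableEq W] (ι : V → W)
    (D : Finset W) (w : W) (hw : ∀ v, ι v ≠ w) (x y : V → Bool) :
    Fin2_rho ι D x w = Fin2_rho ι D y w := by
  have h : ∀ z : V → Bool, (w ∈ D \ (univ.filter fun v => z v = false).image ι ↔ w ∈ D) := by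
    intro z
    rw [mem_sdiff, mem_image]
    exact ⟨fun h => h.1, fun h => ⟨h, fun ⟨v, _, hv⟩ => hw v hv⟩⟩
  unfold Fin2_rho ind
  by_cases hD : w ∈ D
  · rw [decide_eq_true ((h x).2 hD), decide_eq_true ((h y).2 hD)]
  · rw [decide_eq_false (fun h' => hD ((h x).1 h')), decide_eq_false (fun h' => hD ((h y).1 h'))]

private lemma Fin2_sjf {q : CQ} (h : SJF q) : Reduced {q} := by
  intro q₁ h₁ q₂ h₂ s hs
  rw [mem_singleton] at h₁ h₂
  subst h₁
  subst h₂
  refine ⟨rfl, fun A hA B hB hAB => h A hA B hB ?_⟩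
  have h1 : (Atom.sub A s).1 = (Atom.sub B s).1 := by rw [hAB]
  exact h1

private lemma Fin2_hard {V : Type} [DecidableEq V] (E : ((V → Bool) → ℝ) → ℝ) (F : (V → Bool) → ℝ)
    (P : (V → Bool) → Prop) {b b' : ℝ} (hb : 0 < b) (hbb : b ≤ b') (h0 : 0 < E fun x => 1 - F x)
    (hz : ∀ G : (V → Bool) → ℝ, (∀ x, P x → G x = 0) → E G = 0)
    (core : ∀ (k : ℕ) (L : List (Gate V)), (k : ℝ) ≤ max 1 b' → Circ k L →
      (L.length : ℝ) ≤ 2 ^ b' → ∀ g ∈ L, (∀ x, P x → g.a x ≤ 2 ^ b') →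
      (1 - 2 ^ (-b')) * (E fun x => 1 - F x) ≤ (E fun x => |g.f x - F x|) ∧
      (1 - 2 ^ (-b')) * (E fun x => 1 - F x) ≤ (E fun x => |g.f x - (1 - F x)|)) :
    Hard E F P b := by
  have hpow : (2 : ℝ) ^ b ≤ 2 ^ b' := Real.rpow_le_rpow_of_exponent_le (by norm_num) hbb
  have hpow' : (1 : ℝ) - 2 ^ (-b) ≤ 1 - 2 ^ (-b') := by
    have : (2 : ℝ) ^ (-b') ≤ 2 ^ (-b) :=
      Real.rpow_le_rpow_of_exponent_le (by norm_num) (neg_le_neg hbb)
    linarith
  have hlt : (2 : ℝ) ^ (-b) < 1 := Real.rpow_lt_one_of_one_lt_of_neg (by norm_num) (by linarith)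
  intro k L hk hL g hg hga
  have hrob : (L.length : ℝ) ≤ 2 ^ b →
      (1 - 2 ^ (-b)) * (E fun x => 1 - F x) ≤ (E fun x => |g.f x - F x|) ∧
      (1 - 2 ^ (-b)) * (E fun x => 1 - F x) ≤ (E fun x => |g.f x - (1 - F x)|) := by
    intro hlen
    have h1 := core k L (hk.trans (max_le_max le_rfl hbb)) hL (hlen.trans hpow) g hg
      (fun x hx => (hga x hx).trans hpow)
    exact ⟨(mul_le_mul_of_nonneg_right hpow' h0.le).trans h1.1,
      (mul_le_mul_of_nonneg_right hpow' h0.le).trans h1.2⟩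
  refine ⟨?_, hrob⟩
  intro hex
  by_contra hlen
  push Not at hlen
  have hpos : 0 < (1 - 2 ^ (-b)) * (E fun x => 1 - F x) := mul_pos (by linarith) h0
  rcases hex with h | h
  · have h1 := (hrob hlen).1
    have h2 : (E fun x => |g.f x - F x|) = 0 :=
      hz _ fun x hx => by rw [h x hx, sub_self, abs_zero]
    linarith
  · have h1 := (hrob hlen).2
    have h2 : (E fun x => |g.f x - (1 - F x)|) = 0 :=
      hz _ fun x hx => by rw [h x hx, sub_self, abs_zero]
    linarith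

/-- the core estimate for spread graphs -/
private lemma Fin2_core (hOri : St_Ori) (hCon : St_ConE) (d : ℕ) (γ ε : ℝ) (hγ : 0 < γ)
    (hε : 0 < ε) : ∃ (p c : ℝ) (n₀ : ℕ), 0 < p ∧ p < 1 ∧ 0 < c ∧
    ∀ (V : Type) [Fintype V] [DecidableEq V] (G : SimpleGraph V), n₀ ≤ Fintype.card V →
      Spread G d γ ε →
      0 < (Ep (fun _ => p) fun x => 1 - PhiG G x) ∧
      ∀ (k : ℕ) (L : List (Gate V)), (k : ℝ) ≤ max 1 (c * Fintype.card V) →
        Circ k L → (L.length : ℝ) ≤ 2 ^ (c * Fintype.card V) → ∀ g ∈ L,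
        (∀ x, g.a x ≤ 2 ^ (c * Fintype.card V)) →
        (1 - 2 ^ (-(c * Fintype.card V))) * (Ep (fun _ => p) fun x => 1 - PhiG G x) ≤
          (Ep (fun _ => p) fun x => |g.f x - PhiG G x|) ∧
        (1 - 2 ^ (-(c * Fintype.card V))) * (Ep (fun _ => p) fun x => 1 - PhiG G x) ≤
          (Ep (fun _ => p) fun x => |g.f x - (1 - PhiG G x)|) := by
  obtain ⟨p, c, n₀, hp0, hp1, hc, hcon⟩ := hCon d γ ε hγ hε
  refine ⟨p, c, n₀, hp0, hp1, hc, ?_⟩
  intro V _ _ G hn hS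
  obtain ⟨E, hOE, hPhi, hpr, hpru, hdeg⟩ := hOri V G
  have hcard : Fintype.card V ≤ 2 * E.card := by
    rw [← hpru]
    exact hS.2.1
  have hE : (pr G univ : ℝ) = 2 * E.card := by exact_mod_cast hpru
  have hSp : Sprd E d ⌊ε * Fintype.card V⌋₊ γ := by
    refine ⟨fun v => (hdeg v).le.trans (hS.1 v), fun X hX => ?_⟩
    have h0 : (0 : ℝ) ≤ ε * Fintype.card V := by positivity
    have h1 : (X.card : ℝ) ≤ ε * Fintype.card V := (Nat.le_floor_iff h0).1 hX
    have h2 := hS.2.2 X h1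
    have h3 : (pr G X : ℝ) = 2 * ein E X := by exact_mod_cast hpr X
    rw [h3, hE] at h2
    linarith
  have h := hcon V E hn hOE hcard hSp
  simpa only [hPhi] using h

theorem thm_Fin2 (hRO : St_RO) (hLic : St_Lic) (hRed : St_Red) (hExs : DSD.St_Exs) (hSub : St_Sub)
    (hOri : St_Ori) (hCon : St_ConE) (hGr : St_GrE) : Main2 := by
  refine ⟨?_, ?_, ?_, ?_⟩
  · intro q hq
    refine ⟨Fin2_sjf hq, fun hh D => ?_⟩
    obtain ⟨S, hS, hR⟩ := hRO q hq hh D
    refine ⟨⟨S, hS, hR⟩, ?_⟩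
    obtain ⟨L, hL, hL', hlen, h1, h2⟩ := hLic Fact S _ hR
    exact ⟨L, hL, hL', hlen.trans (by have := card_le_card hS; omega), h1, h2⟩
  · intro d γ ε hγ hε
    obtain ⟨p, c, n₀, hp0, hp1, hc, hcore⟩ := Fin2_core hOri hCon d γ ε hγ hε
    refine ⟨p, c, max n₀ 1, hp0, hp1, hc, ?_⟩
    intro V _ _ G hn hS
    have hn1 : 1 ≤ Fintype.card V := (le_max_right n₀ 1).trans hn
    have hn1' : (1 : ℝ) ≤ Fintype.card V := by exact_mod_cast hn1
    obtain ⟨h0, h1⟩ := hcore V G ((le_max_left n₀ 1).trans hn) hS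
    refine ⟨h0, Fin2_hard _ _ _ (by positivity) le_rfl h0 ?_ ?_⟩
    · intro G' hG'
      have h3 : G' = fun _ => (0 : ℝ) := funext fun x => hG' x trivial
      rw [h3, Ep_const]
    · intro k L hk hL hlen g hg hga
      exact h1 k L hk hL hlen g hg fun x => hga x trivial
  · obtain ⟨ε, hε, hG⟩ := hGr
    refine ⟨ε, hε, fun n hn => ?_⟩
    obtain ⟨E, -, -, -, G, -, hreg, hS⟩ := hG n hn
    refine ⟨(Fin 16 × Fin n) ⊕ (Fin 16 × Fin n), inferInstance, inferInstance, G, ?_, hreg, hS⟩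
    rw [Fintype.card_sum, Fintype.card_prod, Fintype.card_fin, Fintype.card_fin]
    ring
  obtain ⟨ε, hε, hGr'⟩ := hGr
  obtain ⟨p, c, n₀, hp0, hp1, hc, hcore⟩ :=
    Fin2_core hOri hCon 16 (1 / 4) ε (by norm_num) hε
  refine ⟨p, c, 256 * (n₀ + 1), hp0, hp1, hc, ?_⟩
  intro n hn Q hQ q hqQ hq
  set n' : ℕ := max n n₀ with hn'
  have hnn : (n : ℝ) ≤ n' := by exact_mod_cast le_max_left n n₀
  have hn1 : (1 : ℝ) ≤ n := by exact_mod_cast hn
  have hn'1 : 1 ≤ n' := hn.trans (le_max_left n n₀)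
  have hn'n : (n' : ℝ) ≤ (n₀ + 1) * n := by
    have h0 : (0 : ℝ) ≤ n₀ := Nat.cast_nonneg _
    rw [hn', Nat.cast_max]
    apply max_le
    · nlinarith
    · nlinarith
  obtain ⟨E, hE, hEa, hEb, G, hPhi, -, hS⟩ := hGr' n' hn'1
  have hV : Fintype.card ((Fin 16 × Fin n') ⊕ (Fin 16 × Fin n')) = 32 * n' := by
    rw [Fintype.card_sum, Fintype.card_prod, Fintype.card_fin, Fintype.card_fin]
    ring
  have hVr : (Fintype.card ((Fin 16 × Fin n') ⊕ (Fin 16 × Fin n')) : ℝ) = 32 * n' := by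
    rw [hV]
    push_cast
    ring
  obtain ⟨hPos, hcirc⟩ := hcore _ G
    (by rw [hV]; have := le_max_right n n₀; omega) hS
  simp only [hPhi, hVr] at hPos hcirc
  have hcn : 0 < c * (n : ℝ) := by positivity
  have hcc : c * (n : ℝ) ≤ c * (32 * n') := by
    apply mul_le_mul_of_nonneg_left _ hc.le
    have : (0 : ℝ) ≤ n' := Nat.cast_nonneg _
    linarith
  obtain ⟨D, ι, T, hι, hιD, hDc, hTc, hT1, hT2, hlin⟩ :=
    hRed Q hQ q hqQ hq (Fin 16 × Fin n') E hEa hEb
  classical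
  set t : Fact → ℝ := fun f => if ∃ v, ι v = f then p else 1 with ht
  have ht1 : ∀ v, t (ι v) = p := fun v => if_pos ⟨v, rfl⟩
  have ht2 : ∀ w ∈ D, (∀ v, ι v ≠ w) → t w = 1 := fun w _ hw =>
    if_neg fun ⟨v, hv⟩ => hw v hv
  have hmean : ∀ F : (Fact → Bool) → ℝ, Mean D t F = Ep (fun _ => p) fun x => F (Fin2_rho ι D x) :=
    fun F => hExs _ _ ι D t p F hι hιD ht1 ht2
  have hlin' : ∀ x, bv (lin Q D (Fin2_rho ι D x)) = Phi E x := hlin
  have hM0 : (Mean D t fun x => 1 - bv (lin Q D x)) = Ep (fun _ => p) fun x => 1 - Phi E x := by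
    rw [hmean]
    simp only [hlin']
  refine ⟨D, t, T, ?_, ?_, ⟨?_, hT1, hT2⟩, by rw [hM0]; exact hPos, ?_⟩
  · have h1 : (D.card : ℝ) ≤ q.card * (256 * n') := by
      rw [hE] at hDc
      exact_mod_cast hDc
    calc (D.card : ℝ) ≤ q.card * (256 * n') := h1
      _ ≤ q.card * (256 * ((n₀ + 1) * n)) := by gcongr
      _ = 256 * (n₀ + 1) * q.card * n := by ring
  · intro f _
    by_cases hf : ∃ v, ι v = f
    · exact Or.inl (if_pos hf)
    · exact Or.inr (if_neg hf)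
  · have h1 : (T.card : ℝ) ≤ 256 * n' := by
      rw [hE] at hTc
      exact_mod_cast hTc
    calc (T.card : ℝ) ≤ 256 * n' := h1
      _ ≤ 256 * ((n₀ + 1) * n) := by gcongr
      _ = 256 * (n₀ + 1) * n := by ring
  · refine Fin2_hard _ _ _ hcn hcc (by rw [hM0]; exact hPos) ?_ ?_
    · intro G hG'
      apply Finset.sum_eq_zero
      intro W hW
      rw [hG' (ind W) ⟨W, mem_powerset.1 hW, rfl⟩, mul_zero]
    · intro k L hk hL hlen g hg hga
      obtain ⟨L', hL'len, hL', hgg⟩ := hSub _ _ ι (Fin2_rho ι D) k L hι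
        (Fin2_rho_in ι D hι hιD) (Fin2_rho_out ι D) hL
      obtain ⟨g', hg', hgf⟩ := hgg g hg
      have h1 := hcirc k L' hk hL' (by rw [hL'len]; exact hlen) g' hg'
        (fun x => by rw [(hgf x).2]; exact hga _ ⟨_, sdiff_subset, rfl⟩)
      have hgf' : ∀ x, g'.f x = g.f (Fin2_rho ι D x) := fun x => (hgf x).1
      have h2 : (Mean D t fun x => |g.f x - bv (lin Q D x)|) =
          Ep (fun _ => p) fun x => |g'.f x - Phi E x| := by
        rw [hmean]
        simp only [hlin', hgf']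
      have h3 : (Mean D t fun x => |g.f x - (1 - bv (lin Q D x))|) =
          Ep (fun _ => p) fun x => |g'.f x - (1 - Phi E x)| := by
        rw [hmean]
        simp only [hlin', hgf']
      rw [h2, h3, hM0]
      exact h1

end DSU
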