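import Pool.Agent.DSU.St2

/-!
# GrE: the bipartite graphs where small sets span few edges, as `SimpleGraph`s (helper60)
-/

set_option autoImplicit false

namespace DSU

open Finset
open DSD (Phi)

section

variable {K : Type} [Fintype K] [DecidableEq K]

/-- the bipartite graph with the edges `E` -/
private def GrE_gr (E : Finset (K × K)) : SimpleGraph (K ⊕ K) where
  Adj u v := ∃ e ∈ E, (u = Sum.inl e.1 ∧ v = Sum.inr e.2) ∨ (v = Sum.inl e.1 ∧ u = Sum.inr e.2)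
  symm := ⟨by
    rintro u v ⟨e, he, h⟩
    exact ⟨e, he, h.symm⟩⟩
  loopless := ⟨by
    rintro u ⟨e, he, ⟨h1, h2⟩ | ⟨h1, h2⟩⟩
    · exact Sum.inl_ne_inr (h1.symm.trans h2)
    · exact Sum.inl_ne_inr (h1.symm.trans h2)⟩

private theorem GrE_phi (E : Finset (K × K)) (x : K ⊕ K → Bool) :
    PhiG (GrE_gr E) x = Phi E x := by
  unfold PhiG Phi
  have h : (∃ u v, (GrE_gr E).Adj u v ∧ x u = true ∧ x v = true) ↔
      ∃ e ∈ E, x (Sum.inl e.1) = true ∧ x (Sum.inr e.2) = true := by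
    constructor
    · rintro ⟨u, v, ⟨e, he, ⟨rfl, rfl⟩ | ⟨rfl, rfl⟩⟩, h1, h2⟩
      · exact ⟨e, he, h1, h2⟩
      · exact ⟨e, he, h2, h1⟩
    · rintro ⟨e, he, h1, h2⟩
      exact ⟨_, _, ⟨e, he, Or.inl ⟨rfl, rfl⟩⟩, h1, h2⟩
  by_cases h1 : ∃ e ∈ E, x (Sum.inl e.1) = true ∧ x (Sum.inr e.2) = true
  · rw [if_pos h1, if_pos (h.2 h1)]
  · rw [if_neg h1, if_neg fun h2 => h1 (h.1 h2)]

private theorem GrE_pr (E : Finset (K × K)) (X : Finset (K ⊕ K)) :
    pr (GrE_gr E) X = 2 * (E.filter fun e => Sum.inl e.1 ∈ X ∧ Sum.inr e.2 ∈ X).card := by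
  classical
  unfold pr
  have h : ((X ×ˢ X).filter fun e => (GrE_gr E).Adj e.1 e.2) =
      (E.filter fun e => Sum.inl e.1 ∈ X ∧ Sum.inr e.2 ∈ X).image
        (fun e => ((Sum.inl e.1 : K ⊕ K), (Sum.inr e.2 : K ⊕ K))) ∪
      (E.filter fun e => Sum.inl e.1 ∈ X ∧ Sum.inr e.2 ∈ X).image
        (fun e => ((Sum.inr e.2 : K ⊕ K), (Sum.inl e.1 : K ⊕ K))) := by
    ext ⟨u, v⟩
    rw [mem_filter, mem_product, mem_union, mem_image, mem_image]
    constructor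
    · rintro ⟨⟨hu, hv⟩, e, he, ⟨h1, h2⟩ | ⟨h1, h2⟩⟩
      · change u = _ at h1
        change v = _ at h2
        subst h1 h2
        exact Or.inl ⟨e, mem_filter.2 ⟨he, hu, hv⟩, rfl⟩
      · change v = _ at h1
        change u = _ at h2
        subst h1 h2
        exact Or.inr ⟨e, mem_filter.2 ⟨he, hv, hu⟩, rfl⟩
    · rintro (⟨e, he, h1⟩ | ⟨e, he, h1⟩)
      · rw [mem_filter] at he
        obtain ⟨rfl, rfl⟩ := Prod.mk.inj h1
        exact ⟨⟨he.2.1, he.2.2⟩, e, he.1, Or.inl ⟨rfl, rfl⟩⟩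
      · rw [mem_filter] at he
        obtain ⟨rfl, rfl⟩ := Prod.mk.inj h1
        exact ⟨⟨he.2.2, he.2.1⟩, e, he.1, Or.inr ⟨rfl, rfl⟩⟩
  have hd : Disjoint ((E.filter fun e => Sum.inl e.1 ∈ X ∧ Sum.inr e.2 ∈ X).image
        (fun e => ((Sum.inl e.1 : K ⊕ K), (Sum.inr e.2 : K ⊕ K))))
      ((E.filter fun e => Sum.inl e.1 ∈ X ∧ Sum.inr e.2 ∈ X).image
        (fun e => ((Sum.inr e.2 : K ⊕ K), (Sum.inl e.1 : K ⊕ K)))) := by
    rw [disjoint_left]
    rintro z hz1 hz2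
    obtain ⟨e, -, rfl⟩ := mem_image.1 hz1
    obtain ⟨e', -, he'⟩ := mem_image.1 hz2
    exact Sum.inl_ne_inr (Prod.mk.inj he').1.symm
  have h1 : ∀ Y : Finset (K × K), (Y.image
      (fun e => ((Sum.inl e.1 : K ⊕ K), (Sum.inr e.2 : K ⊕ K)))).card = Y.card := by
    intro Y
    apply card_image_of_injective
    rintro ⟨a, b⟩ ⟨a', b'⟩ h
    obtain ⟨h1, h2⟩ := Prod.mk.inj h
    exact Prod.ext (Sum.inl.inj h1) (Sum.inr.inj h2)
  have h2 : ∀ Y : Finset (K × K), (Y.image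
      (fun e => ((Sum.inr e.2 : K ⊕ K), (Sum.inl e.1 : K ⊕ K)))).card = Y.card := by
    intro Y
    apply card_image_of_injective
    rintro ⟨a, b⟩ ⟨a', b'⟩ h
    obtain ⟨h1, h2⟩ := Prod.mk.inj h
    exact Prod.ext (Sum.inl.inj h2) (Sum.inr.inj h1)
  rw [h, card_union_of_disjoint hd, h1, h2]
  ring

private theorem GrE_deg (E : Finset (K × K)) (d : ℕ)
    (h1 : ∀ a, (E.filter fun e => e.1 = a).card = d)
    (h2 : ∀ b, (E.filter fun e => e.2 = b).card = d) (v : K ⊕ K) :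
    {u | (GrE_gr E).Adj v u}.ncard = d := by
  classical
  rcases v with a | b
  · have h : {u | (GrE_gr E).Adj (Sum.inl a) u} =
        (((E.filter fun e => e.1 = a).image fun e => (Sum.inr e.2 : K ⊕ K) : Finset (K ⊕ K)) :
          Set (K ⊕ K)) := by
      ext u
      rw [coe_image]
      constructor
      · rintro ⟨e, he, ⟨e1, e2⟩ | ⟨e1, e2⟩⟩
        · exact ⟨e, mem_coe.2 (mem_filter.2 ⟨he, (Sum.inl.inj e1).symm⟩), e2.symm⟩
        · exact absurd e2 Sum.inl_ne_inr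
      · rintro ⟨e, he, rfl⟩
        obtain ⟨he1, rfl⟩ := mem_filter.1 (mem_coe.1 he)
        exact ⟨e, he1, Or.inl ⟨rfl, rfl⟩⟩
    rw [h, Set.ncard_coe_finset, card_image_of_injOn, h1 a]
    rintro ⟨x, y⟩ hx ⟨x', y'⟩ hx' e
    have e1 : x = a := (mem_filter.1 (mem_coe.1 hx)).2
    have e2 : x' = a := (mem_filter.1 (mem_coe.1 hx')).2
    exact Prod.ext (e1.trans e2.symm) (Sum.inr.inj e)
  · have h : {u | (GrE_gr E).Adj (Sum.inr b) u} =
        (((E.filter fun e => e.2 = b).image fun e => (Sum.inl e.1 : K ⊕ K) : Finset (K ⊕ K)) :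
          Set (K ⊕ K)) := by
      ext u
      rw [coe_image]
      constructor
      · rintro ⟨e, he, ⟨e1, e2⟩ | ⟨e1, e2⟩⟩
        · exact absurd e1.symm Sum.inl_ne_inr
        · exact ⟨e, mem_coe.2 (mem_filter.2 ⟨he, (Sum.inr.inj e2).symm⟩), e1.symm⟩
      · rintro ⟨e, he, rfl⟩
        obtain ⟨he1, rfl⟩ := mem_filter.1 (mem_coe.1 he)
        exact ⟨e, he1, Or.inr ⟨rfl, rfl⟩⟩
    rw [h, Set.ncard_coe_finset, card_image_of_injOn, h2 b]
    rintro ⟨x, y⟩ hx ⟨x', y'⟩ hx' e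
    have e1 : y = b := (mem_filter.1 (mem_coe.1 hx)).2
    have e2 : y' = b := (mem_filter.1 (mem_coe.1 hx')).2
    exact Prod.ext (Sum.inl.inj e) (e1.trans e2.symm)

end

/-- [GrE] the graphs of [Gra] as `SimpleGraph`s -/
theorem thm_GrE (hG : DSD.St_Gra) : St_GrE := by
  obtain ⟨ε, hε, hG⟩ := hG
  refine ⟨ε / 32, by positivity, fun n hn => ?_⟩
  obtain ⟨E, hE, h1, h2, h3⟩ := hG n hn
  have hV : Fintype.card ((Fin 16 × Fin n) ⊕ (Fin 16 × Fin n)) = 32 * n := by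
    rw [Fintype.card_sum, Fintype.card_prod, Fintype.card_fin, Fintype.card_fin]
    ring
  have hpu : pr (GrE_gr E) univ = 512 * n := by
    rw [GrE_pr]
    have e : (E.filter fun e => Sum.inl e.1 ∈ (univ : Finset ((Fin 16 × Fin n) ⊕ (Fin 16 × Fin n)))
        ∧ Sum.inr e.2 ∈ (univ : Finset ((Fin 16 × Fin n) ⊕ (Fin 16 × Fin n)))) = E :=
      filter_true_of_mem fun e _ => ⟨mem_univ _, mem_univ _⟩
    rw [e, hE]
    ring
  refine ⟨E, hE, ?_, ?_, GrE_gr E, GrE_phi E, GrE_deg E 16 h1 h2, fun v =>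
    (GrE_deg E 16 h1 h2 v).le, ?_, fun X hX => ?_⟩
  · intro a
    have h : (E.filter fun e => e.1 = a).Nonempty := by
      rw [← card_pos, h1 a]
      norm_num
    obtain ⟨e, he⟩ := h
    obtain ⟨he1, rfl⟩ := mem_filter.1 he
    exact ⟨e.2, he1⟩
  · intro b
    have h : (E.filter fun e => e.2 = b).Nonempty := by
      rw [← card_pos, h2 b]
      norm_num
    obtain ⟨e, he⟩ := h
    obtain ⟨he1, rfl⟩ := mem_filter.1 he
    exact ⟨e.1, he1⟩
  · rw [hV, hpu]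
    omega
  · rw [hV] at hX
    have hX' : (X.card : ℝ) ≤ ε * n := by
      push_cast at hX
      linarith
    have h4 := h3 X hX'
    have h5 : pr (GrE_gr E) X ≤ 4 * X.card := by
      rw [GrE_pr]
      omega
    have h6 : (pr (GrE_gr E) X : ℝ) ≤ 4 * X.card := by exact_mod_cast h5
    rw [hV, hpu]
    push_cast
    have h7 : (0 : ℝ) ≤ n := Nat.cast_nonneg n
    nlinarith [mul_le_mul_of_nonneg_left h6 h7]

end DSU
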