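import Pool.Agent.DSU.St2
import Pool.Agent.DSD.Har

/-!
# Harris' inequality for oriented graphs (DSU HarE, helper44, after helper33's Har)
-/

set_option autoImplicit false

namespace DSU

open Finset
open DSD (DepOn bv ind Mean ReadOnce Ep Phi Sgn ec Low Loc Par)
open DSD (Har_one Har_edge Har_fkg)

/-- [HarE] -/
theorem thm_HarE : St_HarE := by
  intro V _ _ E p hE h0 h1
  have hp2 : 0 ≤ 1 - p ^ 2 := by nlinarith
  induction E using Finset.induction_on with
  | empty =>
    rw [Finset.card_empty, pow_zero]
    refine le_of_eq ?_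
    have e : (fun x : V → Bool => 1 - PhE (∅ : Finset (V × V)) x) = fun _ => 1 := by
      funext x
      unfold PhE
      simp
    rw [e, Har_one]
  | insert e E he ih =>
    have hE' : OE E := fun a ha =>
      ⟨(hE a (Finset.mem_insert_of_mem ha)).1,
        fun h => (hE a (Finset.mem_insert_of_mem ha)).2 (Finset.mem_insert_of_mem h)⟩
    have hne : e.1 ≠ e.2 := (hE e (Finset.mem_insert_self e E)).1
    replace ih := ih hE'
    rw [Finset.card_insert_of_notMem he, pow_succ]
    let g : (V → Bool) → ℝ := fun x =>
      1 - if x e.1 = true ∧ x e.2 = true then (1 : ℝ) else 0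
    have hg : Ep (fun _ => p) g = 1 - p ^ 2 := by
      have h2 := Har_edge (V := V) p e.1 e.2 hne
      have h3 := Har_one (V := V) (fun _ => p)
      have h4 : Ep (fun _ => p) g = (Ep (fun _ => p) fun _ : V → Bool => (1 : ℝ)) -
          Ep (fun _ => p) fun x : V → Bool =>
            if x e.1 = true ∧ x e.2 = true then (1 : ℝ) else 0 := by
        unfold Ep
        rw [← Finset.sum_sub_distrib]
        refine Finset.sum_congr rfl fun x _ => ?_
        rw [← mul_sub]
      rw [h4, h2, h3]
    have hmon : ∀ (x y : V → Bool), x ≤ y → ∀ v, x v = true → y v = true := by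
      intro x y hxy v hv
      have := hxy v
      rw [hv] at this
      exact top_le_iff.1 this
    have hF : (fun x : V → Bool => 1 - PhE (insert e E) x) =
        fun x => (1 - PhE E x) * g x := by
      funext x
      simp only [g]
      unfold PhE
      by_cases ha : x e.1 = true ∧ x e.2 = true
      · rw [if_pos ⟨e, Finset.mem_insert_self e E, ha⟩, if_pos ha]
        ring
      · rw [if_neg ha, sub_zero, mul_one]
        congr 1
        by_cases hb : ∃ e ∈ E, x e.1 = true ∧ x e.2 = true
        · obtain ⟨e', he', h'⟩ := hb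
          rw [if_pos ⟨e', Finset.mem_insert_of_mem he', h'⟩, if_pos ⟨e', he', h'⟩]
        · rw [if_neg hb, if_neg]
          rintro ⟨e', he', h'⟩
          rcases Finset.mem_insert.1 he' with rfl | he'
          · exact ha h'
          · exact hb ⟨e', he', h'⟩
    rw [hF]
    have hPhi : ∀ x : V → Bool, 0 ≤ 1 - PhE E x := by
      intro x
      unfold PhE
      split_ifs <;> norm_num
    have hg0 : ∀ x, 0 ≤ g x := by
      intro x
      simp only [g]
      split_ifs <;> norm_num
    have hanti : Antitone (fun x : V → Bool => 1 - PhE E x) := by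
      intro x y hxy
      show 1 - PhE E y ≤ 1 - PhE E x
      unfold PhE
      by_cases hb : ∃ e ∈ E, x e.1 = true ∧ x e.2 = true
      · obtain ⟨e', he', h'⟩ := hb
        rw [if_pos (show ∃ e ∈ E, x e.1 = true ∧ x e.2 = true from ⟨e', he', h'⟩),
          if_pos (show ∃ e ∈ E, y e.1 = true ∧ y e.2 = true from
            ⟨e', he', hmon x y hxy _ h'.1, hmon x y hxy _ h'.2⟩)]
      · rw [if_neg hb]
        split_ifs <;> norm_num
    have hanti2 : Antitone g := by
      intro x y hxy
      simp only [g]
      by_cases hb : x e.1 = true ∧ x e.2 = true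
      · rw [if_pos hb, if_pos ⟨hmon x y hxy _ hb.1, hmon x y hxy _ hb.2⟩]
      · rw [if_neg hb]
        split_ifs <;> norm_num
    refine le_trans ?_ (Har_fkg p h0 h1 _ _ hPhi hg0 hanti hanti2)
    rw [hg]
    exact mul_le_mul_of_nonneg_right ih hp2

end DSU
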