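import Pool.Agent.DSU.St

/-!
# Read-once functions have d-DNNFs of linear size (MP_4ed1f9_lc, module Lic, helper2)
-/

set_option autoImplicit false

namespace DSU

open Finset
open DSD (DepOn bv ind Mean ReadOnce Ep Phi Sg Par)

section

variable {V : Type} [DecidableEq V]

private theorem Lic_mono {k : ℕ} {L L' : List (Gate V)} (h : ∀ g ∈ L, g ∈ L') {g : Gate V}
    (hg : Ok k L g) : Ok k L' g := by
  rcases hg with hg | ⟨a, ha, b, hb, hg⟩ | ⟨a, ha, b, hb, hg⟩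
  · exact Or.inl hg
  · exact Or.inr (Or.inl ⟨a, h a ha, b, h b hb, hg⟩)
  · exact Or.inr (Or.inr ⟨a, h a ha, b, h b hb, hg⟩)

private theorem Lic_append {k : ℕ} {L L' : List (Gate V)} (h : Circ k L) (h' : Circ k L') :
    Circ k (L ++ L') := by
  induction h with
  | nil => exact h'
  | cons h1 h2 ih =>
    exact Circ.cons ih (Lic_mono (fun g hg => List.mem_append_left _ hg) h2)

private theorem Lic_dmono {L L' : List (Gate V)} (h : ∀ g ∈ L, g ∈ L') {g : Gate V}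
    (hg : DetOk L g) : DetOk L' g := by
  rcases hg with ⟨h0, hg | ⟨a, ha, b, hb, hg⟩ | ⟨a, ha, b, hb, hg⟩⟩
  · exact ⟨h0, Or.inl hg⟩
  · exact ⟨h0, Or.inr (Or.inl ⟨a, h a ha, b, h b hb, hg⟩)⟩
  · exact ⟨h0, Or.inr (Or.inr ⟨a, h a ha, b, h b hb, hg⟩)⟩

private theorem Lic_dappend {L L' : List (Gate V)} (h : DetCirc L) (h' : DetCirc L') :
    DetCirc (L ++ L') := by
  induction h with
  | nil => exact h'
  | cons h1 h2 ih =>
    exact DetCirc.cons ih (Lic_dmono (fun g hg => List.mem_append_left _ hg) h2)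

/-- a circuit with at most `n` gates for `F` and its negation -/
private def Lic_Core (S : Finset V) (n : ℕ) (F : (V → Bool) → Bool) : Prop :=
  ∃ L : List (Gate V), (Circ 1 L ∧ DetCirc L) ∧ L.length ≤ n ∧
    (∀ g ∈ L, g.vars ⊆ S ∧ ∀ x, g.a x = g.f x ∧ (g.f x = 0 ∨ g.f x = 1)) ∧
    (∃ g ∈ L, ∀ x, g.f x = bv (F x)) ∧ ∃ g ∈ L, ∀ x, g.f x = 1 - bv (F x)

private theorem Lic_bv (b : Bool) : bv b = 0 ∨ bv b = 1 := by cases b <;> simp [bv]

private theorem Lic_bn (b : Bool) : bv (!b) = 1 - bv b := by cases b <;> simp [bv]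

private theorem Lic_not {S : Finset V} {n : ℕ} {F : (V → Bool) → Bool} (h : Lic_Core S n F) :
    Lic_Core S n (fun x => !F x) := by
  obtain ⟨L, h1, h2, h3, ⟨p, hp, hpf⟩, ⟨p', hp', hpf'⟩⟩ := h
  refine ⟨L, h1, h2, h3, ⟨p', hp', fun x => ?_⟩, ⟨p, hp, fun x => ?_⟩⟩
  · rw [hpf', Lic_bn]
  · rw [hpf, Lic_bn, sub_sub_cancel]

private theorem Lic_leaves (S : Finset V) (T : Finset V) (hT : T ⊆ S) (hc : T.card ≤ 1)
    (F : (V → Bool) → Bool) (hF : DepOn F T) : Lic_Core S 2 F := by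
  let g1 : Gate V := ⟨T, fun x => bv (F x), fun x => bv (F x)⟩
  let g2 : Gate V := ⟨T, fun x => 1 - bv (F x), fun x => 1 - bv (F x)⟩
  have e1 : ∀ L : List (Gate V), Ok 1 L g1 := fun L => Or.inl ⟨hc, fun x y h => by
    show bv (F x) = bv (F y)
    rw [hF x y h], fun x => by
    show bv (F x) = |bv (F x)|
    rcases Lic_bv (F x) with h | h <;> simp [h]⟩
  have e2 : ∀ L : List (Gate V), Ok 1 L g2 := fun L => Or.inl ⟨hc, fun x y h => by
    show 1 - bv (F x) = 1 - bv (F y)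
    rw [hF x y h], fun x => by
    show 1 - bv (F x) = |1 - bv (F x)|
    rcases Lic_bv (F x) with h | h <;> simp [h]⟩
  have v1 : ∀ x, g1.a x = g1.f x ∧ (g1.f x = 0 ∨ g1.f x = 1) := fun x => ⟨rfl, Lic_bv (F x)⟩
  have v2 : ∀ x, g2.a x = g2.f x ∧ (g2.f x = 0 ∨ g2.f x = 1) := fun x => ⟨rfl, by
    show 1 - bv (F x) = 0 ∨ 1 - bv (F x) = 1
    rcases Lic_bv (F x) with h | h <;> simp [h]⟩
  have d1 : ∀ L : List (Gate V), DetOk L g1 := fun L => ⟨v1, Or.inl ⟨hc, fun x y h => by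
    show bv (F x) = bv (F y)
    rw [hF x y h]⟩⟩
  have d2 : ∀ L : List (Gate V), DetOk L g2 := fun L => ⟨v2, Or.inl ⟨hc, fun x y h => by
    show 1 - bv (F x) = 1 - bv (F y)
    rw [hF x y h]⟩⟩
  refine ⟨[g1, g2], ⟨Circ.cons (Circ.cons Circ.nil (e2 _)) (e1 _),
    DetCirc.cons (DetCirc.cons DetCirc.nil (d2 _)) (d1 _)⟩, by simp, ?_,
    ⟨g1, by simp, fun x => rfl⟩, ⟨g2, by simp, fun x => rfl⟩⟩
  intro g hg
  rcases List.mem_cons.1 hg with rfl | hg
  · exact ⟨hT, fun x => ⟨rfl, Lic_bv (F x)⟩⟩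
  · rcases List.mem_cons.1 hg with rfl | hg
    · refine ⟨hT, fun x => ⟨rfl, ?_⟩⟩
      show 1 - bv (F x) = 0 ∨ 1 - bv (F x) = 1
      rcases Lic_bv (F x) with h | h <;> simp [h]
    · exact absurd hg List.not_mem_nil

private theorem Lic_and {S T : Finset V} {n m : ℕ} {F G : (V → Bool) → Bool}
    (hST : Disjoint S T) (h : Lic_Core S n F) (h' : Lic_Core T m G) :
    Lic_Core (S ∪ T) (n + m + 3) (fun x => F x && G x) := by
  obtain ⟨L, h1, h2, h3, ⟨p, hp, hpf⟩, ⟨p', hp', hpf'⟩⟩ := h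
  obtain ⟨M, k1, k2, k3, ⟨q, hq, hqf⟩, ⟨q', hq', hqf'⟩⟩ := h'
  let g1 : Gate V := ⟨p.vars ∪ q.vars, fun x => p.f x * q.f x, fun x => p.a x * q.a x⟩
  let g2 : Gate V := ⟨p.vars ∪ q'.vars, fun x => p.f x * q'.f x, fun x => p.a x * q'.a x⟩
  let g3 : Gate V := ⟨p'.vars ∪ g2.vars, fun x => 1 * p'.f x + 1 * g2.f x,
    fun x => |1| * p'.a x + |1| * g2.a x⟩
  have hpl : ∀ {r : Gate V}, r ∈ L → r ∈ L ++ M := fun hr => List.mem_append_left _ hr
  have hql : ∀ {r : Gate V}, r ∈ M → r ∈ L ++ M := fun hr => List.mem_append_right _ hr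
  have o1 : Ok 1 (L ++ M) g1 := Or.inr (Or.inr ⟨p, hpl hp, q, hql hq,
    disjoint_of_subset_left (h3 p hp).1 (disjoint_of_subset_right (k3 q hq).1 hST), rfl,
    fun x => ⟨rfl, rfl⟩⟩)
  have o2 : Ok 1 (g1 :: (L ++ M)) g2 := Or.inr (Or.inr ⟨p, List.mem_cons_of_mem _ (hpl hp), q',
    List.mem_cons_of_mem _ (hql hq'),
    disjoint_of_subset_left (h3 p hp).1 (disjoint_of_subset_right (k3 q' hq').1 hST), rfl,
    fun x => ⟨rfl, rfl⟩⟩)
  have o3 : Ok 1 (g2 :: g1 :: (L ++ M)) g3 := Or.inr (Or.inl ⟨p',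
    List.mem_cons_of_mem _ (List.mem_cons_of_mem _ (hpl hp')), g2, List.mem_cons_self, 1, 1, rfl,
    fun x => ⟨rfl, rfl⟩⟩)
  have v1 : ∀ x, g1.a x = g1.f x ∧ (g1.f x = 0 ∨ g1.f x = 1) := fun x => by
    show p.a x * q.a x = p.f x * q.f x ∧ (p.f x * q.f x = 0 ∨ p.f x * q.f x = 1)
    rw [((h3 p hp).2 x).1, ((k3 q hq).2 x).1, hpf, hqf]
    rcases Lic_bv (F x) with h | h <;> rcases Lic_bv (G x) with h' | h' <;> simp [h, h']
  have v2 : ∀ x, g2.a x = g2.f x ∧ (g2.f x = 0 ∨ g2.f x = 1) := fun x => by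
    show p.a x * q'.a x = p.f x * q'.f x ∧ (p.f x * q'.f x = 0 ∨ p.f x * q'.f x = 1)
    rw [((h3 p hp).2 x).1, ((k3 q' hq').2 x).1, hpf, hqf']
    rcases Lic_bv (F x) with h | h <;> rcases Lic_bv (G x) with h' | h' <;> simp [h, h']
  have v3 : ∀ x, g3.a x = g3.f x ∧ (g3.f x = 0 ∨ g3.f x = 1) := fun x => by
    show |1| * p'.a x + |1| * (p.a x * q'.a x) = 1 * p'.f x + 1 * (p.f x * q'.f x) ∧
      (1 * p'.f x + 1 * (p.f x * q'.f x) = 0 ∨ 1 * p'.f x + 1 * (p.f x * q'.f x) = 1)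
    rw [((h3 p' hp').2 x).1, ((h3 p hp).2 x).1, ((k3 q' hq').2 x).1, hpf, hpf', hqf']
    rcases Lic_bv (F x) with h | h <;> rcases Lic_bv (G x) with h' | h' <;> simp [h, h']
  have d1 : DetOk (L ++ M) g1 := ⟨v1, Or.inr (Or.inr ⟨p, hpl hp, q, hql hq,
    disjoint_of_subset_left (h3 p hp).1 (disjoint_of_subset_right (k3 q hq).1 hST), rfl,
    fun x => rfl⟩)⟩
  have d2 : DetOk (g1 :: (L ++ M)) g2 := ⟨v2, Or.inr (Or.inr ⟨p, List.mem_cons_of_mem _ (hpl hp),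
    q', List.mem_cons_of_mem _ (hql hq'),
    disjoint_of_subset_left (h3 p hp).1 (disjoint_of_subset_right (k3 q' hq').1 hST), rfl,
    fun x => rfl⟩)⟩
  have d3 : DetOk (g2 :: g1 :: (L ++ M)) g3 := ⟨v3, Or.inr (Or.inl ⟨p',
    List.mem_cons_of_mem _ (List.mem_cons_of_mem _ (hpl hp')), g2, List.mem_cons_self, rfl,
    fun x => by
      show 1 * p'.f x + 1 * g2.f x = p'.f x + g2.f x
      rw [one_mul, one_mul]⟩)⟩
  have s1 : p.vars ⊆ S ∪ T := (h3 p hp).1.trans subset_union_left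
  have s1' : p'.vars ⊆ S ∪ T := (h3 p' hp').1.trans subset_union_left
  have s2 : q.vars ⊆ S ∪ T := (k3 q hq).1.trans subset_union_right
  have s2' : q'.vars ⊆ S ∪ T := (k3 q' hq').1.trans subset_union_right
  refine ⟨g3 :: g2 :: g1 :: (L ++ M),
    ⟨Circ.cons (Circ.cons (Circ.cons (Lic_append h1.1 k1.1) o1) o2) o3,
      DetCirc.cons (DetCirc.cons (DetCirc.cons (Lic_dappend h1.2 k1.2) d1) d2) d3⟩, ?_, ?_,
    ⟨g1, by simp, fun x => ?_⟩, ⟨g3, by simp, fun x => ?_⟩⟩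
  · simp only [List.length_cons, List.length_append]
    omega
  · intro g hg
    rcases List.mem_cons.1 hg with rfl | hg
    · refine ⟨union_subset s1' (union_subset s1 s2'), fun x => ?_⟩
      show |1| * p'.a x + |1| * (p.a x * q'.a x) = 1 * p'.f x + 1 * (p.f x * q'.f x) ∧
        (1 * p'.f x + 1 * (p.f x * q'.f x) = 0 ∨ 1 * p'.f x + 1 * (p.f x * q'.f x) = 1)
      rw [((h3 p' hp').2 x).1, ((h3 p hp).2 x).1, ((k3 q' hq').2 x).1, hpf, hpf', hqf']
      rcases Lic_bv (F x) with h | h <;> rcases Lic_bv (G x) with h' | h' <;> simp [h, h']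
    · rcases List.mem_cons.1 hg with rfl | hg
      · refine ⟨union_subset s1 s2', fun x => ?_⟩
        show p.a x * q'.a x = p.f x * q'.f x ∧ (p.f x * q'.f x = 0 ∨ p.f x * q'.f x = 1)
        rw [((h3 p hp).2 x).1, ((k3 q' hq').2 x).1, hpf, hqf']
        rcases Lic_bv (F x) with h | h <;> rcases Lic_bv (G x) with h' | h' <;> simp [h, h']
      · rcases List.mem_cons.1 hg with rfl | hg
        · refine ⟨union_subset s1 s2, fun x => ?_⟩
          show p.a x * q.a x = p.f x * q.f x ∧ (p.f x * q.f x = 0 ∨ p.f x * q.f x = 1)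
          rw [((h3 p hp).2 x).1, ((k3 q hq).2 x).1, hpf, hqf]
          rcases Lic_bv (F x) with h | h <;> rcases Lic_bv (G x) with h' | h' <;> simp [h, h']
        · rcases List.mem_append.1 hg with hg | hg
          · exact ⟨(h3 g hg).1.trans subset_union_left, (h3 g hg).2⟩
          · exact ⟨(k3 g hg).1.trans subset_union_right, (k3 g hg).2⟩
  · show p.f x * q.f x = bv (F x && G x)
    rw [hpf, hqf]
    cases F x <;> cases G x <;> simp [bv]
  · show 1 * p'.f x + 1 * (p.f x * q'.f x) = 1 - bv (F x && G x)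
    rw [hpf, hpf', hqf']
    cases F x <;> cases G x <;> simp [bv]

/-- the induction statement -/
private def Lic_Q (S : Finset V) (F : (V → Bool) → Bool) : Prop :=
  (∃ n, Lic_Core S n F ∧ n ≤ 8 * S.card + 2 ∧ (S.Nonempty → n + 3 ≤ 8 * S.card)) ∧
    (S = ∅ → ∃ b, F = fun _ => b)

private theorem Lic_Qc (S : Finset V) (b : Bool) : Lic_Q S (fun _ => b) := by
  refine ⟨⟨2, Lic_leaves S ∅ (empty_subset _) (by simp) _ (fun _ _ _ => rfl), by omega,
    fun h => ?_⟩, fun _ => ⟨b, rfl⟩⟩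
  have := Finset.card_pos.2 h
  omega

private theorem Lic_Qnot {S : Finset V} {F : (V → Bool) → Bool} (h : Lic_Q S F) :
    Lic_Q S (fun x => !F x) := by
  obtain ⟨⟨n, h1, h2⟩, h3⟩ := h
  refine ⟨⟨n, Lic_not h1, h2⟩, fun h => ?_⟩
  obtain ⟨b, rfl⟩ := h3 h
  exact ⟨!b, rfl⟩

private theorem Lic_Qand {S T : Finset V} {F G : (V → Bool) → Bool} (hST : Disjoint S T)
    (h : Lic_Q S F) (h' : Lic_Q T G) : Lic_Q (S ∪ T) (fun x => F x && G x) := by
  rcases S.eq_empty_or_nonempty with rfl | hS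
  · obtain ⟨b, rfl⟩ := h.2 rfl
    cases b
    · simp only [Bool.false_and]
      exact Lic_Qc _ _
    · simp only [Bool.true_and, empty_union]
      exact h'
  rcases T.eq_empty_or_nonempty with rfl | hT
  · obtain ⟨b, rfl⟩ := h'.2 rfl
    cases b
    · simp only [Bool.and_false]
      exact Lic_Qc _ _
    · simp only [Bool.and_true, union_empty]
      exact h
  obtain ⟨⟨n, h1, -, h2⟩, -⟩ := h
  obtain ⟨⟨m, k1, -, k2⟩, -⟩ := h'
  have e1 := h2 hS
  have e2 := k2 hT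
  have e3 : (S ∪ T).card = S.card + T.card := card_union_of_disjoint hST
  refine ⟨⟨n + m + 3, Lic_and hST h1 k1, by omega, fun _ => by omega⟩, fun h => ?_⟩
  exact absurd (union_eq_empty.1 h).1 hS.ne_empty

private theorem Lic_Qmain {S : Finset V} {F : (V → Bool) → Bool} (h : ReadOnce S F) :
    Lic_Q S F := by
  induction h with
  | const b => exact Lic_Qc _ b
  | var v =>
    refine ⟨⟨2, Lic_leaves {v} {v} (Subset.refl _) (by simp) _
      (fun x y h => h v (mem_singleton_self v)), by omega, fun _ => by simp⟩, fun h => ?_⟩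
    exact absurd h (singleton_ne_empty v)
  | and hST _ _ ih1 ih2 => exact Lic_Qand hST ih1 ih2
  | @or S T F G hST _ _ ih1 ih2 =>
    have h1 := Lic_Qnot (Lic_Qand hST (Lic_Qnot ih1) (Lic_Qnot ih2))
    have h2 : (fun x => !(!F x && !G x)) = fun x => F x || G x := by
      funext x
      cases F x <;> cases G x <;> rfl
    rw [h2] at h1
    exact h1

end

theorem thm_Lic : St_Lic := by
  intro V _ S f h
  obtain ⟨⟨n, ⟨L, h1, h2, h3, h4, h5⟩, h6, -⟩, -⟩ := Lic_Qmain h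
  exact ⟨L, h1.1, h1.2, h2.trans h6, h4, h5⟩

end DSU
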