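import Pool.Agent.DSU.St

/-!
# DSU, module Nrm: normalisation of the terms
-/

set_option autoImplicit false

namespace DSU

open Finset
open DSD (DepOn Ep)

private theorem Nrm_sum {V : Type} [Fintype V] [DecidableEq V] (π : V → ℝ) {T : ℕ}
    (F : Fin T → (V → Bool) → ℝ) : (Ep π fun x => ∑ t, F t x) = ∑ t, Ep π (F t) := by
  unfold Ep
  rw [Finset.sum_comm]
  refine Finset.sum_congr rfl fun x _ => ?_
  rw [Finset.mul_sum]

private theorem Nrm_smul {V : Type} [Fintype V] [DecidableEq V] (π : V → ℝ) (c : ℝ)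
    (F : (V → Bool) → ℝ) : (Ep π fun x => c * F x) = c * Ep π F := by
  unfold Ep
  rw [Finset.mul_sum]
  exact Finset.sum_congr rfl fun x _ => by ring

/-- one product of functions with disjoint scopes, with bounds whose product is at most `B` -/
private theorem Nrm_term {V : Type} [Fintype V] [DecidableEq V] (π : V → ℝ) (m r : ℕ)
    (A : Fin r → Finset V) (g b : Fin r → (V → Bool) → ℝ)
    (hA : ∀ i, (A i).card ≤ m ∧ DepOn (g i) (A i) ∧ DepOn (b i) (A i) ∧ ∀ x, |g i x| ≤ b i x)
    (hd : ∀ i j, i ≠ j → Disjoint (A i) (A j)) (B : ℝ) (h1 : ∀ x, ∏ i, b i x ≤ B)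
    (σ : (V → Bool) → ℝ) (M : ℝ) (hM : 0 ≤ M) (hB : 0 ≤ B)
    (H : ∀ (A : Fin r → Finset V) (h : Fin r → (V → Bool) → ℝ),
      (∀ i, (A i).card ≤ m ∧ DepOn (h i) (A i) ∧ ∀ x, |h i x| ≤ 1) →
      (∀ i j, i ≠ j → Disjoint (A i) (A j)) → |Ep π fun x => σ x * ∏ i, h i x| ≤ M) :
    |Ep π fun x => σ x * ∏ i, g i x| ≤ B * M := by
  classical
  have hb0 : ∀ i x, 0 ≤ b i x := fun i x => (abs_nonneg _).trans ((hA i).2.2.2 x)
  have hmax : ∀ i, ∃ y, ∀ x, b i x ≤ b i y := fun i => Finite.exists_max (b i)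
  choose y hy using hmax
  by_cases h0 : ∃ i, b i (y i) = 0
  · obtain ⟨i, hi⟩ := h0
    have h2 : ∀ x, ∏ i, g i x = 0 := by
      intro x
      refine Finset.prod_eq_zero (Finset.mem_univ i) ?_
      have h5 : |g i x| ≤ 0 := ((hA i).2.2.2 x).trans (hi ▸ hy i x)
      exact abs_nonpos_iff.1 h5
    have h3 : (Ep π fun x => σ x * ∏ i, g i x) = 0 := by
      unfold Ep
      refine Finset.sum_eq_zero fun x _ => ?_
      beta_reduce
      rw [h2 x, mul_zero, mul_zero]
    rw [h3, abs_zero]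
    exact mul_nonneg hB hM
  · have hpos : ∀ i, 0 < b i (y i) := fun i =>
      lt_of_le_of_ne (hb0 i (y i)) fun h => h0 ⟨i, h.symm⟩
    set c : ℝ := ∏ i, b i (y i) with hc
    have hc0 : 0 ≤ c := Finset.prod_nonneg fun i _ => (hpos i).le
    -- the maximum is attained at one point
    have hc1 : c ≤ B := by
      let x : V → Bool := fun v => if h : ∃ i, v ∈ A i then y h.choose v else false
      have hx : ∀ i, ∀ v ∈ A i, x v = y i v := by
        intro i v hv
        have hex : ∃ i, v ∈ A i := ⟨i, hv⟩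
        have h4 : x v = y hex.choose v := dif_pos hex
        have h5 : hex.choose = i := by
          by_contra h6
          exact Finset.disjoint_left.1 (hd _ _ h6) hex.choose_spec hv
        rw [h4, h5]
      have h7 : ∀ i, b i x = b i (y i) := fun i => (hA i).2.2.1 x (y i) (hx i)
      have h8 := h1 x
      rw [Finset.prod_congr rfl fun i _ => h7 i] at h8
      exact h8
    have h2 := H A (fun i x => g i x / b i (y i)) (fun i => ⟨(hA i).1, fun x x' hxx' => by
        show g i x / b i (y i) = g i x' / b i (y i)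
        rw [(hA i).2.1 x x' hxx'], fun x => by
          show |g i x / b i (y i)| ≤ 1
          rw [abs_div, abs_of_pos (hpos i), div_le_one (hpos i)]
          exact ((hA i).2.2.2 x).trans (hy i x)⟩) hd
    have h3 : (Ep π fun x => σ x * ∏ i, g i x) =
        c * Ep π fun x => σ x * ∏ i, g i x / b i (y i) := by
      rw [← Nrm_smul]
      congr 1
      funext x
      rw [Finset.prod_div_distrib, ← hc]
      have hc' : c ≠ 0 := (Finset.prod_pos fun i _ => hpos i).ne'
      field_simp
    rw [h3, abs_mul, abs_of_nonneg hc0]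
    exact mul_le_mul hc1 h2 (abs_nonneg _) hB

/-- [Nrm] -/
theorem thm_Nrm : St_Nrm := by
  intro V _ _ π S m r T f a B hf h1 hB σ M hM H
  obtain ⟨A, g, b, hA, hd, hfg⟩ := hf
  have hb0 : ∀ t i x, 0 ≤ b t i x := fun t i x => (abs_nonneg _).trans ((hA t i).2.2.2.2 x)
  have hnn : ∀ t x, 0 ≤ ∏ i, b t i x := fun t x =>
    Finset.prod_nonneg fun i _ => hb0 t i x
  have h2 : (Ep π fun x => σ x * f x) = ∑ t, Ep π fun x => σ x * ∏ i, g t i x := by
    rw [← Nrm_sum]
    congr 1
    funext x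
    rw [(hfg x).1, Finset.mul_sum]
  have h3 : ∀ t : Fin T, |Ep π fun x => σ x * ∏ i, g t i x| ≤ B * M := by
    intro t
    refine Nrm_term π m r (A t) (g t) (b t) (fun i => (hA t i).2) (hd t) B (fun x => ?_)
      σ M hM hB H
    refine le_trans ?_ (h1 x)
    rw [(hfg x).2]
    exact Finset.single_le_sum (f := fun t => ∏ i, b t i x) (fun t _ => hnn t x)
      (Finset.mem_univ t)
  rw [h2]
  calc |∑ t, Ep π fun x => σ x * ∏ i, g t i x| ≤ ∑ t, |Ep π fun x => σ x * ∏ i, g t i x| :=
        Finset.abs_sum_le_sum_abs _ _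
    _ ≤ ∑ _t : Fin T, B * M := Finset.sum_le_sum fun t _ => h3 t
    _ = T * B * M := by
      rw [Finset.sum_const, Finset.card_univ, Fintype.card_fin, nsmul_eq_mul]
      ring

end DSU
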