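import Pool.Agent.DSU.St

/-!
# [One] One step of the decomposition of a decomposable circuit, with subtraction (helper41)
-/

set_option autoImplicit false
set_option linter.unusedSectionVars false

namespace DSU

open Finset
open DSD (DepOn)

section One

variable {V : Type} [DecidableEq V]

/-- the leaf `0` -/
private def One_z : Gate V := ⟨∅, fun _ => 0, fun _ => 0⟩

/-- the leaf `α` -/
private def One_o (α : ℝ) : Gate V := ⟨∅, fun _ => α, fun _ => |α|⟩

/-- the linear combination of two gates -/
private def One_lin (α β : ℝ) (a b : Gate V) : Gate V :=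
  ⟨a.vars ∪ b.vars, fun x => α * a.f x + β * b.f x, fun x => |α| * a.a x + |β| * b.a x⟩

/-- the product of two gates -/
private def One_mul (a b : Gate V) : Gate V :=
  ⟨a.vars ∪ b.vars, fun x => a.f x * b.f x, fun x => a.a x * b.a x⟩

/-- a term: a small gate `u`, the contexts `c h` of the large gates `h` in the circuit `l` -/
private structure One_T (V : Type) where
  u : Gate V
  D : Finset V
  c : Gate V → Gate V
  l : List (Gate V)

/-- the two components -/
private def One_P (φ : Gate V → (V → Bool) → ℝ) : Prop := φ = Gate.f ∨ φ = Gate.a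

private theorem One_P_z {φ : Gate V → (V → Bool) → ℝ} (h : One_P φ) (x : V → Bool) :
    φ One_z x = 0 := by
  rcases h with rfl | rfl <;> rfl

private theorem One_P_mul {φ : Gate V → (V → Bool) → ℝ} (h : One_P φ) (p q : Gate V)
    (x : V → Bool) : φ (One_mul p q) x = φ p x * φ q x := by
  rcases h with rfl | rfl <;> rfl

private theorem One_P_lin {φ : Gate V → (V → Bool) → ℝ} (h : One_P φ) (α β : ℝ) (p q : Gate V)
    (x : V → Bool) :
    φ (One_lin α β p q) x = φ (One_o α) x * φ p x + φ (One_o β) x * φ q x := by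
  rcases h with rfl | rfl <;> rfl

private theorem One_ok_mono {k : ℕ} {L L' : List (Gate V)} {g : Gate V} (h : ∀ a ∈ L, a ∈ L')
    (hg : Ok k L g) : Ok k L' g := by
  rcases hg with h1 | ⟨a, ha, b, hb, h1⟩ | ⟨a, ha, b, hb, h1⟩
  · exact Or.inl h1
  · exact Or.inr (Or.inl ⟨a, h a ha, b, h b hb, h1⟩)
  · exact Or.inr (Or.inr ⟨a, h a ha, b, h b hb, h1⟩)

private theorem One_ok_o (k : ℕ) (L : List (Gate V)) (α : ℝ) : Ok k L (One_o α : Gate V) :=
  Or.inl ⟨Nat.zero_le _, fun _ _ _ => rfl, fun _ => rfl⟩

private theorem One_ok_z (k : ℕ) (L : List (Gate V)) : Ok k L (One_z : Gate V) :=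
  Or.inl ⟨Nat.zero_le _, fun _ _ _ => rfl, fun _ => abs_zero.symm⟩

private theorem One_dep {k : ℕ} {L : List (Gate V)} (hL : Circ k L) :
    ∀ g ∈ L, DepOn g.f g.vars ∧ DepOn g.a g.vars ∧ ∀ x, |g.f x| ≤ g.a x := by
  induction hL with
  | nil => intro g hg; exact absurd hg (by simp)
  | @cons L h hL hok ih =>
    intro g hg
    rcases List.mem_cons.1 hg with rfl | hg
    swap
    · exact ih g hg
    rcases hok with ⟨-, h1, h2⟩ | ⟨a, ha, b, hb, α, β, hv, hf⟩ | ⟨a, ha, b, hb, -, hv, hf⟩
    · refine ⟨h1, fun x y hxy => ?_, fun x => (h2 x).ge⟩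
      rw [h2, h2, h1 x y hxy]
    · refine ⟨fun x y hxy => ?_, fun x y hxy => ?_, fun x => ?_⟩
      · rw [(hf x).1, (hf y).1,
          (ih a ha).1 x y (fun v hv' => hxy v (by rw [hv]; exact mem_union_left _ hv')),
          (ih b hb).1 x y (fun v hv' => hxy v (by rw [hv]; exact mem_union_right _ hv'))]
      · rw [(hf x).2, (hf y).2,
          (ih a ha).2.1 x y (fun v hv' => hxy v (by rw [hv]; exact mem_union_left _ hv')),
          (ih b hb).2.1 x y (fun v hv' => hxy v (by rw [hv]; exact mem_union_right _ hv'))]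
      · rw [(hf x).1, (hf x).2]
        refine (abs_add_le _ _).trans ?_
        rw [abs_mul, abs_mul]
        exact add_le_add (mul_le_mul_of_nonneg_left ((ih a ha).2.2 x) (abs_nonneg _))
          (mul_le_mul_of_nonneg_left ((ih b hb).2.2 x) (abs_nonneg _))
    · refine ⟨fun x y hxy => ?_, fun x y hxy => ?_, fun x => ?_⟩
      · rw [(hf x).1, (hf y).1,
          (ih a ha).1 x y (fun v hv' => hxy v (by rw [hv]; exact mem_union_left _ hv')),
          (ih b hb).1 x y (fun v hv' => hxy v (by rw [hv]; exact mem_union_right _ hv'))]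
      · rw [(hf x).2, (hf y).2,
          (ih a ha).2.1 x y (fun v hv' => hxy v (by rw [hv]; exact mem_union_left _ hv')),
          (ih b hb).2.1 x y (fun v hv' => hxy v (by rw [hv]; exact mem_union_right _ hv'))]
      · rw [(hf x).1, (hf x).2, abs_mul]
        exact mul_le_mul ((ih a ha).2.2 x) ((ih b hb).2.2 x) (abs_nonneg _)
          ((abs_nonneg _).trans ((ih a ha).2.2 x))

/-- the conditions for a term -/
private def One_G (k m : ℕ) (L : List (Gate V)) (t : One_T V) : Prop :=
  (t.u.vars.card ≤ m ∧ (DepOn t.u.f t.u.vars ∧ DepOn t.u.a t.u.vars ∧ ∀ x, |t.u.f x| ≤ t.u.a x) ∧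
    t.u.vars ⊆ t.D ∧ m ≤ 2 * t.D.card) ∧
  (Circ k t.l ∧ t.l.length ≤ 2 * L.length + 2 ∧ (∀ a ∈ L, a ∈ t.l) ∧ One_z ∈ t.l) ∧
  ∀ h ∈ L, m < h.vars.card → t.c h ∈ t.l ∧
    (t.c h = One_z ∨ (t.D ⊆ h.vars ∧ (t.c h).vars ⊆ h.vars \ t.D))

open Classical in
/-- the term with the context `q` for the new gate `h` -/
private noncomputable def One_up (h q : Gate V) (t : One_T V) : One_T V :=
  ⟨t.u, t.D, fun a => if a = h then q else t.c a, if q = One_z then h :: t.l else q :: h :: t.l⟩

private theorem One_up_self (h q : Gate V) (t : One_T V) : (One_up h q t).c h = q := if_pos rfl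

private theorem One_up_ne {a h : Gate V} (hne : a ≠ h) (q : Gate V) (t : One_T V) :
    (One_up h q t).c a = t.c a := if_neg hne

private theorem One_up_good {k m : ℕ} {L : List (Gate V)} {h q : Gate V} {t : One_T V}
    (hh : h ∉ L) (hok : Ok k L h) (ht : One_G k m L t)
    (hq : q = One_z ∨ (Ok k t.l q ∧ t.D ⊆ h.vars ∧ q.vars ⊆ h.vars \ t.D)) :
    One_G k m (h :: L) (One_up h q t) := by
  classical
  obtain ⟨h1, ⟨h2, h3, h4, h5⟩, h6⟩ := ht
  have hc : Circ k (h :: t.l) := Circ.cons h2 (One_ok_mono h4 hok)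
  have hold : ∀ a ∈ L, (One_up h q t).c a = t.c a := by
    intro a ha
    have hne : a ≠ h := fun e => hh (e ▸ ha)
    exact One_up_ne hne _ _
  have hnew : (One_up h q t).c h = q := One_up_self _ _ _
  have hlen : (h :: L).length = L.length + 1 := rfl
  by_cases hz : q = One_z
  · have hl : (One_up h q t).l = h :: t.l := if_pos hz
    refine ⟨h1, ⟨by rw [hl]; exact hc, ?_, ?_, ?_⟩, ?_⟩
    · rw [hl, hlen, List.length_cons]
      omega
    · intro a ha
      rw [hl]
      rcases List.mem_cons.1 ha with rfl | ha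
      · exact List.mem_cons_self
      · exact List.mem_cons_of_mem _ (h4 a ha)
    · rw [hl]
      exact List.mem_cons_of_mem _ h5
    · intro a ha hm
      rw [hl]
      rcases List.mem_cons.1 ha with rfl | ha
      · rw [hnew]
        exact ⟨hz ▸ List.mem_cons_of_mem _ h5, Or.inl hz⟩
      · rw [hold a ha]
        exact ⟨List.mem_cons_of_mem _ (h6 a ha hm).1, (h6 a ha hm).2⟩
  · have hl : (One_up h q t).l = q :: h :: t.l := if_neg hz
    obtain ⟨hq1, hq2, hq3⟩ := hq.resolve_left hz
    refine ⟨h1, ⟨?_, ?_, ?_, ?_⟩, ?_⟩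
    · rw [hl]
      exact Circ.cons hc (One_ok_mono (fun a ha => List.mem_cons_of_mem _ ha) hq1)
    · rw [hl, hlen, List.length_cons, List.length_cons]
      omega
    · intro a ha
      rw [hl]
      rcases List.mem_cons.1 ha with rfl | ha
      · exact List.mem_cons_of_mem _ List.mem_cons_self
      · exact List.mem_cons_of_mem _ (List.mem_cons_of_mem _ (h4 a ha))
    · rw [hl]
      exact List.mem_cons_of_mem _ (List.mem_cons_of_mem _ h5)
    · intro a ha hm
      rw [hl]
      rcases List.mem_cons.1 ha with rfl | ha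
      · rw [hnew]
        exact ⟨List.mem_cons_self, Or.inr ⟨hq2, hq3⟩⟩
      · rw [hold a ha]
        exact ⟨List.mem_cons_of_mem _ (List.mem_cons_of_mem _ (h6 a ha hm).1), (h6 a ha hm).2⟩

open Classical in
/-- the new term with the small gate `u` and the context `q` of the gate `h` -/
private noncomputable def One_nw (L : List (Gate V)) (h o u q : Gate V) (D : Finset V) : One_T V :=
  ⟨u, D, fun a => if a = h then q else One_z, o :: One_z :: h :: L⟩

private theorem One_nw_good {k m : ℕ} {L : List (Gate V)} {h o u q : Gate V} {D : Finset V}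
    (hL : Circ k L) (hh : h ∉ L) (hok : Ok k L h) (ho : ∀ L', Ok k L' o)
    (h1 : u.vars.card ≤ m ∧ (DepOn u.f u.vars ∧ DepOn u.a u.vars ∧ ∀ x, |u.f x| ≤ u.a x) ∧
      u.vars ⊆ D ∧ m ≤ 2 * D.card)
    (hq : q = o ∨ q ∈ L) (hD : D ⊆ h.vars) (hqD : q.vars ⊆ h.vars \ D) :
    One_G k m (h :: L) (One_nw L h o u q D) := by
  classical
  have hl : (One_nw L h o u q D).l = o :: One_z :: h :: L := rfl
  refine ⟨h1, ⟨?_, ?_, ?_, ?_⟩, ?_⟩
  · exact Circ.cons (Circ.cons (Circ.cons hL hok) (One_ok_z _ _)) (ho _)
  · show L.length + 1 + 1 + 1 ≤ 2 * (L.length + 1) + 2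
    omega
  · intro a ha
    exact List.mem_cons_of_mem _ (List.mem_cons_of_mem _ ha)
  · exact List.mem_cons_of_mem _ List.mem_cons_self
  · intro a ha hm
    rcases List.mem_cons.1 ha with rfl | ha
    · have e : (One_nw L a o u q D).c a = q := if_pos rfl
      rw [e]
      refine ⟨?_, Or.inr ⟨hD, hqD⟩⟩
      rcases hq with rfl | hq
      · exact List.mem_cons_self
      · exact List.mem_cons_of_mem _ (List.mem_cons_of_mem _ (List.mem_cons_of_mem _ hq))
    · have hne : a ≠ h := fun e => hh (e ▸ ha)
      have e : (One_nw L h o u q D).c a = One_z := if_neg hne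
      rw [e]
      exact ⟨List.mem_cons_of_mem _ List.mem_cons_self, Or.inl rfl⟩

/-- the sum of the terms for the gate `h` -/
private def One_S (φ : Gate V → (V → Bool) → ℝ) (E : List (One_T V)) (h : Gate V)
    (x : V → Bool) : ℝ :=
  (E.map fun t => φ t.u x * φ (t.c h) x).sum

private theorem One_S_append (φ : Gate V → (V → Bool) → ℝ) (E E' : List (One_T V)) (h : Gate V)
    (x : V → Bool) : One_S φ (E ++ E') h x = One_S φ E h x + One_S φ E' h x := by
  unfold One_S
  rw [List.map_append, List.sum_append]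

private theorem One_S_up_old {L : List (Gate V)} {h a : Gate V} (hh : h ∉ L) (ha : a ∈ L)
    (φ : Gate V → (V → Bool) → ℝ) (q : One_T V → Gate V) (E : List (One_T V)) (x : V → Bool) :
    One_S φ (E.map fun t => One_up h (q t) t) a x = One_S φ E a x := by
  unfold One_S
  rw [List.map_map]
  have hne : a ≠ h := fun e => hh (e ▸ ha)
  refine congrArg List.sum (List.map_congr_left fun t _ => ?_)
  show φ t.u x * φ ((One_up h (q t) t).c a) x = _
  rw [One_up_ne hne]

private theorem One_S_up_new {h : Gate V} (φ : Gate V → (V → Bool) → ℝ) (q : One_T V → Gate V)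
    (E : List (One_T V)) (x : V → Bool) : One_S φ (E.map fun t => One_up h (q t) t) h x =
      (E.map fun t => φ t.u x * φ (q t) x).sum := by
  unfold One_S
  rw [List.map_map]
  refine congrArg List.sum (List.map_congr_left fun t _ => ?_)
  show φ t.u x * φ ((One_up h (q t) t).c h) x = _
  rw [One_up_self]

/-- the statement for the list `L` -/
private def One_C (k m : ℕ) (L : List (Gate V)) : Prop :=
  ∃ E : List (One_T V), E.length ≤ 2 * L.length ∧ (∀ t ∈ E, One_G k m L t) ∧
    ∀ h ∈ L, m < h.vars.card → ∀ φ, One_P φ → ∀ x, φ h x = One_S φ E h x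

/-- all contexts of the new gate are `q t`, and there are the new terms `F` -/
private theorem One_step {k m : ℕ} {L : List (Gate V)} {h : Gate V} (hh : h ∉ L)
    (hok : Ok k L h) {E : List (One_T V)} (hE : E.length ≤ 2 * L.length)
    (hG : ∀ t ∈ E, One_G k m L t)
    (hS : ∀ a ∈ L, m < a.vars.card → ∀ φ, One_P φ → ∀ x, φ a x = One_S φ E a x)
    (q : One_T V → Gate V) (hq : ∀ t ∈ E, q t = One_z ∨
      (Ok k t.l (q t) ∧ t.D ⊆ h.vars ∧ (q t).vars ⊆ h.vars \ t.D))
    (F : List (One_T V)) (hF : F.length ≤ 2) (hFG : ∀ t ∈ F, One_G k m (h :: L) t)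
    (hF0 : ∀ a ∈ L, ∀ φ, One_P φ → ∀ x, One_S φ F a x = 0)
    (hf : m < h.vars.card → ∀ φ, One_P φ → ∀ x,
      φ h x = (E.map fun t => φ t.u x * φ (q t) x).sum + One_S φ F h x) :
    One_C k m (h :: L) := by
  refine ⟨(E.map fun t => One_up h (q t) t) ++ F, ?_, ?_, ?_⟩
  · rw [List.length_append, List.length_map, List.length_cons]
    omega
  · intro t ht
    rcases List.mem_append.1 ht with ht | ht
    · obtain ⟨s, hs, rfl⟩ := List.mem_map.1 ht
      exact One_up_good hh hok (hG s hs) (hq s hs)
    · exact hFG t ht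
  · intro a ha hm φ hφ x
    rw [One_S_append]
    rcases List.mem_cons.1 ha with rfl | ha
    · rw [One_S_up_new]
      exact hf hm φ hφ x
    · rw [One_S_up_old hh ha, hF0 a ha φ hφ, add_zero]
      exact hS a ha hm φ hφ x

/-- the contexts of the child `a` of a linear combination -/
private noncomputable def One_ch (m : ℕ) (a : Gate V) (t : One_T V) : Gate V :=
  if m < a.vars.card then t.c a else One_z

/-- the new terms for the child `a` of a linear combination -/
private noncomputable def One_F (m : ℕ) (L : List (Gate V)) (h : Gate V) (α : ℝ) (a : Gate V) :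
    List (One_T V) :=
  if m < a.vars.card then [] else [One_nw L h (One_o α) a (One_o α) h.vars]

private theorem One_nw_self (L : List (Gate V)) (h o u q : Gate V) (D : Finset V) :
    (One_nw L h o u q D).c h = q := if_pos rfl

private theorem One_nw_ne {a h : Gate V} (hne : a ≠ h) (L : List (Gate V)) (o u q : Gate V)
    (D : Finset V) : (One_nw L h o u q D).c a = One_z := if_neg hne

private theorem One_nw_S (φ : Gate V → (V → Bool) → ℝ) (L : List (Gate V)) (h o u q : Gate V)
    (D : Finset V) (x : V → Bool) :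
    One_S φ [One_nw L h o u q D] h x = φ u x * φ q x := by
  unfold One_S
  rw [List.map_cons, List.map_nil, List.sum_cons, List.sum_nil, add_zero, One_nw_self]
  rfl

private theorem One_nw_S0 {φ : Gate V → (V → Bool) → ℝ} (hφ : One_P φ) {a h : Gate V}
    (hne : a ≠ h) (L : List (Gate V)) (o u q : Gate V)
    (D : Finset V) (x : V → Bool) : One_S φ [One_nw L h o u q D] a x = 0 := by
  unfold One_S
  rw [List.map_cons, List.map_nil, List.sum_cons, List.sum_nil, add_zero, One_nw_ne hne,
    One_P_z hφ]
  exact mul_zero _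

private theorem One_ch_mem {k m : ℕ} {L : List (Gate V)} {a : Gate V} {t : One_T V}
    (ht : One_G k m L t) (ha : a ∈ L) : One_ch m a t ∈ t.l ∧
      (One_ch m a t = One_z ∨ (t.D ⊆ a.vars ∧ (One_ch m a t).vars ⊆ a.vars \ t.D)) := by
  obtain ⟨-, ⟨-, -, -, h5⟩, h6⟩ := ht
  unfold One_ch
  by_cases hm : m < a.vars.card
  · rw [if_pos hm]
    exact h6 a ha hm
  · rw [if_neg hm]
    exact ⟨h5, Or.inl rfl⟩

private theorem One_sum_z {φ : Gate V → (V → Bool) → ℝ} (hφ : One_P φ) (E : List (One_T V))
    (x : V → Bool) : (E.map fun t => φ t.u x * φ (One_z : Gate V) x).sum = 0 := by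
  apply List.sum_eq_zero
  intro r hr
  obtain ⟨t, -, rfl⟩ := List.mem_map.1 hr
  rw [One_P_z hφ]
  exact mul_zero _

private theorem One_ch_S {φ : Gate V → (V → Bool) → ℝ} (hφ : One_P φ) {m : ℕ}
    {L : List (Gate V)} {h a : Gate V} {E : List (One_T V)}
    (hS : m < a.vars.card → ∀ φ, One_P φ → ∀ x, φ a x = One_S φ E a x) (α : ℝ) (x : V → Bool) :
    φ (One_o α) x * (E.map fun t => φ t.u x * φ (One_ch m a t) x).sum +
      One_S φ (One_F m L h α a) h x = φ (One_o α) x * φ a x := by
  unfold One_F
  by_cases hm : m < a.vars.card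
  · rw [if_pos hm, hS hm φ hφ x]
    unfold One_ch
    simp only [if_pos hm]
    exact add_zero _
  · rw [if_neg hm, One_nw_S]
    unfold One_ch
    simp only [if_neg hm]
    rw [One_sum_z hφ, mul_zero, zero_add]
    exact mul_comm _ _

private theorem One_F_len (m : ℕ) (L : List (Gate V)) (h : Gate V) (α : ℝ) (a : Gate V) :
    (One_F m L h α a).length ≤ 1 := by
  unfold One_F
  split_ifs
  · exact Nat.zero_le _
  · exact le_refl _

private theorem One_F_0 (m : ℕ) {L : List (Gate V)} {h : Gate V} (hh : h ∉ L) (α : ℝ)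
    (a : Gate V) : ∀ a' ∈ L, ∀ φ, One_P φ → ∀ x, One_S φ (One_F m L h α a) a' x = 0 := by
  intro a' ha' φ hφ x
  have hne : a' ≠ h := fun e => hh (e ▸ ha')
  unfold One_F
  split_ifs
  · rfl
  · exact One_nw_S0 hφ hne _ _ _ _ _ _

private theorem One_F_good {k m : ℕ} {L : List (Gate V)} {h a : Gate V} (hL : Circ k L)
    (hh : h ∉ L) (hok : Ok k L h) (hm : m < h.vars.card) (α : ℝ) (ha : a ∈ L)
    (hv : a.vars ⊆ h.vars) : ∀ t ∈ One_F m L h α a, One_G k m (h :: L) t := by
  unfold One_F
  split_ifs with h1
  · intro t ht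
    exact absurd ht (by simp)
  · intro t ht
    rw [List.mem_singleton] at ht
    rw [ht]
    have h2 := One_dep hL a ha
    exact One_nw_good hL hh hok (fun L' => One_ok_o k L' α) ⟨not_lt.1 h1, h2, hv, by omega⟩
      (Or.inl rfl) (Subset.refl _) (empty_subset _)

private theorem One_prod {k m : ℕ} {L : List (Gate V)} {h a b : Gate V} (hL : Circ k L)
    (hh : h ∉ L) (hok : Ok k L h) (hC : One_C k m L) (hm : m < h.vars.card) (ha : a ∈ L)
    (hb : b ∈ L) (hab : b.vars.card ≤ a.vars.card) (hdis : Disjoint a.vars b.vars)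
    (hv : h.vars = a.vars ∪ b.vars)
    (hf : ∀ φ, One_P φ → ∀ x, φ h x = φ a x * φ b x) : One_C k m (h :: L) := by
  classical
  obtain ⟨E, hE, hG, hS⟩ := hC
  have hav : a.vars ⊆ h.vars := by
    rw [hv]
    exact subset_union_left
  have hbv : b.vars ⊆ h.vars := by
    rw [hv]
    exact subset_union_right
  by_cases hma : m < a.vars.card
  · -- the larger child is large
    refine One_step hh hok hE hG hS
      (fun t => if t.c a = One_z then One_z else One_mul (t.c a) b) ?_ [] (by simp) (by simp)
      (fun _ _ _ _ _ => rfl) ?_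
    · intro t ht
      obtain ⟨-, ⟨-, -, h4, -⟩, h6⟩ := hG t ht
      obtain ⟨h7, h8⟩ := h6 a ha hma
      by_cases hz : t.c a = One_z
      · exact Or.inl (if_pos hz)
      · right
        show Ok k t.l (if t.c a = One_z then One_z else One_mul (t.c a) b) ∧ _ ∧
          (if t.c a = One_z then One_z else One_mul (t.c a) b).vars ⊆ _
        rw [if_neg hz]
        obtain ⟨h9, h10⟩ := h8.resolve_left hz
        refine ⟨Or.inr (Or.inr ⟨_, h7, b, h4 b hb, ?_, rfl, fun x => ⟨rfl, rfl⟩⟩),
          h9.trans hav, ?_⟩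
        · exact disjoint_of_subset_left (h10.trans sdiff_subset) hdis
        · show (t.c a).vars ∪ b.vars ⊆ h.vars \ t.D
          intro v hv'
          rw [mem_sdiff]
          rcases mem_union.1 hv' with h11 | h11
          · have h12 := mem_sdiff.1 (h10 h11)
            exact ⟨hav h12.1, h12.2⟩
          · exact ⟨hbv h11, fun h12 => disjoint_left.1 hdis (h9 h12) h11⟩
    · intro _ φ hφ x
      have h1 : One_S φ [] h x = 0 := rfl
      rw [h1, add_zero, hf φ hφ, hS a ha hma φ hφ x]
      unfold One_S
      rw [← List.sum_map_mul_right]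
      refine congrArg List.sum (List.map_congr_left fun t _ => ?_)
      by_cases hz : t.c a = One_z
      · rw [if_pos hz, hz, One_P_z hφ]
        ring
      · rw [if_neg hz, One_P_mul hφ]
        ring
  · -- the larger child is small
    have hcard : h.vars.card = a.vars.card + b.vars.card := by
      rw [hv, card_union_of_disjoint hdis]
    have h2 := One_dep hL a ha
    refine One_step hh hok hE hG hS (fun _ => One_z) (fun _ _ => Or.inl rfl)
      [One_nw L h One_z a b a.vars] (by simp) ?_ ?_ ?_
    · intro t ht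
      rw [List.mem_singleton] at ht
      rw [ht]
      refine One_nw_good hL hh hok (fun L' => One_ok_z k L')
        ⟨not_lt.1 hma, h2, Subset.refl _, by omega⟩ (Or.inr hb) hav ?_
      intro v hv'
      exact mem_sdiff.2 ⟨hbv hv', fun h3 => disjoint_left.1 hdis h3 hv'⟩
    · intro a' ha' φ hφ x
      have hne : a' ≠ h := fun e => hh (e ▸ ha')
      exact One_nw_S0 hφ hne _ _ _ _ _ _
    · intro _ φ hφ x
      rw [One_nw_S, hf φ hφ, One_sum_z hφ, zero_add]

private theorem One_main {k m : ℕ} (hkm : k ≤ m) {L : List (Gate V)} (hL : Circ k L) :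
    One_C k m L := by
  classical
  induction hL with
  | nil => exact ⟨[], by simp, by simp, by simp⟩
  | @cons L h hL hok ih =>
    have hdep := One_dep hL
    by_cases hh : h ∈ L
    · -- nothing to do
      obtain ⟨E, hE, hG, hS⟩ := ih
      refine ⟨E, by rw [List.length_cons]; omega, ?_, ?_⟩
      · intro t ht
        obtain ⟨h1, ⟨h2, h3, h4, h5⟩, h6⟩ := hG t ht
        refine ⟨h1, ⟨h2, by rw [List.length_cons]; omega, ?_, h5⟩, ?_⟩
        · intro a ha
          rcases List.mem_cons.1 ha with rfl | ha
          · exact h4 _ hh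
          · exact h4 a ha
        · intro a ha
          rcases List.mem_cons.1 ha with rfl | ha
          · exact h6 _ hh
          · exact h6 a ha
      · intro a ha
        rcases List.mem_cons.1 ha with rfl | ha
        · exact hS _ hh
        · exact hS a ha
    by_cases hm : m < h.vars.card
    swap
    · obtain ⟨E, hE, hG, hS⟩ := ih
      exact One_step hh hok hE hG hS (fun _ => One_z) (fun t _ => Or.inl rfl) [] (by simp) (by simp)
        (fun a _ _ _ x => rfl) (fun h1 => absurd h1 hm)
    have hok' := hok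
    rcases hok with ⟨h1, -, -⟩ | ⟨a, ha, b, hb, α, β, hv, hf⟩ | ⟨a, ha, b, hb, hdis, hv, hf⟩
    · omega
    · -- a linear combination
      obtain ⟨E, hE, hG, hS⟩ := ih
      have hav : a.vars ⊆ h.vars := by
        rw [hv]
        exact subset_union_left
      have hbv : b.vars ⊆ h.vars := by
        rw [hv]
        exact subset_union_right
      have hf' : ∀ φ, One_P φ → ∀ x,
          φ h x = φ (One_o α) x * φ a x + φ (One_o β) x * φ b x := by
        intro φ hφ x
        rcases hφ with rfl | rfl
        · exact (hf x).1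
        · exact (hf x).2
      refine One_step hh hok' hE hG hS (fun t => One_lin α β (One_ch m a t) (One_ch m b t)) ?_
        (One_F m L h α a ++ One_F m L h β b) ?_ ?_ ?_ ?_
      · intro t ht
        obtain ⟨h1, h2⟩ := One_ch_mem (hG t ht) ha
        obtain ⟨h3, h4⟩ := One_ch_mem (hG t ht) hb
        have hO : Ok k t.l (One_lin α β (One_ch m a t) (One_ch m b t)) :=
          Or.inr (Or.inl ⟨_, h1, _, h3, α, β, rfl, fun x => ⟨rfl, rfl⟩⟩)
        rcases h2 with h2 | ⟨h5, h6⟩
        · rcases h4 with h4 | ⟨h7, h8⟩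
          · left
            show One_lin α β (One_ch m a t) (One_ch m b t) = One_z
            rw [h2, h4]
            show (⟨∅ ∪ ∅, fun _ => α * 0 + β * 0, fun _ => |α| * 0 + |β| * 0⟩ : Gate V) =
              ⟨∅, fun _ => 0, fun _ => 0⟩
            simp
          · right
            refine ⟨hO, h7.trans hbv, ?_⟩
            show (One_ch m a t).vars ∪ (One_ch m b t).vars ⊆ _
            rw [h2]
            exact union_subset (empty_subset _) (h8.trans (sdiff_subset_sdiff hbv (Subset.refl _)))
        · right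
          refine ⟨hO, h5.trans hav, ?_⟩
          show (One_ch m a t).vars ∪ (One_ch m b t).vars ⊆ _
          refine union_subset (h6.trans (sdiff_subset_sdiff hav (Subset.refl _))) ?_
          rcases h4 with h4 | ⟨h7, h8⟩
          · rw [h4]
            exact empty_subset _
          · exact h8.trans (sdiff_subset_sdiff hbv (Subset.refl _))
      · rw [List.length_append]
        have h1 := One_F_len m L h α a
        have h2 := One_F_len m L h β b
        omega
      · intro t ht
        rcases List.mem_append.1 ht with ht | ht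
        · exact One_F_good hL hh hok' hm α ha hav t ht
        · exact One_F_good hL hh hok' hm β hb hbv t ht
      · intro a' ha' φ hφ x
        rw [One_S_append, One_F_0 m hh α a a' ha' φ hφ x, One_F_0 m hh β b a' ha' φ hφ x, add_zero]
      · intro _ φ hφ x
        rw [One_S_append, hf' φ hφ, ← One_ch_S (L := L) (h := h) hφ (hS a ha) α x,
          ← One_ch_S (L := L) (h := h) hφ (hS b hb) β x]
        have h1 : (E.map fun t => φ t.u x * φ (One_lin α β (One_ch m a t) (One_ch m b t)) x).sum =
            φ (One_o α) x * (E.map fun t => φ t.u x * φ (One_ch m a t) x).sum +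
              φ (One_o β) x * (E.map fun t => φ t.u x * φ (One_ch m b t) x).sum := by
          rw [← List.sum_map_mul_left, ← List.sum_map_mul_left, ← List.sum_map_add]
          refine congrArg List.sum (List.map_congr_left fun t _ => ?_)
          rw [One_P_lin hφ]
          ring
        rw [h1]
        ring
    · -- a product
      have hf' : ∀ φ, One_P φ → ∀ x, φ h x = φ a x * φ b x := by
        intro φ hφ x
        rcases hφ with rfl | rfl
        · exact (hf x).1
        · exact (hf x).2
      rcases le_total b.vars.card a.vars.card with hab | hab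
      · exact One_prod hL hh hok' ih hm ha hb hab hdis hv hf'
      · exact One_prod hL hh hok' ih hm hb ha hab hdis.symm (by rw [hv, union_comm])
          (fun φ hφ x => by rw [hf' φ hφ, mul_comm])

private theorem One_fil {φ : Gate V → (V → Bool) → ℝ} (hφ : One_P φ) [DecidableEq (Gate V)]
    (E : List (One_T V)) (g : Gate V) (x : V → Bool) :
    One_S φ E g x = (((E.filter fun t => t.c g ≠ One_z).map fun t => (t.u, t.c g, t.l)).map
      fun e => φ e.1 x * φ e.2.1 x).sum := by
  unfold One_S
  rw [List.map_map]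
  induction E with
  | nil => rfl
  | cons t E ih =>
    by_cases h1 : t.c g = One_z
    · rw [List.filter_cons_of_neg (by simpa using h1), List.map_cons, List.sum_cons, ih, h1,
        One_P_z hφ, mul_zero, zero_add]
    · rw [List.filter_cons_of_pos (by simpa using h1), List.map_cons, List.sum_cons, ih,
        List.map_cons, List.sum_cons]
      rfl

end One

theorem thm_One : St_One := by
  classical
  intro V _ k m L hL hkm g hg hm
  obtain ⟨E, hE, hG, hS⟩ := One_main hkm hL
  have hlen : 1 ≤ L.length := List.length_pos_of_mem hg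
  refine ⟨(E.filter fun t => t.c g ≠ One_z).map fun t => (t.u, t.c g, t.l), ?_, ?_, ?_⟩
  · rw [List.length_map]
    exact le_trans (List.length_filter_le _ _) hE
  · intro e he
    obtain ⟨t, ht, rfl⟩ := List.mem_map.1 he
    obtain ⟨ht, hne⟩ := List.mem_filter.1 ht
    have hne' : t.c g ≠ One_z := by simpa using hne
    obtain ⟨⟨h1, ⟨h2, h3, h3'⟩, h4, h5⟩, ⟨h6, h7, h8, h9⟩, h10⟩ := hG t ht
    obtain ⟨h11, h12⟩ := h10 g hg hm
    obtain ⟨h13, h14⟩ := h12.resolve_left hne'
    refine ⟨h6, ?_, h11, h1, h2, h3, h3', ?_, h4.trans h13, h14.trans sdiff_subset, ?_⟩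
    · show t.l.length ≤ 4 * L.length
      omega
    · exact Finset.disjoint_left.2 fun v hv hv' => (mem_sdiff.1 (h14 hv')).2 (h4 hv)
    · show 2 * (t.c g).vars.card + m ≤ 2 * g.vars.card
      have h15 := card_le_card h14
      rw [card_sdiff_of_subset h13] at h15
      have h16 := card_le_card h13
      omega
  · intro x
    refine ⟨?_, ?_⟩
    · rw [hS g hg hm Gate.f (Or.inl rfl) x]
      exact One_fil (Or.inl rfl) E g x
    · rw [hS g hg hm Gate.a (Or.inr rfl) x]
      exact One_fil (Or.inr rfl) E g x

end DSU
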