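import Pool.Agent.DSU.St

/-!
# DSU module RO: the lineages of hierarchical queries without self-joins are read-once
-/

set_option autoImplicit false

namespace DSU

open Finset
open DSD (ReadOnce)

/-- the terms of an atom -/
abbrev RO_Term := List (ℕ ⊕ ℕ)

/-- their values -/
def RO_Term.tup (a : RO_Term) (θ : ℕ → ℕ) : List ℕ := a.map (Sum.elim θ id)

section RO

open Classical in
/-- the lineage of a set of numbered atoms -/
private noncomputable def RO_lin (Q : Finset (ℕ × RO_Term)) (D : Finset Fact) (x : Fact → Bool) :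
    Bool :=
  decide (∃ θ : ℕ → ℕ, ∀ p ∈ Q, (p.1, RO_Term.tup p.2 θ) ∈ D ∧ x (p.1, RO_Term.tup p.2 θ) = true)

/-- the facts which match an atom -/
private def RO_fct (Q : Finset (ℕ × RO_Term)) : Set Fact :=
  {f | ∃ p ∈ Q, ∃ θ : ℕ → ℕ, f = (p.1, RO_Term.tup p.2 θ)}

private def RO_hier (Q : Finset (ℕ × RO_Term)) : Prop :=
  ∀ v w : ℕ, (∀ p ∈ Q, ¬ (Sum.inl v ∈ p.2 ∧ Sum.inl w ∈ p.2)) ∨
    (∀ p ∈ Q, Sum.inl v ∈ p.2 → Sum.inl w ∈ p.2) ∨ (∀ p ∈ Q, Sum.inl w ∈ p.2 → Sum.inl v ∈ p.2)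

/-- different numbers -/
private def RO_fun (Q : Finset (ℕ × RO_Term)) : Prop := ∀ p ∈ Q, ∀ p' ∈ Q, p.1 = p'.1 → p = p'

private theorem RO_lin_iff (Q : Finset (ℕ × RO_Term)) (D : Finset Fact) (x : Fact → Bool) :
    RO_lin Q D x = true ↔
      ∃ θ : ℕ → ℕ, ∀ p ∈ Q, (p.1, RO_Term.tup p.2 θ) ∈ D ∧ x (p.1, RO_Term.tup p.2 θ) = true := by
  classical
  unfold RO_lin
  simp only [decide_eq_true_eq]

private theorem RO_congr (a : RO_Term) {θ θ' : ℕ → ℕ} (h : ∀ w, Sum.inl w ∈ a → θ w = θ' w) :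
    RO_Term.tup a θ = RO_Term.tup a θ' := by
  unfold RO_Term.tup
  refine List.map_congr_left (fun t ht => ?_)
  rcases t with w | c
  · exact h w ht
  · rfl

private theorem RO_eq (a : RO_Term) {θ θ' : ℕ → ℕ} (h : RO_Term.tup a θ = RO_Term.tup a θ') {w : ℕ}
    (hw : Sum.inl w ∈ a) : θ w = θ' w := by
  unfold RO_Term.tup at h
  exact (List.map_inj_left.1 h) (Sum.inl w) hw

private theorem RO_fct_mono {Q Q' : Finset (ℕ × RO_Term)} (h : Q ⊆ Q') : RO_fct Q ⊆ RO_fct Q' := by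
  rintro f ⟨p, hp, θ, rfl⟩
  exact ⟨p, h hp, θ, rfl⟩

private theorem RO_hier_mono {Q Q' : Finset (ℕ × RO_Term)} (h : Q ⊆ Q') (hQ : RO_hier Q') :
    RO_hier Q := by
  intro v w
  rcases hQ v w with h1 | h1 | h1
  · exact Or.inl fun p hp => h1 p (h hp)
  · exact Or.inr (Or.inl fun p hp => h1 p (h hp))
  · exact Or.inr (Or.inr fun p hp => h1 p (h hp))

private theorem RO_fun_mono {Q Q' : Finset (ℕ × RO_Term)} (h : Q ⊆ Q') (hQ : RO_fun Q') :
    RO_fun Q := fun p hp p' hp' => hQ p (h hp) p' (h hp')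

/-- two parts without common variables -/
private theorem RO_split {Q Q1 Q2 : Finset (ℕ × RO_Term)} {D : Finset Fact} (hQ : RO_fun Q)
    (h12 : Q = Q1 ∪ Q2) (hd : Disjoint Q1 Q2)
    (hv : ∀ w, ∀ p ∈ Q1, ∀ p' ∈ Q2, Sum.inl w ∈ p.2 → Sum.inl w ∉ p'.2)
    (h1 : ∃ S ⊆ D, (S : Set Fact) ⊆ RO_fct Q1 ∧ ReadOnce S (RO_lin Q1 D))
    (h2 : ∃ S ⊆ D, (S : Set Fact) ⊆ RO_fct Q2 ∧ ReadOnce S (RO_lin Q2 D)) :
    ∃ S ⊆ D, (S : Set Fact) ⊆ RO_fct Q ∧ ReadOnce S (RO_lin Q D) := by
  classical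
  obtain ⟨S1, hS1, hF1, hR1⟩ := h1
  obtain ⟨S2, hS2, hF2, hR2⟩ := h2
  have hs1 : Q1 ⊆ Q := by
    rw [h12]
    exact subset_union_left
  have hs2 : Q2 ⊆ Q := by
    rw [h12]
    exact subset_union_right
  have hdis : Disjoint S1 S2 := by
    rw [Finset.disjoint_left]
    intro f hf1 hf2
    obtain ⟨p, hp, θ, h3⟩ := hF1 hf1
    obtain ⟨p', hp', θ', h4⟩ := hF2 hf2
    have h5 : p.1 = p'.1 := by
      have e1 := congrArg Prod.fst h3
      have e2 := congrArg Prod.fst h4
      exact e1.symm.trans e2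
    have h6 := hQ p (hs1 hp) p' (hs2 hp') h5
    rw [h6] at hp
    exact Finset.disjoint_left.1 hd hp hp'
  refine ⟨S1 ∪ S2, union_subset hS1 hS2, ?_, ?_⟩
  · intro f hf
    rcases Finset.mem_union.1 (Finset.mem_coe.1 hf) with h | h
    · exact RO_fct_mono hs1 (hF1 h)
    · exact RO_fct_mono hs2 (hF2 h)
  · have h3 : RO_lin Q D = fun x => RO_lin Q1 D x && RO_lin Q2 D x := by
      funext x
      rw [Bool.eq_iff_iff, Bool.and_eq_true, RO_lin_iff, RO_lin_iff, RO_lin_iff]
      constructor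
      · rintro ⟨θ, hθ⟩
        exact ⟨⟨θ, fun p hp => hθ p (hs1 hp)⟩, ⟨θ, fun p hp => hθ p (hs2 hp)⟩⟩
      · rintro ⟨⟨θ1, h1⟩, ⟨θ2, h2⟩⟩
        refine ⟨fun w => if ∃ p ∈ Q1, Sum.inl w ∈ p.2 then θ1 w else θ2 w, fun p hp => ?_⟩
        rw [h12, Finset.mem_union] at hp
        rcases hp with hp | hp
        · have h4 : RO_Term.tup p.2 (fun w => if ∃ p ∈ Q1, Sum.inl w ∈ p.2 then θ1 w else θ2 w) =
              RO_Term.tup p.2 θ1 := by
            refine RO_congr p.2 (fun w hw => ?_)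
            exact if_pos ⟨p, hp, hw⟩
          rw [h4]
          exact h1 p hp
        · have h4 : RO_Term.tup p.2 (fun w => if ∃ p ∈ Q1, Sum.inl w ∈ p.2 then θ1 w else θ2 w) =
              RO_Term.tup p.2 θ2 := by
            refine RO_congr p.2 (fun w hw => ?_)
            exact if_neg fun ⟨p', hp', hw'⟩ => hv w p' hp' p hp hw' hw
          rw [h4]
          exact h2 p hp
    rw [h3]
    exact ReadOnce.and hdis hR1 hR2

/-- the constant `c` for the variable `v` -/
private def RO_sub (v c : ℕ) (a : RO_Term) : RO_Term := a.map fun t => if t = Sum.inl v then Sum.inr c else t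

private theorem RO_sub_tup (v c : ℕ) (a : RO_Term) (θ : ℕ → ℕ) :
    RO_Term.tup (RO_sub v c a) θ = RO_Term.tup a (Function.update θ v c) := by
  unfold RO_sub RO_Term.tup
  rw [List.map_map]
  refine List.map_congr_left (fun t _ => ?_)
  rcases t with w | d
  · by_cases h : w = v
    · subst h
      simp
    · have h1 : (Sum.inl w : ℕ ⊕ ℕ) ≠ Sum.inl v := fun h' => h (Sum.inl.inj h')
      simp [h, h1]
  · simp

private theorem RO_sub_mem (v c w : ℕ) (a : RO_Term) :
    Sum.inl w ∈ RO_sub v c a ↔ Sum.inl w ∈ a ∧ w ≠ v := by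
  unfold RO_sub
  rw [List.mem_map]
  constructor
  · rintro ⟨t, ht, h⟩
    by_cases h1 : t = Sum.inl v
    · rw [if_pos h1] at h
      exact absurd h (by simp)
    · rw [if_neg h1] at h
      subst h
      exact ⟨ht, fun h2 => h1 (by rw [h2])⟩
  · rintro ⟨h1, h2⟩
    refine ⟨Sum.inl w, h1, if_neg fun h => h2 (Sum.inl.inj h)⟩

/-- the substitution in all atoms -/
private def RO_sb (v c : ℕ) (Q : Finset (ℕ × RO_Term)) : Finset (ℕ × RO_Term) :=
  Q.image fun p => (p.1, RO_sub v c p.2)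

private theorem RO_sb_hier (v c : ℕ) {Q : Finset (ℕ × RO_Term)} (hQ : RO_hier Q) :
    RO_hier (RO_sb v c Q) := by
  have key : ∀ p' ∈ RO_sb v c Q, ∃ p ∈ Q, ∀ w, Sum.inl w ∈ p'.2 ↔ Sum.inl w ∈ p.2 ∧ w ≠ v := by
    intro p' hp'
    obtain ⟨p, hp, rfl⟩ := Finset.mem_image.1 hp'
    exact ⟨p, hp, fun w => RO_sub_mem v c w p.2⟩
  intro w w'
  by_cases hw : w = v
  · refine Or.inl fun p' hp' h => ?_
    obtain ⟨p, hp, hk⟩ := key p' hp'
    exact ((hk w).1 h.1).2 hw
  by_cases hw' : w' = v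
  · refine Or.inl fun p' hp' h => ?_
    obtain ⟨p, hp, hk⟩ := key p' hp'
    exact ((hk w').1 h.2).2 hw'
  rcases hQ w w' with h1 | h1 | h1
  · refine Or.inl fun p' hp' h => ?_
    obtain ⟨p, hp, hk⟩ := key p' hp'
    exact h1 p hp ⟨((hk w).1 h.1).1, ((hk w').1 h.2).1⟩
  · refine Or.inr (Or.inl fun p' hp' h => ?_)
    obtain ⟨p, hp, hk⟩ := key p' hp'
    exact (hk w').2 ⟨h1 p hp ((hk w).1 h).1, hw'⟩
  · refine Or.inr (Or.inr fun p' hp' h => ?_)
    obtain ⟨p, hp, hk⟩ := key p' hp'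
    exact (hk w).2 ⟨h1 p hp ((hk w').1 h).1, hw⟩

private theorem RO_sb_fun (v c : ℕ) {Q : Finset (ℕ × RO_Term)} (hQ : RO_fun Q) :
    RO_fun (RO_sb v c Q) := by
  intro p hp p' hp' h
  obtain ⟨r, hr, rfl⟩ := Finset.mem_image.1 hp
  obtain ⟨r', hr', rfl⟩ := Finset.mem_image.1 hp'
  have h1 := hQ r hr r' hr' h
  rw [h1]

private theorem RO_sb_lin (v c : ℕ) (Q : Finset (ℕ × RO_Term)) (D : Finset Fact) (x : Fact → Bool) :
    RO_lin (RO_sb v c Q) D x = true ↔ ∃ θ : ℕ → ℕ, θ v = c ∧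
      ∀ p ∈ Q, (p.1, RO_Term.tup p.2 θ) ∈ D ∧ x (p.1, RO_Term.tup p.2 θ) = true := by
  rw [RO_lin_iff]
  constructor
  · rintro ⟨θ, hθ⟩
    refine ⟨Function.update θ v c, by simp, fun p hp => ?_⟩
    have h1 := hθ (p.1, RO_sub v c p.2) (Finset.mem_image.2 ⟨p, hp, rfl⟩)
    rw [RO_sub_tup] at h1
    exact h1
  · rintro ⟨θ, hv, hθ⟩
    refine ⟨θ, fun p' hp' => ?_⟩
    obtain ⟨p, hp, rfl⟩ := Finset.mem_image.1 hp'
    have h1 : Function.update θ v c = θ := by
      rw [← hv]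
      exact Function.update_eq_self v θ
    show (p.1, RO_Term.tup (RO_sub v c p.2) θ) ∈ D ∧ x (p.1, RO_Term.tup (RO_sub v c p.2) θ) = true
    rw [RO_sub_tup, h1]
    exact hθ p hp

/-- facts of a substitution -/
private theorem RO_sb_fct {v c : ℕ} {Q : Finset (ℕ × RO_Term)} {f : Fact}
    (h : f ∈ RO_fct (RO_sb v c Q)) : ∃ p ∈ Q, ∃ θ : ℕ → ℕ, θ v = c ∧ f = (p.1, RO_Term.tup p.2 θ) := by
  obtain ⟨p', hp', θ, rfl⟩ := h
  obtain ⟨p, hp, rfl⟩ := Finset.mem_image.1 hp'
  refine ⟨p, hp, Function.update θ v c, by simp, ?_⟩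
  rw [RO_sub_tup]

/-- a variable which is in all atoms -/
private theorem RO_all {Q : Finset (ℕ × RO_Term)} {D : Finset Fact} (hQ : RO_fun Q)
    (hne : Q.Nonempty) (v : ℕ) (hv : ∀ p ∈ Q, Sum.inl v ∈ p.2)
    (h : ∀ c, ∃ S ⊆ D, (S : Set Fact) ⊆ RO_fct (RO_sb v c Q) ∧
      ReadOnce S (RO_lin (RO_sb v c Q) D)) :
    ∃ S ⊆ D, (S : Set Fact) ⊆ RO_fct Q ∧ ReadOnce S (RO_lin Q D) := by
  classical
  have key : ∀ C : Finset ℕ, ∃ S ⊆ D, (∀ f ∈ S, ∃ c ∈ C, f ∈ RO_fct (RO_sb v c Q)) ∧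
      ReadOnce S (fun x => decide (∃ c ∈ C, RO_lin (RO_sb v c Q) D x = true)) := by
    intro C
    induction C using Finset.induction_on with
    | empty =>
      refine ⟨∅, empty_subset D, fun f hf => absurd hf (Finset.notMem_empty f), ?_⟩
      have h1 : (fun x : Fact → Bool => decide (∃ c ∈ (∅ : Finset ℕ),
          RO_lin (RO_sb v c Q) D x = true)) = fun _ => false := by
        funext x
        simp
      rw [h1]
      exact ReadOnce.const false
    | @insert c C hc ih =>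
      obtain ⟨S1, hS1, hF1, hR1⟩ := h c
      obtain ⟨S2, hS2, hF2, hR2⟩ := ih
      have hdis : Disjoint S1 S2 := by
        rw [Finset.disjoint_left]
        intro f hf1 hf2
        obtain ⟨p, hp, θ, hθ, rfl⟩ := RO_sb_fct (hF1 hf1)
        obtain ⟨c', hc', hf⟩ := hF2 _ hf2
        obtain ⟨p', hp', θ', hθ', h4⟩ := RO_sb_fct hf
        have h4' := congrArg Prod.fst h4
        have h5 : p = p' := hQ p hp p' hp' h4'
        subst h5
        have h4'' := congrArg Prod.snd h4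
        have h6 : θ v = θ' v := RO_eq p.2 h4'' (hv p hp)
        rw [hθ, hθ'] at h6
        rw [h6] at hc
        exact hc hc'
      refine ⟨S1 ∪ S2, union_subset hS1 hS2, ?_, ?_⟩
      · intro f hf
        rcases Finset.mem_union.1 hf with h1 | h1
        · exact ⟨c, mem_insert_self c C, hF1 h1⟩
        · obtain ⟨c', hc', hf'⟩ := hF2 f h1
          exact ⟨c', mem_insert_of_mem hc', hf'⟩
      · have h1 : (fun x : Fact → Bool => decide (∃ c' ∈ insert c C,
            RO_lin (RO_sb v c' Q) D x = true)) = fun x => RO_lin (RO_sb v c Q) D x ||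
            decide (∃ c' ∈ C, RO_lin (RO_sb v c' Q) D x = true) := by
          funext x
          rw [Bool.eq_iff_iff, Bool.or_eq_true, decide_eq_true_iff, decide_eq_true_iff]
          constructor
          · rintro ⟨c', hc', h2⟩
            rcases Finset.mem_insert.1 hc' with rfl | h3
            · exact Or.inl h2
            · exact Or.inr ⟨c', h3, h2⟩
          · rintro (h2 | ⟨c', hc', h2⟩)
            · exact ⟨c, mem_insert_self c C, h2⟩
            · exact ⟨c', mem_insert_of_mem hc', h2⟩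
        rw [h1]
        exact ReadOnce.or hdis hR1 hR2
  obtain ⟨S, hS, hF, hR⟩ := key (D.biUnion fun f => f.2.toFinset)
  refine ⟨S, hS, fun f hf => ?_, ?_⟩
  · obtain ⟨c, -, h1⟩ := hF f hf
    obtain ⟨p, hp, θ, -, h2⟩ := RO_sb_fct h1
    exact ⟨p, hp, θ, h2⟩
  · have h1 : RO_lin Q D = fun x => decide (∃ c ∈ D.biUnion fun f => f.2.toFinset,
        RO_lin (RO_sb v c Q) D x = true) := by
      funext x
      rw [Bool.eq_iff_iff, decide_eq_true_iff, RO_lin_iff]
      constructor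
      · rintro ⟨θ, hθ⟩
        refine ⟨θ v, ?_, (RO_sb_lin v (θ v) Q D x).2 ⟨θ, rfl, hθ⟩⟩
        obtain ⟨p, hp⟩ := hne
        refine Finset.mem_biUnion.2 ⟨_, (hθ p hp).1, ?_⟩
        rw [List.mem_toFinset]
        show θ v ∈ RO_Term.tup p.2 θ
        unfold RO_Term.tup
        exact List.mem_map.2 ⟨Sum.inl v, hv p hp, rfl⟩
      · rintro ⟨c, -, h2⟩
        obtain ⟨θ, -, hθ⟩ := (RO_sb_lin v c Q D x).1 h2
        exact ⟨θ, hθ⟩
    rw [h1]
    exact hR

/-- one atom without variables -/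
private theorem RO_one {D : Finset Fact} (p : ℕ × RO_Term) (hp : ∀ w, Sum.inl w ∉ p.2) :
    ∃ S ⊆ D, (S : Set Fact) ⊆ RO_fct {p} ∧ ReadOnce S (RO_lin {p} D) := by
  have h1 : ∀ θ : ℕ → ℕ, RO_Term.tup p.2 θ = RO_Term.tup p.2 (fun _ => 0) := fun θ =>
    RO_congr p.2 (fun w hw => absurd hw (hp w))
  by_cases hD : (p.1, RO_Term.tup p.2 (fun _ => 0)) ∈ D
  · refine ⟨{(p.1, RO_Term.tup p.2 (fun _ => 0))}, by simpa using hD, ?_, ?_⟩
    · intro f hf
      have hf' : f = (p.1, RO_Term.tup p.2 (fun _ => 0)) := by simpa using hf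
      exact ⟨p, mem_singleton_self p, fun _ => 0, hf'⟩
    · have h2 : RO_lin {p} D = fun x => x (p.1, RO_Term.tup p.2 (fun _ => 0)) := by
        funext x
        rw [Bool.eq_iff_iff, RO_lin_iff]
        constructor
        · rintro ⟨θ, hθ⟩
          have h3 := (hθ p (mem_singleton_self p)).2
          rw [h1 θ] at h3
          exact h3
        · intro h3
          refine ⟨fun _ => 0, fun r hr => ?_⟩
          rw [Finset.mem_singleton] at hr
          rw [hr]
          exact ⟨hD, h3⟩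
      rw [h2]
      exact ReadOnce.var _
  · refine ⟨∅, empty_subset D, by simp, ?_⟩
    have h2 : RO_lin {p} D = fun _ => false := by
      funext x
      rw [Bool.eq_false_iff]
      intro h
      rw [RO_lin_iff] at h
      obtain ⟨θ, hθ⟩ := h
      have h3 := (hθ p (mem_singleton_self p)).1
      rw [h1 θ] at h3
      exact hD h3
    rw [h2]
    exact ReadOnce.const false

/-- the main induction -/
private theorem RO_main (D : Finset Fact) : ∀ (N : ℕ) (Q : Finset (ℕ × RO_Term)) (V : Finset ℕ),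
    V.card + Q.card ≤ N → RO_fun Q → RO_hier Q → (∀ p ∈ Q, ∀ w, Sum.inl w ∈ p.2 → w ∈ V) →
    ∃ S ⊆ D, (S : Set Fact) ⊆ RO_fct Q ∧ ReadOnce S (RO_lin Q D) := by
  classical
  intro N
  induction N with
  | zero =>
    intro Q V hN _ _ _
    have hQ : Q = ∅ := by
      rw [← Finset.card_eq_zero]
      omega
    subst hQ
    refine ⟨∅, empty_subset D, by simp, ?_⟩
    have h2 : RO_lin ∅ D = fun _ => true := by
      funext x
      rw [RO_lin_iff]
      exact ⟨fun _ => 0, fun p hp => absurd hp (Finset.notMem_empty p)⟩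
    rw [h2]
    exact ReadOnce.const true
  | succ N ih =>
    intro Q V hN hfun hhier hV
    rcases Q.eq_empty_or_nonempty with rfl | hne
    · refine ⟨∅, empty_subset D, by simp, ?_⟩
      have h2 : RO_lin ∅ D = fun _ => true := by
        funext x
        rw [RO_lin_iff]
        exact ⟨fun _ => 0, fun p hp => absurd hp (Finset.notMem_empty p)⟩
      rw [h2]
      exact ReadOnce.const true
    -- splitting
    have split : ∀ Q1 Q2 : Finset (ℕ × RO_Term), Q = Q1 ∪ Q2 → Disjoint Q1 Q2 → Q1.Nonempty →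
        Q2.Nonempty →
        (∀ w, ∀ p ∈ Q1, ∀ p' ∈ Q2, Sum.inl w ∈ p.2 → Sum.inl w ∉ p'.2) →
        ∃ S ⊆ D, (S : Set Fact) ⊆ RO_fct Q ∧ ReadOnce S (RO_lin Q D) := by
      intro Q1 Q2 h12 hd hn1 hn2 hv
      have hs1 : Q1 ⊆ Q := by
        rw [h12]
        exact subset_union_left
      have hs2 : Q2 ⊆ Q := by
        rw [h12]
        exact subset_union_right
      have hc : Q.card = Q1.card + Q2.card := by
        rw [h12, Finset.card_union_of_disjoint hd]
      have h1 := Finset.card_pos.2 hn1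
      have h2 := Finset.card_pos.2 hn2
      refine RO_split hfun h12 hd hv ?_ ?_
      · exact ih Q1 V (by omega) (RO_fun_mono hs1 hfun) (RO_hier_mono hs1 hhier)
          (fun p hp => hV p (hs1 hp))
      · exact ih Q2 V (by omega) (RO_fun_mono hs2 hfun) (RO_hier_mono hs2 hhier)
          (fun p hp => hV p (hs2 hp))
    by_cases hvar : ∃ v ∈ V, ∃ p ∈ Q, Sum.inl v ∈ p.2
    · obtain ⟨v0, hv0, p0, hp0, hvp0⟩ := hvar
      -- a variable with the maximal number of atoms
      obtain ⟨v, hvV, hmax⟩ := Finset.exists_max_image V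
        (fun v : ℕ => (Q.filter fun p : ℕ × RO_Term => (Sum.inl v : ℕ ⊕ ℕ) ∈ p.2).card) ⟨v0, hv0⟩
      have hpos : 0 < (Q.filter fun p => Sum.inl v ∈ p.2).card := by
        have h1 : 0 < (Q.filter fun p => Sum.inl v0 ∈ p.2).card :=
          Finset.card_pos.2 ⟨p0, Finset.mem_filter.2 ⟨hp0, hvp0⟩⟩
        exact lt_of_lt_of_le h1 (hmax v0 hv0)
      by_cases hall : ∀ p ∈ Q, Sum.inl v ∈ p.2
      · refine RO_all hfun hne v hall (fun c => ?_)
        refine ih (RO_sb v c Q) (V.erase v) ?_ (RO_sb_fun v c hfun) (RO_sb_hier v c hhier) ?_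
        · have h1 : (RO_sb v c Q).card ≤ Q.card := Finset.card_image_le
          have h2 := Finset.card_erase_lt_of_mem hvV
          omega
        · intro p' hp' w hw
          obtain ⟨p, hp, rfl⟩ := Finset.mem_image.1 hp'
          obtain ⟨h1, h2⟩ := (RO_sub_mem v c w p.2).1 hw
          exact Finset.mem_erase.2 ⟨h2, hV p hp w h1⟩
      · push Not at hall
        obtain ⟨q, hq, hvq⟩ := hall
        refine split (Q.filter fun p => Sum.inl v ∈ p.2) (Q.filter fun p => ¬ Sum.inl v ∈ p.2)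
          (Finset.filter_union_filter_not_eq _ Q).symm (Finset.disjoint_filter_filter_not Q Q _)
          (Finset.card_pos.1 hpos) ⟨q, Finset.mem_filter.2 ⟨hq, hvq⟩⟩ ?_
        intro w p hp p' hp' hwp hwp'
        obtain ⟨hp1, hp2⟩ := Finset.mem_filter.1 hp
        obtain ⟨hp1', hp2'⟩ := Finset.mem_filter.1 hp'
        rcases hhier v w with h1 | h1 | h1
        · exact h1 p hp1 ⟨hp2, hwp⟩
        · have h2 : (Q.filter fun p => Sum.inl v ∈ p.2) ⊂ (Q.filter fun p => Sum.inl w ∈ p.2) := by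
            rw [Finset.ssubset_iff_of_subset]
            · exact ⟨p', Finset.mem_filter.2 ⟨hp1', hwp'⟩, fun h => hp2' (Finset.mem_filter.1 h).2⟩
            · intro r hr
              obtain ⟨hr1, hr2⟩ := Finset.mem_filter.1 hr
              exact Finset.mem_filter.2 ⟨hr1, h1 r hr1 hr2⟩
          have h3 := Finset.card_lt_card h2
          have h4 := hmax w (hV p' hp1' w hwp')
          omega
        · exact hp2' (h1 p' hp1' hwp')
    · have hno : ∀ p ∈ Q, ∀ w, Sum.inl w ∉ p.2 := by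
        intro p hp w hw
        exact hvar ⟨w, hV p hp w hw, p, hp, hw⟩
      obtain ⟨p, hp⟩ := hne
      by_cases h1 : Q = {p}
      · rw [h1]
        exact RO_one p (hno p hp)
      · refine split {p} (Q.erase p) ?_ ?_ ⟨p, mem_singleton_self p⟩ ?_ ?_
        · ext r
          by_cases hr : r = p
          · subst hr
            simp [hp]
          · simp [hr]
        · rw [Finset.disjoint_singleton_left]
          exact Finset.notMem_erase p Q
        · by_contra h2
          rw [Finset.not_nonempty_iff_eq_empty, Finset.erase_eq_empty_iff] at h2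
          rcases h2 with h2 | h2
          · rw [h2] at hp
            exact absurd hp (Finset.notMem_empty p)
          · exact h1 h2
        · intro w r hr r' hr' hw
          rw [Finset.mem_singleton] at hr
          rw [hr] at hw
          exact absurd hw (hno p hp w)

end RO

/-- [RO] -/
theorem thm_RO : St_RO := by
  classical
  intro q hsj hq D
  have hlin : lin {q} D = RO_lin q D := by
    funext x
    rw [Bool.eq_iff_iff, RO_lin_iff]
    unfold lin
    rw [decide_eq_true_iff]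
    constructor
    · rintro ⟨q', hq', θ, h⟩
      rw [Finset.mem_singleton] at hq'
      subst hq'
      exact ⟨θ, h⟩
    · rintro ⟨θ, h⟩
      exact ⟨q, Finset.mem_singleton_self q, θ, h⟩
  obtain ⟨S, hS, -, hR⟩ := RO_main D ((q.biUnion fun p => (p.2.filterMap Sum.getLeft?).toFinset).card
      + q.card) q (q.biUnion fun p => (p.2.filterMap Sum.getLeft?).toFinset) le_rfl hsj hq (by
      intro p hp w hw
      refine Finset.mem_biUnion.2 ⟨p, hp, ?_⟩
      rw [List.mem_toFinset, List.mem_filterMap]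
      exact ⟨Sum.inl w, hw, rfl⟩)
  rw [hlin]
  exact ⟨S, hS, hR⟩

end DSU
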