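import Pool.Agent.DSU.St

/-!
# DSU, module Red: reduced unions of conjunctive queries with a disjunct which is not hierarchical
contain the 2-DNF of every bipartite graph
-/

set_option autoImplicit false

namespace DSU

open Finset
open DSD (DepOn bv ind Mean ReadOnce Ep Phi Sg Par)

/-- the valuation `θ a b` -/
private def Red_th (M y z m n : ℕ) : ℕ → ℕ := fun v =>
  if v = y then M + 3 * m + 1 else if v = z then M + 3 * n + 2 else M + 3 * v

private theorem Red_th_y (M y z m n : ℕ) : Red_th M y z m n y = M + 3 * m + 1 := by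
  unfold Red_th
  rw [if_pos rfl]

private theorem Red_th_z (M y z m n : ℕ) (h : y ≠ z) : Red_th M y z m n z = M + 3 * n + 2 := by
  unfold Red_th
  rw [if_neg h.symm, if_pos rfl]

/-- the map back to the terms -/
private def Red_pi (M y z : ℕ) : ℕ → ℕ ⊕ ℕ := fun n =>
  if n < M then Sum.inr n else if (n - M) % 3 = 0 then Sum.inl ((n - M) / 3)
    else if (n - M) % 3 = 1 then Sum.inl y else Sum.inl z

private theorem Red_pi_th (M y z m n v : ℕ) : Red_pi M y z (Red_th M y z m n v) = Sum.inl v := by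
  unfold Red_pi Red_th
  by_cases h1 : v = y
  · rw [if_pos h1, if_neg (by omega), if_neg (by omega), if_pos (by omega), h1]
  · rw [if_neg h1]
    by_cases h2 : v = z
    · rw [if_pos h2, if_neg (by omega), if_neg (by omega), if_neg (by omega), h2]
    · rw [if_neg h2, if_neg (by omega), if_pos (by omega)]
      congr 1
      omega

private theorem Red_pi_lt (M y z c : ℕ) (h : c < M) : Red_pi M y z c = Sum.inr c := by
  unfold Red_pi
  rw [if_pos h]

/-- `π` of the fact `A.fact (θ a b)` is `A` -/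
private theorem Red_back {M y z m n : ℕ} {A : Atom} (hA : ∀ c, Sum.inr c ∈ A.2 → c < M) :
    (Atom.fact A (Red_th M y z m n)).2.map (Red_pi M y z) = A.2 := by
  unfold Atom.fact
  rw [List.map_map]
  conv_rhs => rw [← List.map_id A.2]
  refine List.map_congr_left ?_
  rintro (v | c) hv
  · exact Red_pi_th M y z m n v
  · exact Red_pi_lt M y z c (hA c hv)

private theorem Red_inj {M y z m n m' n' : ℕ} {A B : Atom} (hA : ∀ c, Sum.inr c ∈ A.2 → c < M)
    (hB : ∀ c, Sum.inr c ∈ B.2 → c < M)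
    (h : Atom.fact A (Red_th M y z m n) = Atom.fact B (Red_th M y z m' n')) : A = B := by
  have h1 : A.1 = B.1 := congrArg (fun f : Fact => f.1) h
  have h2 : A.2 = B.2 := by
    rw [← Red_back (m := m) (n := n) (y := y) (z := z) hA, h, Red_back hB]
  exact Prod.ext h1 h2

private theorem Red_val {A : Atom} {θ θ' : ℕ → ℕ} (h : Atom.fact A θ = Atom.fact A θ') {v : ℕ}
    (hv : Sum.inl v ∈ A.2) : θ v = θ' v := by
  have h0 : A.2.map (Sum.elim θ id) = A.2.map (Sum.elim θ' id) := congrArg Prod.snd h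
  exact List.map_inj_left.1 h0 (Sum.inl v) hv

private theorem Red_ext {A : Atom} {θ θ' : ℕ → ℕ} (h : ∀ v, Sum.inl v ∈ A.2 → θ v = θ' v) :
    Atom.fact A θ = Atom.fact A θ' := by
  unfold Atom.fact
  refine Prod.ext rfl (List.map_inj_left.2 ?_)
  rintro (v | c) hv
  · exact h v hv
  · rfl

private theorem Red_th_ext {M y z m n m' n' : ℕ} {A : Atom} (h1 : Sum.inl y ∈ A.2 → m = m')
    (h2 : Sum.inl z ∈ A.2 → n = n') :
    Atom.fact A (Red_th M y z m n) = Atom.fact A (Red_th M y z m' n') := by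
  refine Red_ext fun v hv => ?_
  unfold Red_th
  by_cases hy : v = y
  · rw [if_pos hy, if_pos hy, h1 (hy ▸ hv)]
  · rw [if_neg hy, if_neg hy]
    by_cases hz : v = z
    · rw [if_pos hz, if_pos hz, h2 (hz ▸ hv)]
    · rw [if_neg hz, if_neg hz]

/-- a bound for the constants -/
private theorem Red_bound (Q : UCQ) :
    ∃ M : ℕ, ∀ q ∈ Q, ∀ A ∈ q, ∀ c, (Sum.inr c : ℕ ⊕ ℕ) ∈ A.2 → c < M := by
  classical
  have hl : ∀ l : List (ℕ ⊕ ℕ), ∃ M : ℕ, ∀ c, (Sum.inr c : ℕ ⊕ ℕ) ∈ l → c < M := by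
    intro l
    induction l with
    | nil => exact ⟨0, fun c hc => absurd hc List.not_mem_nil⟩
    | cons a l ih =>
      obtain ⟨M, hM⟩ := ih
      rcases a with v | d
      · refine ⟨M, fun c hc => ?_⟩
        rcases List.mem_cons.1 hc with h | h
        · exact absurd h (by simp)
        · exact hM c h
      · refine ⟨max M (d + 1), fun c hc => ?_⟩
        rcases List.mem_cons.1 hc with h | h
        · have : c = d := Sum.inr.inj h
          omega
        · have := hM c h
          omega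
  choose f hf using hl
  refine ⟨(Q.sup fun q => q.sup fun A => f A.2), fun q hq A hA c hc => ?_⟩
  have h1 : f A.2 ≤ q.sup fun A => f A.2 := Finset.le_sup (f := fun A : Atom => f A.2) hA
  have h2 : (q.sup fun A => f A.2) ≤ Q.sup fun q => q.sup fun A => f A.2 :=
    Finset.le_sup (f := fun q : CQ => q.sup fun A => f A.2) hq
  exact lt_of_lt_of_le (hf A.2 c hc) (h1.trans h2)

/-- the facts of a homomorphism contain the facts of `θ a b` for some edge -/
private theorem Red_key {Q : UCQ} (hQ : Reduced Q) {q : CQ} (hq : q ∈ Q) {M y z : ℕ}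
    (hM : ∀ q ∈ Q, ∀ A ∈ q, ∀ c, (Sum.inr c : ℕ ⊕ ℕ) ∈ A.2 → c < M) (hyz : y ≠ z)
    {AS : Atom} (hS : AS ∈ q) (hyS : Sum.inl y ∈ AS.2) (hzS : Sum.inl z ∈ AS.2)
    {K : Type} (enc : K → ℕ) (E : Finset (K × K))
    {q' : CQ} (hq' : q' ∈ Q) (θ : ℕ → ℕ)
    (hθ : ∀ A ∈ q', ∃ B ∈ q, ∃ e ∈ E,
      Atom.fact B (Red_th M y z (enc e.1) (enc e.2)) = Atom.fact A θ) :
    ∃ e ∈ E, ∀ A ∈ q, ∃ B ∈ q', Atom.fact A (Red_th M y z (enc e.1) (enc e.2)) = Atom.fact B θ := by
  classical
  set h : ℕ → ℕ ⊕ ℕ := fun v => Red_pi M y z (θ v) with hh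
  -- the image of an atom
  have hsub : ∀ A ∈ q', Atom.sub A h ∈ q ∧ ∃ e ∈ E,
      Atom.fact (Atom.sub A h) (Red_th M y z (enc e.1) (enc e.2)) = Atom.fact A θ := by
    intro A hA
    obtain ⟨B, hB, e, he, heq⟩ := hθ A hA
    have h1 : Atom.sub A h = B := by
      refine Prod.ext (congrArg (fun f : Fact => f.1) heq).symm ?_
      have h2 := Red_back (y := y) (z := z) (m := enc e.1) (n := enc e.2) (hM q hq B hB)
      rw [heq] at h2
      rw [← h2]
      unfold Atom.fact Atom.sub
      rw [List.map_map]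
      refine List.map_congr_left ?_
      rintro (v | c) hv
      · rfl
      · exact (Red_pi_lt M y z c (hM q' hq' A hA c hv)).symm
    rw [h1]
    exact ⟨hB, e, he, heq⟩
  obtain ⟨rfl, hinj⟩ := hQ q' hq' q hq h fun A hA => (hsub A hA).1
  -- surjectivity on the atoms
  have hsurj : ∀ B ∈ q', ∃ A ∈ q', Atom.sub A h = B := by
    intro B hB
    have h1 : (q'.image fun A => Atom.sub A h) = q' := by
      refine Finset.eq_of_subset_of_card_le ?_ ?_
      · intro C hC
        obtain ⟨A, hA, rfl⟩ := Finset.mem_image.1 hC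
        exact (hsub A hA).1
      · rw [Finset.card_image_of_injOn]
        intro A hA B hB hAB
        exact hinj A hA B hB hAB
    rw [← h1] at hB
    obtain ⟨A, hA, h2⟩ := Finset.mem_image.1 hB
    exact ⟨A, hA, h2⟩
  -- the terms
  set τ : ℕ ⊕ ℕ → ℕ ⊕ ℕ := Sum.elim h Sum.inr with hτ
  set Tm : Finset (ℕ ⊕ ℕ) := q'.biUnion fun A => A.2.toFinset with hTm
  have hmem : ∀ A ∈ q', ∀ t ∈ A.2, t ∈ Tm := by
    intro A hA t ht
    exact Finset.mem_biUnion.2 ⟨A, hA, List.mem_toFinset.2 ht⟩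
  have hτim : Tm.image τ = Tm := by
    refine (Finset.eq_of_superset_of_card_ge ?_ ?_)
    · intro t ht
      obtain ⟨B, hB, htB⟩ := Finset.mem_biUnion.1 ht
      rw [List.mem_toFinset] at htB
      obtain ⟨A, hA, rfl⟩ := hsurj B hB
      obtain ⟨t', ht', h1⟩ := List.mem_map.1 htB
      exact Finset.mem_image.2 ⟨t', hmem A hA t' ht', h1⟩
    · exact Finset.card_image_le
  have hτinj : ∀ t ∈ Tm, ∀ t' ∈ Tm, τ t = τ t' → t = t' := by
    have h1 : Set.InjOn τ Tm := Finset.card_image_iff.1 (by rw [hτim])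
    exact fun t ht t' ht' h2 => h1 ht ht' h2
  -- the values of the terms
  have hval : ∀ A ∈ q', ∀ e : K × K,
      Atom.fact (Atom.sub A h) (Red_th M y z (enc e.1) (enc e.2)) = Atom.fact A θ →
      ∀ t ∈ A.2, Sum.elim (Red_th M y z (enc e.1) (enc e.2)) id (τ t) = Sum.elim θ id t := by
    intro A hA e he t ht
    have h1 : (A.2.map τ).map (Sum.elim (Red_th M y z (enc e.1) (enc e.2)) id) =
        A.2.map (Sum.elim θ id) := congrArg Prod.snd he
    rw [List.map_map] at h1
    exact List.map_inj_left.1 h1 t ht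
  obtain ⟨A0, hA0, hA0S⟩ := hsurj AS hS
  obtain ⟨-, e0, he0, heq0⟩ := hsub A0 hA0
  have hget : ∀ (A : Atom) (v : ℕ), Sum.inl v ∈ (Atom.sub A h).2 → ∃ t ∈ A.2, τ t = Sum.inl v := by
    intro A v hv
    exact List.mem_map.1 hv
  obtain ⟨ty, hty, htyv⟩ := hget A0 y (hA0S ▸ hyS)
  obtain ⟨tz, htz, htzv⟩ := hget A0 z (hA0S ▸ hzS)
  refine ⟨e0, he0, fun B hB => ?_⟩
  obtain ⟨A, hA, rfl⟩ := hsurj B hB
  obtain ⟨-, e, he, heq⟩ := hsub A hA
  refine ⟨A, hA, ?_⟩
  rw [← heq]
  refine Red_th_ext ?_ ?_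
  · intro hy
    obtain ⟨t, ht, htv⟩ := hget A y hy
    have h1 : t = ty := hτinj t (hmem A hA t ht) ty (hmem A0 hA0 ty hty) (htv.trans htyv.symm)
    have h2 := hval A hA e heq t ht
    have h3 := hval A0 hA0 e0 heq0 ty hty
    rw [h1, ← h3, htyv, Sum.elim_inl, Sum.elim_inl, Red_th_y, Red_th_y] at h2
    omega
  · intro hz
    obtain ⟨t, ht, htv⟩ := hget A z hz
    have h1 : t = tz := hτinj t (hmem A hA t ht) tz (hmem A0 hA0 tz htz) (htv.trans htzv.symm)
    have h2 := hval A hA e heq t ht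
    have h3 := hval A0 hA0 e0 heq0 tz htz
    rw [h1, ← h3, htzv, Sum.elim_inl, Sum.elim_inl, Red_th_z _ _ _ _ _ hyz,
      Red_th_z _ _ _ _ _ hyz] at h2
    omega

/-- [Red] -/
theorem thm_Red : St_Red := by
  classical
  intro Q hQ q hqQ hq K _ _ E hE1 hE2
  simp only [Hier, not_forall, not_or, not_not] at hq
  obtain ⟨y, z, ⟨AS, hS, hyS, hzS⟩, ⟨AR, hR, hyR, hzR⟩, ⟨AT, hT, hzT, hyT⟩⟩ := hq
  have hyz : y ≠ z := by
    rintro rfl
    exact hzR hyR
  obtain ⟨M, hM⟩ := Red_bound Q
  have hMq := hM q hqQ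
  set enc : K → ℕ := fun k => (Fintype.equivFin K k : ℕ) with henc
  have hencinj : ∀ a b : K, enc a = enc b → a = b := by
    intro a b h
    exact (Fintype.equivFin K).injective (Fin.ext h)
  have hRT : AR ≠ AT := by
    rintro rfl
    exact hyT hyR
  set F : Atom × (K × K) → Fact := fun p => Atom.fact p.1 (Red_th M y z (enc p.2.1) (enc p.2.2))
    with hF
  set D : Finset Fact := (q ×ˢ E).image F with hD
  set ι : K ⊕ K → Fact := Sum.elim (fun a => Atom.fact AR (Red_th M y z (enc a) (enc a)))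
    (fun b => Atom.fact AT (Red_th M y z (enc b) (enc b))) with hι
  set tt : K × K → Finset Fact := fun e => q.image fun A =>
    Atom.fact A (Red_th M y z (enc e.1) (enc e.2)) with htt
  have hmemD : ∀ A ∈ q, ∀ e ∈ E, Atom.fact A (Red_th M y z (enc e.1) (enc e.2)) ∈ D := by
    intro A hA e he
    exact Finset.mem_image.2 ⟨(A, e), Finset.mem_product.2 ⟨hA, he⟩, rfl⟩
  have hιl : ∀ a b : K, Atom.fact AR (Red_th M y z (enc a) (enc b)) = ι (Sum.inl a) := by
    intro a b
    exact Red_th_ext (fun _ => rfl) fun h => absurd h hzR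
  have hιr : ∀ a b : K, Atom.fact AT (Red_th M y z (enc a) (enc b)) = ι (Sum.inr b) := by
    intro a b
    exact Red_th_ext (fun h => absurd h hyT) fun _ => rfl
  have hιD : ∀ v, ι v ∈ D := by
    rintro (a | b)
    · obtain ⟨b, hb⟩ := hE1 a
      rw [← hιl a b]
      exact hmemD AR hR (a, b) hb
    · obtain ⟨a, ha⟩ := hE2 b
      rw [← hιr a b]
      exact hmemD AT hT (a, b) ha
  have hdnf : ∀ x : Fact → Bool, lin Q D x = true ↔ ∃ t ∈ E.image tt, ∀ f ∈ t, x f = true := by
    intro x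
    unfold lin
    rw [decide_eq_true_eq]
    constructor
    · rintro ⟨q', hq', θ, hθ⟩
      obtain ⟨e, he, hall⟩ := Red_key hQ hqQ hM hyz hS hyS hzS enc E hq' θ (by
        intro A hA
        obtain ⟨⟨B, e⟩, h1, h2⟩ := Finset.mem_image.1 (hθ A hA).1
        rw [Finset.mem_product] at h1
        exact ⟨B, h1.1, e, h1.2, h2⟩)
      refine ⟨tt e, Finset.mem_image.2 ⟨e, he, rfl⟩, fun f hf => ?_⟩
      obtain ⟨A, hA, rfl⟩ := Finset.mem_image.1 hf
      obtain ⟨B, hB, h3⟩ := hall A hA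
      rw [h3]
      exact (hθ B hB).2
    · rintro ⟨t, ht, hx⟩
      obtain ⟨e, he, rfl⟩ := Finset.mem_image.1 ht
      exact ⟨q, hqQ, _, fun A hA => ⟨hmemD A hA e he, hx _ (Finset.mem_image.2 ⟨A, hA, rfl⟩)⟩⟩
  refine ⟨D, ι, E.image tt, ?_, hιD, ?_, Finset.card_image_le, ?_, hdnf, ?_⟩
  · rintro (a | b) (a' | b') h
    · have h2 := Red_val h hyR
      rw [Red_th_y, Red_th_y] at h2
      rw [hencinj a a' (by omega)]
    · exact absurd (Red_inj (hMq AR hR) (hMq AT hT) h) hRT
    · exact absurd (Red_inj (hMq AT hT) (hMq AR hR) h).symm hRT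
    · have h2 := Red_val h hzT
      rw [Red_th_z _ _ _ _ _ hyz, Red_th_z _ _ _ _ _ hyz] at h2
      rw [hencinj b b' (by omega)]
  · refine Finset.card_image_le.trans ?_
    rw [Finset.card_product]
  · intro t ht
    obtain ⟨e, he, rfl⟩ := Finset.mem_image.1 ht
    exact Finset.card_image_le
  · intro x
    set I : Finset Fact := (univ.filter fun v => x v = false).image ι with hI
    have hmemI : ∀ f : Fact, f ∈ I ↔ ∃ v, x v = false ∧ ι v = f := by
      intro f
      simp [hI]
    have key : lin Q D (ind (D \ I)) = true ↔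
        ∃ e ∈ E, x (Sum.inl e.1) = true ∧ x (Sum.inr e.2) = true := by
      rw [hdnf]
      constructor
      · rintro ⟨t, ht, hx⟩
        obtain ⟨e, he, rfl⟩ := Finset.mem_image.1 ht
        have h1 : ∀ A ∈ q, Atom.fact A (Red_th M y z (enc e.1) (enc e.2)) ∉ I := by
          intro A hA
          have h2 := hx _ (Finset.mem_image.2 ⟨A, hA, rfl⟩)
          unfold ind at h2
          rw [decide_eq_true_eq] at h2
          exact (Finset.mem_sdiff.1 h2).2
        refine ⟨e, he, ?_, ?_⟩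
        · by_contra h3
          refine h1 AR hR ((hmemI _).2 ⟨Sum.inl e.1, by simpa using h3, ?_⟩)
          rw [hιl]
        · by_contra h3
          refine h1 AT hT ((hmemI _).2 ⟨Sum.inr e.2, by simpa using h3, ?_⟩)
          rw [hιr]
      · rintro ⟨e, he, hx1, hx2⟩
        refine ⟨tt e, Finset.mem_image.2 ⟨e, he, rfl⟩, fun f hf => ?_⟩
        obtain ⟨A, hA, rfl⟩ := Finset.mem_image.1 hf
        unfold ind
        rw [decide_eq_true_eq]
        refine Finset.mem_sdiff.2 ⟨hmemD A hA e he, fun h3 => ?_⟩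
        obtain ⟨v, hv, hv'⟩ := (hmemI _).1 h3
        rcases v with a' | b'
        · have h4 : AR = A := Red_inj (hMq AR hR) (hMq A hA) hv'
          subst h4
          have h5 := Red_val hv' hyR
          rw [Red_th_y, Red_th_y] at h5
          rw [hencinj a' e.1 (by omega), hx1] at hv
          exact absurd hv (by decide)
        · have h4 : AT = A := Red_inj (hMq AT hT) (hMq A hA) hv'
          subst h4
          have h5 := Red_val hv' hzT
          rw [Red_th_z _ _ _ _ _ hyz, Red_th_z _ _ _ _ _ hyz] at h5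
          rw [hencinj b' e.2 (by omega), hx2] at hv
          exact absurd hv (by decide)
    unfold bv Phi
    by_cases hP : ∃ e ∈ E, x (Sum.inl e.1) = true ∧ x (Sum.inr e.2) = true
    · rw [if_pos hP, if_pos (key.2 hP)]
    · rw [if_neg hP, if_neg fun h => hP (key.1 h)]

end DSU
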