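import Pool.Agent.DSU.St

/-!
# [Sub] Substitution of constants in a circuit with subtraction (helper96, after DSD/Sub by helper18)
-/

set_option autoImplicit false

namespace DSU

open Finset

theorem thm_Sub : St_Sub := by
  classical
  intro V W _ _ ι ρ k L hι hρ hρ' hL
  let φ : Gate W → Gate V := fun g =>
    ⟨g.vars.preimage ι hι.injOn, fun x => g.f (ρ x), fun x => g.a (ρ x)⟩
  have hm : ∀ (S : Finset W) (v : V), v ∈ S.preimage ι hι.injOn ↔ ι v ∈ S :=
    fun _ _ => mem_preimage
  have hok : ∀ (L : List (Gate W)) (g : Gate W), Ok k L g → Ok k (L.map φ) (φ g) := by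
    intro L g hg
    rcases hg with ⟨h1, h2, h3⟩ | ⟨a, ha, b, hb, α, β, hv, hf⟩ | ⟨a, ha, b, hb, hd, hv, hf⟩
    · refine Or.inl ⟨le_trans ?_ h1, ?_, fun x => h3 (ρ x)⟩
      · refine card_le_card_of_injOn ι (fun v hv => ?_) hι.injOn
        exact (hm g.vars v).1 hv
      · intro x y hxy
        refine h2 _ _ fun w hw => ?_
        by_cases hw' : ∃ v, ι v = w
        · obtain ⟨v, rfl⟩ := hw'
          rw [hρ, hρ]
          exact hxy v ((hm g.vars v).2 hw)
        · exact hρ' w (fun v hv => hw' ⟨v, hv⟩) x y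
    · refine Or.inr (Or.inl ⟨φ a, List.mem_map_of_mem ha, φ b, List.mem_map_of_mem hb, α, β, ?_,
        fun x => hf (ρ x)⟩)
      ext v
      change v ∈ g.vars.preimage ι hι.injOn ↔
        v ∈ a.vars.preimage ι hι.injOn ∪ b.vars.preimage ι hι.injOn
      rw [mem_union, hm, hm, hm, hv, mem_union]
    · refine Or.inr (Or.inr ⟨φ a, List.mem_map_of_mem ha, φ b, List.mem_map_of_mem hb, ?_, ?_,
        fun x => hf (ρ x)⟩)
      · rw [disjoint_left]
        intro v hva hvb
        exact (disjoint_left.1 hd) ((hm a.vars v).1 hva) ((hm b.vars v).1 hvb)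
      · ext v
        change v ∈ g.vars.preimage ι hι.injOn ↔
          v ∈ a.vars.preimage ι hι.injOn ∪ b.vars.preimage ι hι.injOn
        rw [mem_union, hm, hm, hm, hv, mem_union]
  refine ⟨L.map φ, List.length_map _, ?_,
    fun g hg => ⟨φ g, List.mem_map_of_mem hg, fun _ => ⟨rfl, rfl⟩⟩⟩
  induction hL with
  | nil => exact Circ.nil
  | @cons L g h1 h2 ih => exact Circ.cons ih (hok L g h2)

end DSU
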