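import Pool.Agent.DSU.Fin
import Pool.Agent.DSU.RO
import Pool.Agent.DSU.Lic
import Pool.Agent.DSU.Red
import Pool.Agent.DSU.Sub
import Pool.Agent.DSU.One
import Pool.Agent.DSU.Dcp
import Pool.Agent.DSU.Nrm
import Pool.Agent.DSU.Cor
import Pool.Agent.DSU.Conc
import Pool.Agent.DSD.Exs
import Pool.Agent.DSD.Prt
import Pool.Agent.DSD.Ker
import Pool.Agent.DSD.Def
import Pool.Agent.DSD.Cls
import Pool.Agent.DSD.CSq
import Pool.Agent.DSD.Pre
import Pool.Agent.DSD.Cnt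
import Pool.Agent.DSD.Psi
import Pool.Agent.DSD.Dis
import Pool.Agent.DSD.Spl
import Pool.Agent.DSD.Har
import Pool.Agent.DSD.Gra

set_option autoImplicit false

namespace DSU

open DSD (thm_Exs thm_Prt thm_Ker thm_Def thm_Cls thm_CSq thm_Pre thm_Cnt thm_Psi thm_Dis thm_Spl
  thm_Har thm_Gra)

theorem main : Main :=
  thm_Fin thm_RO thm_Lic thm_Red thm_Exs thm_Sub
    (thm_Con (thm_Cor (thm_Dis thm_Ker thm_Def thm_CSq (thm_Psi thm_Cls thm_Pre thm_Cnt)) thm_Spl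
      thm_Prt) (thm_Dcp thm_One) thm_Nrm thm_Har thm_Gra)

end DSU
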