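import Pool.Agent.DSU.St2

/-!
# An orientation of a graph
-/

set_option autoImplicit false

namespace DSU

open Finset

/-- the number of a vertex -/
private noncomputable def oi {V : Type} [Fintype V] (v : V) : Fin (Fintype.card V) :=
  Fintype.equivFin V v

private theorem oi_inj {V : Type} [Fintype V] {u v : V} (h : oi u = oi v) : u = v :=
  (Fintype.equivFin V).injective h

open Classical in
/-- the edges from the smaller to the larger end -/
private noncomputable def oE {V : Type} [Fintype V] [DecidableEq V] (G : SimpleGraph V) :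
    Finset (V × V) :=
  univ.filter fun e => G.Adj e.1 e.2 ∧ oi e.1 < oi e.2

private theorem mem_oE {V : Type} [Fintype V] [DecidableEq V] (G : SimpleGraph V) (e : V × V) :
    e ∈ oE G ↔ G.Adj e.1 e.2 ∧ oi e.1 < oi e.2 := by
  classical
  simp [oE]

private theorem oE_OE {V : Type} [Fintype V] [DecidableEq V] (G : SimpleGraph V) : OE (oE G) := by
  intro e he
  rw [mem_oE] at he
  refine ⟨he.1.ne, fun h => ?_⟩
  rw [mem_oE] at h
  exact absurd (lt_trans he.2 h.2) (lt_irrefl _)

private theorem oE_cases {V : Type} [Fintype V] [DecidableEq V] (G : SimpleGraph V) {u v : V}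
    (h : G.Adj u v) : (u, v) ∈ oE G ∨ (v, u) ∈ oE G := by
  rcases lt_trichotomy (oi u) (oi v) with h1 | h1 | h1
  · exact Or.inl ((mem_oE G _).2 ⟨h, h1⟩)
  · exact absurd (oi_inj h1) h.ne
  · exact Or.inr ((mem_oE G _).2 ⟨h.symm, h1⟩)

private theorem oE_Phi {V : Type} [Fintype V] [DecidableEq V] (G : SimpleGraph V) (x : V → Bool) :
    PhiG G x = PhE (oE G) x := by
  have h : (∃ u v, G.Adj u v ∧ x u = true ∧ x v = true) ↔
      ∃ e ∈ oE G, x e.1 = true ∧ x e.2 = true := by
    constructor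
    · rintro ⟨u, v, h, hu, hv⟩
      rcases oE_cases G h with h1 | h1
      · exact ⟨_, h1, hu, hv⟩
      · exact ⟨_, h1, hv, hu⟩
    · rintro ⟨e, he, h1, h2⟩
      exact ⟨e.1, e.2, ((mem_oE G e).1 he).1, h1, h2⟩
  unfold PhiG PhE
  by_cases h1 : ∃ u v, G.Adj u v ∧ x u = true ∧ x v = true
  · rw [if_pos h1, if_pos (h.1 h1)]
  · rw [if_neg h1, if_neg (fun h2 => h1 (h.2 h2))]

private theorem oE_pr {V : Type} [Fintype V] [DecidableEq V] (G : SimpleGraph V) (X : Finset V) :
    pr G X = 2 * ein (oE G) X := by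
  classical
  have e1 : ((X ×ˢ X).filter fun e : V × V => G.Adj e.1 e.2) =
      ((oE G).filter fun e => e.1 ∈ X ∧ e.2 ∈ X) ∪
        (((oE G).filter fun e => e.1 ∈ X ∧ e.2 ∈ X).image Prod.swap) := by
    ext ⟨u, v⟩
    simp only [mem_filter, mem_product, mem_union, mem_image, Prod.exists]
    constructor
    · rintro ⟨⟨hu, hv⟩, h⟩
      rcases oE_cases G h with h1 | h1
      · exact Or.inl ⟨h1, hu, hv⟩
      · exact Or.inr ⟨v, u, ⟨h1, hv, hu⟩, rfl⟩
    · rintro (⟨h, hu, hv⟩ | ⟨a, b, ⟨h, ha, hb⟩, h2⟩)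
      · exact ⟨⟨hu, hv⟩, ((mem_oE G _).1 h).1⟩
      · have h3 : b = u ∧ a = v := by
          simpa [Prod.swap] using h2
        obtain ⟨rfl, rfl⟩ := h3
        exact ⟨⟨hb, ha⟩, ((mem_oE G _).1 h).1.symm⟩
  have e2 : Disjoint ((oE G).filter fun e => e.1 ∈ X ∧ e.2 ∈ X)
      (((oE G).filter fun e => e.1 ∈ X ∧ e.2 ∈ X).image Prod.swap) := by
    rw [Finset.disjoint_left]
    rintro ⟨u, v⟩ h1 h2
    rw [mem_image] at h2
    obtain ⟨⟨a, b⟩, h3, h4⟩ := h2
    have h5 : b = u ∧ a = v := by simpa [Prod.swap] using h4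
    obtain ⟨rfl, rfl⟩ := h5
    exact (oE_OE G _ (mem_filter.1 h1).1).2 (mem_filter.1 h3).1
  have e3 : (((oE G).filter fun e => e.1 ∈ X ∧ e.2 ∈ X).image Prod.swap).card =
      ((oE G).filter fun e => e.1 ∈ X ∧ e.2 ∈ X).card :=
    card_image_of_injective _ Prod.swap_injective
  have e4 : pr G X = ((X ×ˢ X).filter fun e : V × V => G.Adj e.1 e.2).card := by
    unfold pr
    congr
  rw [e4, e1, card_union_of_disjoint e2, e3]
  unfold ein
  omega

private theorem oE_deg {V : Type} [Fintype V] [DecidableEq V] (G : SimpleGraph V) (v : V) :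
    ((oE G).filter fun e => e.1 = v ∨ e.2 = v).card = {u | G.Adj v u}.ncard := by
  classical
  have e1 : {u | G.Adj v u} = ((univ.filter fun u => G.Adj v u : Finset V) : Set V) := by
    ext u; simp
  rw [e1, Set.ncard_coe_finset]
  refine card_bij (fun e _ => if e.1 = v then e.2 else e.1) ?_ ?_ ?_
  · rintro ⟨a, b⟩ h
    simp only [mem_filter, mem_oE, mem_univ, true_and] at h ⊢
    by_cases ha : a = v
    · rw [if_pos ha]
      rw [← ha]; exact h.1.1
    · rw [if_neg ha]
      have hb : b = v := h.2.resolve_left ha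
      rw [← hb]; exact h.1.1.symm
  · rintro ⟨a, b⟩ h ⟨a', b'⟩ h' h2
    simp only [mem_filter, mem_oE] at h h' h2
    by_cases ha : a = v
    · rw [if_pos ha] at h2
      by_cases ha' : a' = v
      · rw [if_pos ha'] at h2
        rw [ha, ha', h2]
      · rw [if_neg ha'] at h2
        have hb' : b' = v := h'.2.resolve_left ha'
        exfalso
        have t1 := h.1.2
        have t2 := h'.1.2
        rw [ha] at t1
        rw [hb', ← h2] at t2
        exact absurd (lt_trans t1 t2) (lt_irrefl _)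
    · rw [if_neg ha] at h2
      have hb : b = v := h.2.resolve_left ha
      by_cases ha' : a' = v
      · rw [if_pos ha'] at h2
        exfalso
        have t1 := h.1.2
        have t2 := h'.1.2
        rw [hb] at t1
        rw [ha', ← h2] at t2
        exact absurd (lt_trans t1 t2) (lt_irrefl _)
      · rw [if_neg ha'] at h2
        have hb' : b' = v := h'.2.resolve_left ha'
        rw [hb, hb', h2]
  · intro u hu
    have hu' : G.Adj v u := by simpa using hu
    rcases oE_cases G hu' with h1 | h1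
    · exact ⟨(v, u), mem_filter.2 ⟨h1, Or.inl rfl⟩, by simp⟩
    · refine ⟨(u, v), mem_filter.2 ⟨h1, Or.inr rfl⟩, ?_⟩
      simp [hu'.ne.symm]

theorem thm_Ori : St_Ori := by
  intro V _ _ G
  refine ⟨oE G, oE_OE G, oE_Phi G, oE_pr G, ?_, oE_deg G⟩
  rw [oE_pr G univ]
  unfold ein
  simp

end DSU
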