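import Pool.Agent.DSU.St2

/-!
# DSU, module RlE: the real numbers (helper99, after DSU/Conc.lean of helper25)
-/

set_option autoImplicit false

namespace DSU

open Finset
open DSD (Par)

private theorem RlE_exp (x : ℝ) (h0 : 0 ≤ x) (h1 : x ≤ 1 / 2) :
    Real.exp (-(x + x ^ 2)) ≤ 1 - x := by
  have h2 : 0 ≤ x + x ^ 2 := by positivity
  have h3 := Real.quadratic_le_exp_of_nonneg h2
  have h4 : 0 < 1 - x := by linarith
  have h5 : 1 ≤ (1 - x) * (1 + (x + x ^ 2) + (x + x ^ 2) ^ 2 / 2) := by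
    have h6 : (1 - x) * (1 + (x + x ^ 2) + (x + x ^ 2) ^ 2 / 2) =
        1 + x ^ 2 * (1 - x - x ^ 2 - x ^ 3) / 2 := by ring
    have h7 : 0 ≤ 1 - x - x ^ 2 - x ^ 3 := by
      have h8 : x ^ 2 ≤ 1 / 4 := by nlinarith
      have h9 : x ^ 3 ≤ 1 / 8 := by
        have : x ^ 3 = x ^ 2 * x := by ring
        rw [this]
        nlinarith [sq_nonneg x]
      linarith
    have h8 : 0 ≤ x ^ 2 * (1 - x - x ^ 2 - x ^ 3) / 2 := by positivity
    linarith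
  have h6 : 1 ≤ (1 - x) * Real.exp (x + x ^ 2) :=
    h5.trans (mul_le_mul_of_nonneg_left h3 h4.le)
  rw [Real.exp_neg]
  rw [inv_le_iff_one_le_mul₀ (Real.exp_pos _)]
  exact h6

/-- the exponent -/
private theorem RlE_exponent {d r' γ p N M : ℝ} (hd : 1 ≤ d) (hr : 1 ≤ r') (hγ : 0 < γ)
    (hγ1 : γ ≤ 1 / 2) (hp : 0 < p) (hp1 : p ≤ 1) (hu : 75 * (r' * d ^ 5 * p) ≤ γ)
    (hN : 0 ≤ N) (hNM : N ≤ 2 * M) :
    -(2 * p ^ 2 * (1 - 5 * d * r' * p)) * ((1 / 2 + γ) * M) + 32 * r' * p ^ 3 * d ^ 5 * N ≤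
      -(γ * p ^ 2 / 2 * N) + -(M * (p ^ 2 + p ^ 4)) := by
  have hM : 0 ≤ M := by linarith
  have hd5 : d ≤ d ^ 5 := by
    have h1 : d ^ 1 ≤ d ^ 5 := pow_le_pow_right₀ hd (by norm_num)
    rwa [pow_one] at h1
  have hd51 : 1 ≤ d ^ 5 := hd.trans hd5
  have e1 : 5 * (1 + 2 * γ) * (d * (r' * p)) ≤ 10 * (r' * d ^ 5 * p) := by
    have h1 : d * (r' * p) ≤ d ^ 5 * (r' * p) :=
      mul_le_mul_of_nonneg_right hd5 (by positivity)
    have h2 : 5 * (1 + 2 * γ) ≤ 10 := by linarith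
    have h3 : 0 ≤ d * (r' * p) := by positivity
    have h4 : 5 * (1 + 2 * γ) * (d * (r' * p)) ≤ 10 * (d * (r' * p)) :=
      mul_le_mul_of_nonneg_right h2 h3
    have h5 : 10 * (d * (r' * p)) ≤ 10 * (d ^ 5 * (r' * p)) := by linarith
    have h6 : 10 * (d ^ 5 * (r' * p)) = 10 * (r' * d ^ 5 * p) := by ring
    linarith
  have e2 : p ^ 2 ≤ r' * d ^ 5 * p := by
    have h1 : p ^ 2 ≤ p := by nlinarith
    have h2 : 1 ≤ r' * d ^ 5 := one_le_mul_of_one_le_of_one_le hr hd51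
    have h3 : p ≤ r' * d ^ 5 * p := by nlinarith
    linarith
  have e3 : 32 * r' * p ^ 3 * d ^ 5 * N ≤ 64 * (r' * d ^ 5 * p) * (p ^ 2 * M) := by
    have h1 : 0 ≤ 32 * r' * p ^ 3 * d ^ 5 := by positivity
    have h2 := mul_le_mul_of_nonneg_left hNM h1
    have h3 : 32 * r' * p ^ 3 * d ^ 5 * (2 * M) = 64 * (r' * d ^ 5 * p) * (p ^ 2 * M) := by ring
    linarith
  have hpM : 0 ≤ p ^ 2 * M := by positivity
  have e4 : -(2 * p ^ 2 * (1 - 5 * d * r' * p)) * ((1 / 2 + γ) * M) + M * (p ^ 2 + p ^ 4) =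
      (p ^ 2 * M) * (-(2 * γ) + 5 * (1 + 2 * γ) * (d * (r' * p)) + p ^ 2) := by ring
  have e5 : (p ^ 2 * M) * (-(2 * γ) + 5 * (1 + 2 * γ) * (d * (r' * p)) + p ^ 2) ≤
      (p ^ 2 * M) * (-(2 * γ) + 11 * (r' * d ^ 5 * p)) :=
    mul_le_mul_of_nonneg_left (by linarith) hpM
  have e6 : (p ^ 2 * M) * (-(2 * γ) + 11 * (r' * d ^ 5 * p)) +
      64 * (r' * d ^ 5 * p) * (p ^ 2 * M) =
      (p ^ 2 * M) * (-(2 * γ) + 75 * (r' * d ^ 5 * p)) := by ring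
  have e7 : (p ^ 2 * M) * (-(2 * γ) + 75 * (r' * d ^ 5 * p)) ≤ (p ^ 2 * M) * (-γ) :=
    mul_le_mul_of_nonneg_left (by linarith) hpM
  have e8 : γ * p ^ 2 / 2 * N ≤ (p ^ 2 * M) * γ := by
    have h1 : 0 ≤ γ * p ^ 2 / 2 := by positivity
    have h2 := mul_le_mul_of_nonneg_left hNM h1
    have h3 : γ * p ^ 2 / 2 * (2 * M) = (p ^ 2 * M) * γ := by ring
    linarith
  linarith

/-- [RlE] -/
theorem thm_RlE : St_RlE := by
  intro d r r' γ ε hd hr' hγ hγ1 hε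
  have hd1 : (1 : ℝ) ≤ d := by exact_mod_cast hd
  have hr1 : (1 : ℝ) ≤ r' := by exact_mod_cast hr'
  have hd51 : (1 : ℝ) ≤ (d : ℝ) ^ 5 := one_le_pow₀ hd1
  have hrd : (1 : ℝ) ≤ r' * (d : ℝ) ^ 5 := one_le_mul_of_one_le_of_one_le hr1 hd51
  obtain ⟨p, hp⟩ : ∃ p : ℝ, p = γ / (75 * (r' * (d : ℝ) ^ 5)) := ⟨_, rfl⟩
  have hu : 75 * (r' * (d : ℝ) ^ 5 * p) = γ := by
    rw [hp]
    field_simp
  have hp0 : 0 < p := by
    rw [hp]
    positivity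
  have hpu : p ≤ r' * (d : ℝ) ^ 5 * p := by
    have h := mul_le_mul_of_nonneg_right hrd hp0.le
    rwa [one_mul] at h
  have hps : p ≤ 1 / 150 := by linarith
  have hd3 : (d : ℝ) ^ 3 ≤ (d : ℝ) ^ 5 := pow_le_pow_right₀ hd1 (by norm_num)
  have hd15 : (d : ℝ) ≤ (d : ℝ) ^ 5 := by
    have h1 : (d : ℝ) ^ 1 ≤ (d : ℝ) ^ 5 := pow_le_pow_right₀ hd1 (by norm_num)
    rwa [pow_one] at h1
  have hdp : (d : ℝ) ^ 5 * p ≤ r' * (d : ℝ) ^ 5 * p := by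
    have h1 : (0 : ℝ) ≤ (d : ℝ) ^ 5 * p := by positivity
    have h2 : 1 * ((d : ℝ) ^ 5 * p) ≤ r' * ((d : ℝ) ^ 5 * p) := mul_le_mul_of_nonneg_right hr1 h1
    have h3 : r' * ((d : ℝ) ^ 5 * p) = r' * (d : ℝ) ^ 5 * p := by ring
    linarith
  obtain ⟨κ, hκ⟩ : ∃ κ : ℝ, κ = γ * p ^ 2 / 4 := ⟨_, rfl⟩
  have hκ0 : 0 < κ := by
    rw [hκ]
    positivity
  obtain ⟨c, hc⟩ : ∃ c : ℝ, c = min ε (κ / (r + 2)) := ⟨_, rfl⟩
  have hc0 : 0 < c := by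
    rw [hc]
    exact lt_min hε (by positivity)
  have hcε : c ≤ ε := by
    rw [hc]
    exact min_le_left _ _
  have hcr : c * (r + 2) ≤ κ := by
    have h1 : c ≤ κ / (r + 2) := by
      rw [hc]
      exact min_le_right _ _
    have h2 : (0 : ℝ) < r + 2 := by positivity
    rwa [le_div_iff₀ h2] at h1
  obtain ⟨D, hD⟩ : ∃ D : ℝ, D = 2 * (2 * 4 ^ r) ^ r := ⟨_, rfl⟩
  refine ⟨p, c, ⌈D / κ⌉₊, hp0, by linarith, hc0, hcε, ?_, ?_⟩
  · refine ⟨hd, hr', hp0, ?_, ?_⟩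
    · have h1 : 8 * p * (d : ℝ) * ((d : ℝ) ^ 2 + 1) = 8 * (((d : ℝ) ^ 3 + d) * p) := by ring
      have h2 : ((d : ℝ) ^ 3 + d) * p ≤ 2 * ((d : ℝ) ^ 5 * p) := by
        have h3 : ((d : ℝ) ^ 3 + d) * p ≤ (2 * (d : ℝ) ^ 5) * p :=
          mul_le_mul_of_nonneg_right (by linarith) hp0.le
        have h4 : (2 * (d : ℝ) ^ 5) * p = 2 * ((d : ℝ) ^ 5 * p) := by ring
        linarith
      rw [h1]
      linarith
    · have h1 : 5 * (d : ℝ) * r' * p = 5 * (d * (r' * p)) := by ring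
      have h2 : (d : ℝ) * (r' * p) ≤ (d : ℝ) ^ 5 * (r' * p) :=
        mul_le_mul_of_nonneg_right hd15 (by positivity)
      have h3 : (d : ℝ) ^ 5 * (r' * p) = r' * (d : ℝ) ^ 5 * p := by ring
      rw [h1]
      linarith
  intro N hN M hNM s hs0 hs
  have hN0 : (0 : ℝ) ≤ N := Nat.cast_nonneg N
  have hM0 : (0 : ℝ) ≤ M := Nat.cast_nonneg M
  have hNMr : (N : ℝ) ≤ 2 * M := by exact_mod_cast hNM
  have hDn : D ≤ Real.exp (κ * N) := by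
    have h1 : D / κ ≤ N := (Nat.le_ceil _).trans (by exact_mod_cast hN)
    rw [div_le_iff₀ hκ0] at h1
    have h3 := Real.add_one_le_exp (κ * N)
    linarith
  obtain ⟨W, hW⟩ : ∃ W : ℝ, W = (2 : ℝ) ^ (c * N) := ⟨_, rfl⟩
  rw [← hW] at hs ⊢
  have hcn : 0 ≤ c * N := by positivity
  have hW1 : 1 ≤ W := by
    rw [hW]
    exact Real.one_le_rpow (by norm_num) hcn
  have hW0 : 0 < W := by linarith
  have hWe : W ≤ Real.exp (c * N) := by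
    rw [hW, Real.rpow_def_of_pos (by norm_num)]
    apply Real.exp_le_exp.2
    have h1 : Real.log 2 ≤ 1 := by
      have := Real.log_le_sub_one_of_pos (show (0 : ℝ) < 2 by norm_num)
      linarith
    nlinarith
  have hWr : W ^ (r + 2) ≤ Real.exp (κ * N) := by
    calc W ^ (r + 2) ≤ Real.exp (c * N) ^ (r + 2) := pow_le_pow_left₀ hW0.le hWe _
      _ = Real.exp (c * (r + 2) * N) := by
        rw [← Real.exp_nat_mul]
        congr 1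
        push_cast
        ring
      _ ≤ Real.exp (κ * N) := Real.exp_le_exp.2 (mul_le_mul_of_nonneg_right hcr hN0)
  obtain ⟨T, hTd⟩ : ∃ T : ℝ, T = (2 * 4 ^ r * s) ^ r * W + 1 := ⟨_, rfl⟩
  rw [← hTd]
  have hT0 : 0 ≤ T := by
    rw [hTd]
    positivity
  have hT : T ≤ D * W ^ (r + 1) := by
    rw [hTd]
    have h1 : (2 * 4 ^ r * s) ^ r ≤ (2 * 4 ^ r * W) ^ r :=
      pow_le_pow_left₀ (by positivity) (mul_le_mul_of_nonneg_left hs (by positivity)) _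
    have h2 : (2 * 4 ^ r * W) ^ r = (2 * 4 ^ r) ^ r * W ^ r := mul_pow _ _ _
    have h4 : (1 : ℝ) ≤ 2 * 4 ^ r := by
      have : (1 : ℝ) ≤ 4 ^ r := one_le_pow₀ (by norm_num)
      linarith
    have h5 : (2 * 4 ^ r * s) ^ r * W ≤ (2 * 4 ^ r) ^ r * W ^ (r + 1) := by
      have h6 := mul_le_mul_of_nonneg_right (h1.trans_eq h2) hW0.le
      rw [pow_succ, ← mul_assoc]
      exact h6
    have h7 : (1 : ℝ) ≤ (2 * 4 ^ r) ^ r * W ^ (r + 1) :=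
      one_le_mul_of_one_le_of_one_le (one_le_pow₀ h4) (one_le_pow₀ hW1)
    rw [hD]
    linarith
  have hTW : T * W ≤ Real.exp (γ * p ^ 2 / 2 * N) := by
    calc T * W ≤ D * W ^ (r + 1) * W := mul_le_mul_of_nonneg_right hT hW0.le
      _ = D * W ^ (r + 2) := by ring
      _ ≤ Real.exp (κ * N) * Real.exp (κ * N) :=
        mul_le_mul hDn hWr (by positivity) (Real.exp_pos _).le
      _ = Real.exp (γ * p ^ 2 / 2 * N) := by
        rw [← Real.exp_add, hκ]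
        congr 1
        ring
  have hp2 : p ^ 2 ≤ 1 / 2 := by nlinarith
  have hQ : Real.exp (-(M * (p ^ 2 + p ^ 4))) ≤ (1 - p ^ 2) ^ M := by
    have h1 := RlE_exp (p ^ 2) (by positivity) hp2
    calc Real.exp (-(M * (p ^ 2 + p ^ 4))) = Real.exp (-(p ^ 2 + (p ^ 2) ^ 2)) ^ M := by
          rw [← Real.exp_nat_mul]
          congr 1
          ring
      _ ≤ _ := pow_le_pow_left₀ (Real.exp_pos _).le h1 _
  have hE : Real.exp (-(2 * p ^ 2 * (1 - 5 * d * r' * p)) * ((1 / 2 + γ) * M) +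
      32 * r' * p ^ 3 * d ^ 5 * N) ≤
      Real.exp (-(γ * p ^ 2 / 2 * N)) * Real.exp (-(M * (p ^ 2 + p ^ 4))) := by
    rw [← Real.exp_add]
    exact Real.exp_le_exp.2
      (RlE_exponent hd1 hr1 hγ hγ1 hp0 (by linarith) hu.le hN0 hNMr)
  have hneg : (2 : ℝ) ^ (-(c * N)) = W⁻¹ := by
    rw [hW, Real.rpow_neg (by norm_num)]
  rw [hneg]
  obtain ⟨Q, hQd⟩ : ∃ Q : ℝ, Q = (1 - p ^ 2) ^ M := ⟨_, rfl⟩
  rw [← hQd] at hQ ⊢
  have hQ0 : 0 ≤ Q := (Real.exp_pos _).le.trans hQ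
  refine (mul_le_mul_of_nonneg_left
    (hE.trans (mul_le_mul_of_nonneg_left hQ (Real.exp_pos _).le)) hT0).trans ?_
  have h1 : T * (Real.exp (-(γ * p ^ 2 / 2 * N)) * Q) =
      W⁻¹ * (T * W * Real.exp (-(γ * p ^ 2 / 2 * N))) * Q := by
    field_simp
  have h2 : T * W * Real.exp (-(γ * p ^ 2 / 2 * N)) ≤ 1 := by
    rw [Real.exp_neg, ← div_eq_mul_inv, div_le_one (Real.exp_pos _)]
    exact hTW
  rw [h1]
  refine mul_le_mul_of_nonneg_right ?_ hQ0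
  have h3 := mul_le_mul_of_nonneg_left h2 (inv_nonneg.2 hW0.le)
  rwa [mul_one] at h3

end DSU
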