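import Pool.Agent.DSU.St2

/-!
# Module SplE: the sign of a graph and a numbering of parts (helper56; after `DSD/Spl.lean`, helper12)
-/

set_option autoImplicit false
set_option linter.unusedSectionVars false

namespace DSU

open Finset
open DSD (DepOn bv ind Mean ReadOnce Ep Phi Sgn ec Low Loc Par cnt)

section SplE

variable {V : Type} [Fintype V] [DecidableEq V]

/-- the neighbours in parts with smaller numbers -/
def SplE_N (E : Finset (V × V)) (χ : V → ℕ) (u : V) : Finset V :=
  univ.filter fun v => χ v < χ u ∧ ((u, v) ∈ E ∨ (v, u) ∈ E)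

theorem SplE_mem (E : Finset (V × V)) (χ : V → ℕ) (u v : V) :
    v ∈ SplE_N E χ u ↔ χ v < χ u ∧ ((u, v) ∈ E ∨ (v, u) ∈ E) := by
  unfold SplE_N
  simp only [mem_filter, mem_univ, true_and]

/-- the edges between different parts, from the greater number to the smaller one -/
def SplE_F (E : Finset (V × V)) (χ : V → ℕ) : Finset (V × V) :=
  univ.filter fun p => p.2 ∈ SplE_N E χ p.1

theorem SplE_F_eq (E : Finset (V × V)) (χ : V → ℕ) : SplE_F E χ =
    (E.filter fun e => χ e.2 < χ e.1) ∪ (E.filter fun e => χ e.1 < χ e.2).image Prod.swap := by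
  ext ⟨u, v⟩
  unfold SplE_F
  simp only [mem_filter, mem_univ, true_and, mem_union, mem_image, SplE_mem]
  constructor
  · rintro ⟨h, h1 | h1⟩
    · exact Or.inl ⟨h1, h⟩
    · exact Or.inr ⟨(v, u), ⟨h1, h⟩, rfl⟩
  · rintro (⟨h1, h⟩ | ⟨⟨a, b⟩, ⟨h1, h⟩, h2⟩)
    · exact ⟨h, Or.inl h1⟩
    · obtain ⟨rfl, rfl⟩ := Prod.mk.inj h2
      exact ⟨h, Or.inr h1⟩

theorem SplE_disj (E : Finset (V × V)) (χ : V → ℕ) (hE : OE E) :
    Disjoint (E.filter fun e => χ e.2 < χ e.1)
      ((E.filter fun e => χ e.1 < χ e.2).image Prod.swap) := by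
  rw [Finset.disjoint_left]
  rintro ⟨u, v⟩ h1 h2
  obtain ⟨⟨a, b⟩, h3, h4⟩ := mem_image.1 h2
  obtain ⟨rfl, rfl⟩ := Prod.mk.inj h4
  exact (hE _ (mem_filter.1 h1).1).2 (mem_filter.1 h3).1

theorem SplE_prod (E : Finset (V × V)) (χ : V → ℕ) (hE : OE E) (g : V → V → ℝ) :
    ∏ u, ∏ v ∈ SplE_N E χ u, g u v =
      (∏ e ∈ E.filter (fun e => χ e.2 < χ e.1), g e.1 e.2) *
      ∏ e ∈ E.filter (fun e => χ e.1 < χ e.2), g e.2 e.1 := by
  have h1 : ∏ p ∈ SplE_F E χ, g p.1 p.2 = ∏ u, ∏ v ∈ SplE_N E χ u, g u v :=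
    Finset.prod_finset_product (SplE_F E χ) univ (SplE_N E χ) (fun p => by
      unfold SplE_F
      simp only [mem_filter, mem_univ, true_and]) (f := fun p => g p.1 p.2)
  rw [← h1, SplE_F_eq, Finset.prod_union (SplE_disj E χ hE),
    Finset.prod_image (fun a _ b _ h => Prod.swap_injective h)]
  rfl

theorem SplE_sum (E : Finset (V × V)) (χ : V → ℕ) (hE : OE E) :
    ∑ u, (SplE_N E χ u).card =
      (E.filter (fun e => χ e.2 < χ e.1)).card + (E.filter (fun e => χ e.1 < χ e.2)).card := by
  have h1 : ∑ p ∈ SplE_F E χ, 1 = ∑ u, ∑ v ∈ SplE_N E χ u, 1 :=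
    Finset.sum_finset_product (SplE_F E χ) univ (SplE_N E χ) (fun p => by
      unfold SplE_F
      simp only [mem_filter, mem_univ, true_and]) (f := fun _ => 1)
  simp only [← Finset.card_eq_sum_ones] at h1
  rw [← h1, SplE_F_eq, Finset.card_union_of_disjoint (SplE_disj E χ hE),
    Finset.card_image_of_injective _ Prod.swap_injective]

theorem SplE_low (E : Finset (V × V)) (χ : V → ℕ) (d : ℕ) (hE : OE E)
    (h1 : ∀ v, (E.filter fun e => e.1 = v ∨ e.2 = v).card ≤ d) : Low χ (SplE_N E χ) d := by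
  refine ⟨?_, ?_⟩
  · intro u v hv
    rw [SplE_mem] at hv
    exact hv.1
  · intro v
    rw [← Finset.card_union_of_disjoint]
    · refine (Finset.card_le_card ?_).trans ((Finset.card_image_le
        (s := E.filter fun e => e.1 = v ∨ e.2 = v)
        (f := fun e => if e.1 = v then e.2 else e.1)).trans (h1 v))
      intro w hw
      have hw' : (v, w) ∈ E ∨ (w, v) ∈ E := by
        rw [mem_union, SplE_mem, mem_filter, SplE_mem] at hw
        rcases hw with ⟨-, h⟩ | ⟨-, -, h⟩
        · exact h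
        · exact h.symm
      rw [mem_image]
      rcases hw' with h | h
      · exact ⟨(v, w), mem_filter.2 ⟨h, Or.inl rfl⟩, if_pos rfl⟩
      · exact ⟨(w, v), mem_filter.2 ⟨h, Or.inr rfl⟩, if_neg (hE _ h).1⟩
    · rw [Finset.disjoint_left]
      intro w hw hw'
      rw [SplE_mem] at hw
      rw [mem_filter, SplE_mem] at hw'
      exact absurd hw.1 (not_lt.2 hw'.2.1.le)

/-- the sign of one edge -/
def SplE_s (x : V → Bool) (u v : V) : ℝ := if x u = true ∧ x v = true then -1 else 1

theorem SplE_s_comm (x : V → Bool) (u v : V) : SplE_s x u v = SplE_s x v u := by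
  unfold SplE_s
  simp only [and_comm]

theorem SplE_pow (x : V → Bool) (u : V) (N : Finset V) :
    (if x u = true then (-1 : ℝ) ^ cnt N x else 1) = ∏ v ∈ N, SplE_s x u v := by
  unfold cnt SplE_s
  by_cases hu : x u = true
  · simp only [hu, if_true, true_and]
    rw [Finset.prod_ite, Finset.prod_const, Finset.prod_const_one, mul_one]
  · rw [if_neg hu]
    symm
    apply Finset.prod_eq_one
    intro v _
    rw [if_neg (fun h => hu h.1)]

/-- the sign of the edges inside the part `i` -/
def SplE_h (E : Finset (V × V)) (χ : V → ℕ) (i : ℕ) (x : V → Bool) : ℝ :=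
  ∏ e ∈ E.filter (fun e => χ e.1 = i ∧ χ e.2 = i), SplE_s x e.1 e.2

theorem SplE_loc (E : Finset (V × V)) (χ : V → ℕ) : Loc χ (SplE_h E χ) := by
  intro i
  refine ⟨?_, ?_⟩
  · intro x y hxy
    unfold SplE_h
    apply Finset.prod_congr rfl
    intro e he
    obtain ⟨-, h1, h2⟩ := mem_filter.1 he
    have e1 := hxy e.1 (mem_filter.2 ⟨mem_univ _, h1⟩)
    have e2 := hxy e.2 (mem_filter.2 ⟨mem_univ _, h2⟩)
    unfold SplE_s
    rw [e1, e2]
  · intro x
    unfold SplE_h
    rw [Finset.abs_prod]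
    apply le_of_eq
    apply Finset.prod_eq_one
    intro e _
    unfold SplE_s
    by_cases h : x e.1 = true ∧ x e.2 = true
    · rw [if_pos h, abs_neg, abs_one]
    · rw [if_neg h, abs_one]

theorem SplE_fiber (E : Finset (V × V)) (χ : V → ℕ) (i : ℕ) :
    (E.filter fun e => χ e.1 = i ∧ χ e.2 = i) =
      (E.filter fun e => χ e.1 = χ e.2).filter fun e => χ e.1 = i := by
  ext e
  simp only [mem_filter]
  constructor
  · rintro ⟨h, h1, h2⟩
    exact ⟨⟨h, h1.trans h2.symm⟩, h1⟩
  · rintro ⟨⟨h, h1⟩, h2⟩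
    exact ⟨h, h2, h1.symm.trans h2⟩

end SplE

theorem thm_SplE : St_SplE := by
  intro V _ _ E d r χ hE h1 hr
  have hfil : (univ.filter fun u => χ u < r) = univ := by
    ext u
    simp only [mem_filter, mem_univ, true_and, iff_true]
    exact hr u
  refine ⟨SplE_N E χ, SplE_h E χ, SplE_low E χ d hE h1, SplE_loc E χ, fun x => ?_, ?_⟩
  · have hS : Sgn χ (SplE_N E χ) r x =
        (∏ e ∈ E.filter (fun e => χ e.2 < χ e.1), SplE_s x e.1 e.2) *
        ∏ e ∈ E.filter (fun e => χ e.1 < χ e.2), SplE_s x e.1 e.2 := by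
      unfold DSD.Sgn
      rw [hfil, Finset.prod_congr rfl fun u _ => SplE_pow x u (SplE_N E χ u), SplE_prod E χ hE]
      congr 1
      exact Finset.prod_congr rfl fun e _ => SplE_s_comm x _ _
    have hH : ∏ i ∈ range r, SplE_h E χ i x =
        ∏ e ∈ E.filter (fun e => χ e.1 = χ e.2), SplE_s x e.1 e.2 := by
      rw [← Finset.prod_fiberwise_of_maps_to (s := E.filter fun e =>
        χ e.1 = χ e.2) (t := range r) (g := fun e => χ e.1) (fun e _ => mem_range.2 (hr _))]
      apply Finset.prod_congr rfl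
      intro i _
      unfold SplE_h
      rw [SplE_fiber]
    have hE' : SgE E x = ∏ e ∈ E, SplE_s x e.1 e.2 := rfl
    rw [hE', hS, hH, ← Finset.prod_filter_mul_prod_filter_not E (fun e => χ e.1 = χ e.2), mul_comm]
    congr 1
    rw [← Finset.prod_filter_mul_prod_filter_not (E.filter fun e =>
      ¬ χ e.1 = χ e.2) (fun e => χ e.2 < χ e.1), Finset.filter_filter, Finset.filter_filter]
    congr 1
    · apply Finset.prod_congr _ fun _ _ => rfl
      ext e
      simp only [mem_filter]
      constructor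
      · rintro ⟨h, -, h3⟩
        exact ⟨h, h3⟩
      · rintro ⟨h, h3⟩
        exact ⟨h, h3.ne', h3⟩
    · apply Finset.prod_congr _ fun _ _ => rfl
      ext e
      simp only [mem_filter]
      constructor
      · rintro ⟨h, h3, h4⟩
        exact ⟨h, lt_of_le_of_ne (not_lt.1 h4) h3⟩
      · rintro ⟨h, h3⟩
        exact ⟨h, h3.ne, not_lt.2 h3.le⟩
  · have hec : ec χ (SplE_N E χ) r univ = ∑ u, (SplE_N E χ u).card := by
      unfold DSD.ec
      rw [hfil]
      exact Finset.sum_congr rfl fun u _ => by rw [Finset.inter_univ]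
    have hH : ∑ i ∈ range r, (E.filter fun e => χ e.1 = i ∧ χ e.2 = i).card =
        (E.filter fun e => χ e.1 = χ e.2).card := by
      rw [Finset.card_eq_sum_card_fiberwise (s := E.filter fun e =>
        χ e.1 = χ e.2) (t := range r) (f := fun e => χ e.1)
        (fun e _ => mem_coe.2 (mem_range.2 (hr _)))]
      exact Finset.sum_congr rfl fun i _ => by rw [SplE_fiber]
    rw [hec, SplE_sum E χ hE, hH, ← Finset.card_union_of_disjoint, ← Finset.card_union_of_disjoint]
    · apply Finset.card_le_card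
      intro e he
      rw [mem_union, mem_union, mem_filter, mem_filter, mem_filter]
      rcases lt_trichotomy (χ e.1) (χ e.2) with h | h | h
      · exact Or.inl (Or.inr ⟨he, h⟩)
      · exact Or.inr ⟨he, h⟩
      · exact Or.inl (Or.inl ⟨he, h⟩)
    · rw [Finset.disjoint_left]
      intro e he he'
      have h3 := (mem_filter.1 he').2
      rcases mem_union.1 he with h | h
      · exact (mem_filter.1 h).2.ne' h3
      · exact (mem_filter.1 h).2.ne h3
    · rw [Finset.disjoint_left]
      intro e he he'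
      exact absurd (mem_filter.1 he).2 (not_lt.2 (mem_filter.1 he').2.le)

end DSU
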