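import Pool.Agent.DSU.Fin2
import Pool.Agent.DSU.RO
import Pool.Agent.DSU.Lic
import Pool.Agent.DSU.Red
import Pool.Agent.DSU.Sub
import Pool.Agent.DSU.One
import Pool.Agent.DSU.Dcp
import Pool.Agent.DSU.Nrm
import Pool.Agent.DSU.Ori
import Pool.Agent.DSU.ConE
import Pool.Agent.DSU.CorE
import Pool.Agent.DSU.SplE
import Pool.Agent.DSU.HarE
import Pool.Agent.DSU.RlE
import Pool.Agent.DSU.GrE
import Pool.Agent.DSD.Exs
import Pool.Agent.DSD.Ker
import Pool.Agent.DSD.Def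
import Pool.Agent.DSD.CSq
import Pool.Agent.DSD.Cls
import Pool.Agent.DSD.Pre
import Pool.Agent.DSD.Cnt
import Pool.Agent.DSD.Psi
import Pool.Agent.DSD.Dis
import Pool.Agent.DSD.Gra
import Pool.Agent.DSD.Prt

set_option autoImplicit false

namespace DSU

open DSD

/-- The discrepancy bound. -/
private theorem main2_dis : DSD.St_Dis :=
  DSD.thm_Dis DSD.thm_Ker DSD.thm_Def DSD.thm_CSq (DSD.thm_Psi DSD.thm_Cls DSD.thm_Pre DSD.thm_Cnt)

theorem main2 : Main2 :=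
  thm_Fin2 thm_RO thm_Lic thm_Red DSD.thm_Exs thm_Sub thm_Ori
    (thm_ConE (thm_CorE main2_dis thm_SplE DSD.thm_Prt) (thm_Dcp thm_One) thm_Nrm thm_HarE thm_RlE)
    (thm_GrE DSD.thm_Gra)

end DSU
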