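import Pool.Agent.DSU.Defs
import Pool.Agent.DSD.St

/-!
# Version with subtraction and unions of conjunctive queries: statements of the modules

Conventions: the module `[X]` is a file `Pool/Agent/DSU/X.lean` with `theorem thm_X ... : St_X` in the
namespace `DSU`; auxiliary lemmas private, or prefixed by `X_`. Most modules are modifications of the
module with the same name in `Pool/Agent/DSD`.
-/

set_option autoImplicit false

namespace DSU

open Finset
open DSD (DepOn bv ind Mean ReadOnce Ep Phi Sg Par)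

/-! ### Queries -/

/-- [RO] The lineages of hierarchical queries without self-joins are read-once (as `DSD.thm_RO`, with the relations instead
of the numbers of the atoms). -/
def St_RO : Prop :=
  ∀ q : CQ, SJF q → Hier q → ∀ D : Finset Fact, ∃ S ⊆ D, ReadOnce S (lin {q} D)

/-- [Lic] Read-once functions have d-DNNFs of linear size, together with their negations.
PROOF. Induction on `ReadOnce` with the bound `8 * S.card - 3` if `S` is not empty; if `S = ∅` the function is constant: 2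
gates. Variables: the 2 leaves `x`, `1 - x`. `f ∧ g` with both sets not empty: `f g` and `(1 - f) + f (1 - g)`, so 3 new gates
(`8 s - 3 + 8 t - 3 + 3 ≤ 8 (s + t) - 3`); `f ∨ g`: the same for the negations. If one of the two sets is empty that function
is constant, and the result is the other function or a constant. All gates have the values `0`, `1` and `a = f`. -/
def St_Lic : Prop :=
  ∀ (V : Type) [DecidableEq V] (S : Finset V) (f : (V → Bool) → Bool), ReadOnce S f →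
    ∃ L : List (Gate V), Circ 1 L ∧ DetCirc L ∧ L.length ≤ 8 * S.card + 2 ∧
      (∃ g ∈ L, ∀ x, g.f x = bv (f x)) ∧ ∃ g ∈ L, ∀ x, g.f x = 1 - bv (f x)

/-- [Red] A reduced union of conjunctive queries with a disjunct `q` which is not hierarchical contains the 2-DNF of every
bipartite graph; its lineage there is a DNF with at most `E.card` terms.
PROOF. Variables `y`, `z` and atoms `AR`, `AS`, `AT` of `q`: `y` in `AR`, `AS`, not in `AT`; `z` in `AS`, `AT`, not in `AR`. Let `M` be larger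
than all constants in atoms of disjuncts of `Q`, `enc : K → ℕ` injective, `cw w = M + 3 w`, `cl a = M + 3 enc a + 1`,
`cr b = M + 3 enc b + 2`; `θ a b` the valuation with `y ↦ cl a`, `z ↦ cr b`, `w ↦ cw w` for the other variables; `D` the set of all
`A.fact (θ a b)`, `A ∈ q`, `(a, b) ∈ E`; `ι (inl a) = AR.fact (θ a _)`, `ι (inr b) = AT.fact (θ _ b)`; `T` the sets
`t a b = {A.fact (θ a b) | A ∈ q}`, `(a, b) ∈ E`. Let `π : ℕ → ℕ ⊕ ℕ` be `cl a ↦ inl y`, `cr b ↦ inl z`, `cw w ↦ inl w`, `c ↦ inr c` for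
`c < M` (everything `≥ M` not of these forms arbitrary); so `π (θ a b v) = inl v`, and `π` of the fact `A.fact (θ a b)` is `A`;
in particular different atoms give different facts. Let `θ'` be a valuation for `q' ∈ Q` with all facts in `D`, and
`h v = π (θ' v)`. If `A ∈ q'` and `A.fact θ' = B.fact (θ a b)`, `B ∈ q`, then applying `π` to the tuples gives `A.sub h = B` (the
constants of `A` are `< M`). So `h` maps the atoms of `q'` to atoms of `q`, and by `Reduced`, `q' = q` and `A ↦ A.sub h` is an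
injective map of the finite set `q` to itself; some power `N ≥ 1` is the identity. With `τ = Sum.elim h inr` on the terms,
`τ^[N]` fixes all terms in the atoms of `q`, so `τ` is injective on them: there is at most one variable `vy` in `q` with
`h vy = inl y`, at most one `vz` with `h vz = inl z`. For `A ∈ q` let `A' ∈ q` with `A'.sub h = A`; then `A'.fact θ' = A.fact (θ a b)` for
some `(a, b) ∈ E`; if `y ∈ A` then `cl a = θ' vy`, if `z ∈ A` then `cr b = θ' vz`. `AS` gives `(a, b) ∈ E` with `cl a = θ' vy`,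
`cr b = θ' vz`, and all facts `A.fact (θ a b)`, `A ∈ q`, are among the facts of `θ'` (for the other `A` the fact does not depend
on the missing coordinates). This gives the DNF, and `Phi E x = 1` if the facts `ι (inl a)`, `ι (inr b)` are present. The other
direction is the valuation `θ a b` (facts outside the range of `ι` are never missing; those in the range: `AR`, `AT` only, as
different atoms give different facts). -/
def St_Red : Prop :=
  ∀ Q : UCQ, Reduced Q → ∀ q ∈ Q, ¬ Hier q →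
    ∀ (K : Type) [Fintype K] [DecidableEq K] (E : Finset (K × K)),
    (∀ a, ∃ b, (a, b) ∈ E) → (∀ b, ∃ a, (a, b) ∈ E) →
    ∃ (D : Finset Fact) (ι : K ⊕ K → Fact) (T : Finset (Finset Fact)),
      Function.Injective ι ∧ (∀ v, ι v ∈ D) ∧ D.card ≤ q.card * E.card ∧ T.card ≤ E.card ∧
      (∀ t ∈ T, t.card ≤ q.card) ∧
      (∀ x : Fact → Bool, lin Q D x = true ↔ ∃ t ∈ T, ∀ f ∈ t, x f = true) ∧
      ∀ x : K ⊕ K → Bool,
        bv (lin Q D (ind (D \ (univ.filter fun v => x v = false).image ι))) = Phi E x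

/-- [Sub] as `DSD.thm_Sub` -/
def St_Sub : Prop :=
  ∀ (V W : Type) [DecidableEq V] [DecidableEq W] (ι : V → W) (ρ : (V → Bool) → (W → Bool)) (k : ℕ)
    (L : List (Gate W)), Function.Injective ι → (∀ x v, ρ x (ι v) = x v) →
    (∀ w, (∀ v, ι v ≠ w) → ∀ x y, ρ x w = ρ y w) → Circ k L →
    ∃ L' : List (Gate V), L'.length = L.length ∧ Circ k L' ∧
      ∀ g ∈ L, ∃ g' ∈ L', ∀ x, g'.f x = g.f (ρ x) ∧ g'.a x = g.a (ρ x)

/-! ### Decomposition of circuits -/

/-- [One] One step (as `DSD.thm_One`; for a linear combination `α h + β h'` the contexts are the same linear combination, and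
the context of a light child of such a gate is the leaf `⟨∅, α, |α|⟩`). -/
def St_One : Prop :=
  ∀ (V : Type) [DecidableEq V] (k m : ℕ) (L : List (Gate V)), Circ k L → k ≤ m →
    ∀ g ∈ L, m < g.vars.card →
    ∃ E : List (Gate V × Gate V × List (Gate V)), E.length ≤ 2 * L.length ∧
      (∀ e ∈ E, Circ k e.2.2 ∧ e.2.2.length ≤ 4 * L.length ∧ e.2.1 ∈ e.2.2 ∧ e.1.vars.card ≤ m ∧
        DepOn e.1.f e.1.vars ∧ DepOn e.1.a e.1.vars ∧ (∀ x, |e.1.f x| ≤ e.1.a x) ∧
        Disjoint e.1.vars e.2.1.vars ∧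
        e.1.vars ⊆ g.vars ∧ e.2.1.vars ⊆ g.vars ∧ 2 * e.2.1.vars.card + m ≤ 2 * g.vars.card) ∧
      ∀ x, g.f x = (E.map fun e => e.1.f x * e.2.1.f x).sum ∧
        g.a x = (E.map fun e => e.1.a x * e.2.1.a x).sum

/-- [Dcp] (from `St_One`) Iteration (as `DSD.thm_Dcp`; every gate satisfies `DepOn f`, `DepOn a`, `|f| ≤ a`). -/
def St_Dcp : Prop :=
  ∀ (V : Type) [DecidableEq V] (k m r : ℕ) (L : List (Gate V)), Circ k L → k ≤ m → 1 ≤ m →
    ∀ g ∈ L, 2 * g.vars.card ≤ r * m →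
    Prods g.vars m (r + 1) ((2 * 4 ^ r * L.length) ^ r) g.f g.a

/-- [Nrm] Normalisation of the terms.
PROOF. For each term let `μ i = max b_i`. If some `μ i = 0` the term is `0`. Otherwise the factors `g_i / μ i` have values in
`[-1, 1]` and `∏ μ i = max ∏ b_i` (disjoint variables) `≤ max a ≤ B`. -/
def St_Nrm : Prop :=
  ∀ (V : Type) [Fintype V] [DecidableEq V] (π : V → ℝ) (S : Finset V) (m r T : ℕ)
    (f a : (V → Bool) → ℝ) (B : ℝ), Prods S m r T f a → (∀ x, a x ≤ B) → 0 ≤ B →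
    ∀ (σ : (V → Bool) → ℝ) (M : ℝ), 0 ≤ M →
    (∀ (A : Fin r → Finset V) (h : Fin r → (V → Bool) → ℝ),
      (∀ i, (A i).card ≤ m ∧ DepOn (h i) (A i) ∧ ∀ x, |h i x| ≤ 1) →
      (∀ i j, i ≠ j → Disjoint (A i) (A j)) → |Ep π fun x => σ x * ∏ i, h i x| ≤ M) →
    |Ep π fun x => σ x * f x| ≤ T * B * M

/-- [Cor] (from `DSD.St_Dis`, `DSD.St_Spl`, `DSD.St_Prt`) as `DSD.thm_Cor`, with signed functions -/
def St_Cor : Prop :=
  ∀ (n m r r' : ℕ) (p : ℝ) (E : Finset ((Fin 16 × Fin n) × (Fin 16 × Fin n))), 1 ≤ m →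
    Par 16 r' p → r + 32 * n / m + 1 ≤ r' → E.card = 256 * n →
    (∀ a, (E.filter fun e => e.1 = a).card = 16) → (∀ b, (E.filter fun e => e.2 = b).card = 16) →
    (∀ X : Finset ((Fin 16 × Fin n) ⊕ (Fin 16 × Fin n)), X.card ≤ m →
      (E.filter fun e => Sum.inl e.1 ∈ X ∧ Sum.inr e.2 ∈ X).card ≤ 2 * X.card) →
    ∀ (A : Fin r → Finset ((Fin 16 × Fin n) ⊕ (Fin 16 × Fin n)))
      (h : Fin r → ((Fin 16 × Fin n) ⊕ (Fin 16 × Fin n) → Bool) → ℝ),
      (∀ i, (A i).card ≤ m ∧ DepOn (h i) (A i) ∧ ∀ x, |h i x| ≤ 1) →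
      (∀ i j, i ≠ j → Disjoint (A i) (A j)) →
      |Ep (fun _ => p) fun x => Sg E x * ∏ i, h i x| ≤
        Real.exp (-(2 * p ^ 2 * (1 - 80 * r' * p)) * (192 * n) + 32 * r' * p ^ 3 * 16 ^ 5 * (32 * n))

/-- [Con] (from `St_Cor`, `St_Dcp`, `St_Nrm`, `DSD.St_Har`, `DSD.St_Gra`) as `DSD.thm_Con`, with the budget `2 ^ (c * n)` for
the value with positive signs: the error is `(T * 2 ^ (c n) + 1) M`. -/
def St_Con : Prop :=
  ∃ (p c : ℝ) (n₀ : ℕ), 0 < p ∧ p < 1 ∧ 0 < c ∧ ∀ n : ℕ, n₀ ≤ n →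
    ∃ E : Finset ((Fin 16 × Fin n) × (Fin 16 × Fin n)), E.card = 256 * n ∧
      (∀ a, ∃ b, (a, b) ∈ E) ∧ (∀ b, ∃ a, (a, b) ∈ E) ∧
      0 < (Ep (fun _ => p) fun x => 1 - Phi E x) ∧
      ∀ (k : ℕ) (L : List (Gate ((Fin 16 × Fin n) ⊕ (Fin 16 × Fin n)))), (k : ℝ) ≤ max 1 (c * n) →
        Circ k L → (L.length : ℝ) ≤ 2 ^ (c * n) → ∀ g ∈ L, (∀ x, g.a x ≤ 2 ^ (c * n)) →
        (1 - 2 ^ (-(c * n))) * (Ep (fun _ => p) fun x => 1 - Phi E x) ≤
          (Ep (fun _ => p) fun x => |g.f x - Phi E x|) ∧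
        (1 - 2 ^ (-(c * n))) * (Ep (fun _ => p) fun x => 1 - Phi E x) ≤
          (Ep (fun _ => p) fun x => |g.f x - (1 - Phi E x)|)

/-! ### The theorem -/

/-- The theorem. -/
def Main : Prop :=
  (∀ q : CQ, SJF q → Reduced {q} ∧ (Hier q → ∀ D : Finset Fact, (∃ S ⊆ D, ReadOnce S (lin {q} D)) ∧
    ∃ L : List (Gate Fact), Circ 1 L ∧ DetCirc L ∧ L.length ≤ 8 * D.card + 2 ∧
      (∃ g ∈ L, ∀ x, g.f x = bv (lin {q} D x)) ∧ ∃ g ∈ L, ∀ x, g.f x = 1 - bv (lin {q} D x))) ∧
  ∃ p c C : ℝ, 0 < p ∧ p < 1 ∧ 0 < c ∧ ∀ n : ℕ, 1 ≤ n →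
    (∃ (K : Type) (_ : Fintype K) (_ : DecidableEq K) (E : Finset (K × K)),
      (Fintype.card K : ℝ) ≤ C * n ∧ (E.card : ℝ) ≤ C * n ∧
      0 < (Ep (fun _ : K ⊕ K => p) fun x => 1 - Phi E x) ∧
      Hard (Ep fun _ : K ⊕ K => p) (Phi E) (fun _ => True) (c * n)) ∧
    ∀ Q : UCQ, Reduced Q → ∀ q ∈ Q, ¬ Hier q →
      ∃ (D : Finset Fact) (t : Fact → ℝ) (T : Finset (Finset Fact)),
        (D.card : ℝ) ≤ C * q.card * n ∧ (∀ f ∈ D, t f = p ∨ t f = 1) ∧
        ((T.card : ℝ) ≤ C * n ∧ (∀ s ∈ T, s.card ≤ q.card) ∧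
          ∀ x : Fact → Bool, lin Q D x = true ↔ ∃ s ∈ T, ∀ f ∈ s, x f = true) ∧
        0 < (Mean D t fun x => 1 - bv (lin Q D x)) ∧
        Hard (Mean D t) (fun x => bv (lin Q D x)) (fun x => ∃ W ⊆ D, x = ind W) (c * n)

end DSU
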