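import Pool.Agent.DSU.St

/-!
# Version for all graphs where small sets span few edges: statements of the modules

Conventions as in `Pool/Agent/DSU/St.lean`; namespace `DSU`.
-/

set_option autoImplicit false

namespace DSU

open Finset
open DSD (DepOn bv ind Mean ReadOnce Ep Phi Sgn ec Low Loc Par)

section

variable {V : Type} [Fintype V] [DecidableEq V]

/-! ### Oriented edges -/

/-- every edge is listed in one orientation, no loops -/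
def OE (E : Finset (V × V)) : Prop := ∀ e ∈ E, e.1 ≠ e.2 ∧ (e.2, e.1) ∉ E

/-- some edge has both ends true -/
def PhE (E : Finset (V × V)) (x : V → Bool) : ℝ :=
  if ∃ e ∈ E, x e.1 = true ∧ x e.2 = true then 1 else 0

/-- the sign of the number of edges with both ends true -/
def SgE (E : Finset (V × V)) (x : V → Bool) : ℝ :=
  ∏ e ∈ E, if x e.1 = true ∧ x e.2 = true then (-1 : ℝ) else 1

/-- the number of edges inside `X` -/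
def ein (E : Finset (V × V)) (X : Finset V) : ℕ := (E.filter fun e => e.1 ∈ X ∧ e.2 ∈ X).card

/-- degrees at most `d`, sets of at most `m` vertices span few edges -/
def Sprd (E : Finset (V × V)) (d m : ℕ) (γ : ℝ) : Prop :=
  (∀ v, (E.filter fun e => e.1 = v ∨ e.2 = v).card ≤ d) ∧
  ∀ X : Finset V, X.card ≤ m →
    (Fintype.card V : ℝ) * ein E X ≤ (1 / 2 - γ) * E.card * X.card

end

/-- [SplE] as `DSD.thm_Spl`: `N u` are the neighbours of `u` in parts with smaller numbers, `h i` the sign of the edges inside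
the part `i`. -/
def St_SplE : Prop :=
  ∀ (V : Type) [Fintype V] [DecidableEq V] (E : Finset (V × V)) (d r : ℕ) (χ : V → ℕ), OE E →
    (∀ v, (E.filter fun e => e.1 = v ∨ e.2 = v).card ≤ d) → (∀ v, χ v < r) →
    ∃ (N : V → Finset V) (h : ℕ → (V → Bool) → ℝ), Low χ N d ∧ Loc χ h ∧
      (∀ x, SgE E x = Sgn χ N r x * ∏ i ∈ range r, h i x) ∧
      E.card ≤ ec χ N r univ + ∑ i ∈ range r, (E.filter fun e => χ e.1 = i ∧ χ e.2 = i).card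

/-- [HarE] as `DSD.thm_Har` -/
def St_HarE : Prop :=
  ∀ (V : Type) [Fintype V] [DecidableEq V] (E : Finset (V × V)) (p : ℝ), OE E → 0 ≤ p → p ≤ 1 →
    (1 - p ^ 2) ^ E.card ≤ Ep (fun _ => p) fun x => 1 - PhE E x

/-- [CorE] (from `DSD.St_Dis`, `St_SplE`, `DSD.St_Prt`) as `DSU.thm_Cor`: at most
`∑ (1/2 - γ) (|E| / |V|) |X_i| = (1/2 - γ) |E|` edges inside the parts, so `ec ≥ (1/2 + γ) |E|`. -/
def St_CorE : Prop :=
  ∀ (V : Type) [Fintype V] [DecidableEq V] (E : Finset (V × V)) (d m r r' : ℕ) (p γ : ℝ), OE E →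
    1 ≤ m → Par d r' p → 0 < γ → r + Fintype.card V / m + 1 ≤ r' → Sprd E d m γ →
    ∀ (A : Fin r → Finset V) (h : Fin r → (V → Bool) → ℝ),
      (∀ i, (A i).card ≤ m ∧ DepOn (h i) (A i) ∧ ∀ x, |h i x| ≤ 1) →
      (∀ i j, i ≠ j → Disjoint (A i) (A j)) →
      |Ep (fun _ => p) fun x => SgE E x * ∏ i, h i x| ≤
        Real.exp (-(2 * p ^ 2 * (1 - 5 * d * r' * p)) * ((1 / 2 + γ) * E.card) +
          32 * r' * p ^ 3 * d ^ 5 * Fintype.card V)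

/-- [RlE] The real numbers.
PROOF. `(1 - p ^ 2) ^ M ≥ exp (-M (p ^ 2 + p ^ 4))` (`p ≤ 1/2`). The exponent of the quotient of the two sides without the first
factor is at most `-M p ^ 2 (2 γ - (1 + 2 γ) 5 d r' p - p ^ 2) + 32 r' p ^ 3 d ^ 5 N ≤ -M p ^ 2 γ` for `p` small depending on
`γ`, `d`, `r'` (`N ≤ 2 M`), so `≤ -γ p ^ 2 N / 2`. Choose `c = min ε (γ p ^ 2 / (8 (r + 2)))` or similar, and `N₀` large. -/
def St_RlE : Prop :=
  ∀ (d r r' : ℕ) (γ ε : ℝ), 1 ≤ d → 1 ≤ r' → 0 < γ → γ ≤ 1 / 2 → 0 < ε →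
    ∃ (p c : ℝ) (N₀ : ℕ), 0 < p ∧ p < 1 ∧ 0 < c ∧ c ≤ ε ∧ Par d r' p ∧
      ∀ N : ℕ, N₀ ≤ N → ∀ M : ℕ, N ≤ 2 * M → ∀ s : ℝ, 0 ≤ s → s ≤ 2 ^ (c * N) →
        ((2 * 4 ^ r * s) ^ r * 2 ^ (c * N) + 1) *
          Real.exp (-(2 * p ^ 2 * (1 - 5 * d * r' * p)) * ((1 / 2 + γ) * M) +
            32 * r' * p ^ 3 * d ^ 5 * N) ≤
          2 ^ (-(c * N)) * (1 - p ^ 2) ^ M

/-- [ConE] (from `St_CorE`, `St_Dcp`, `St_Nrm`, `St_HarE`, `St_RlE`) as `DSU.thm_Con`.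
PROOF. Without restriction `γ ≤ 1/2`, `ε ≤ 1` (otherwise for `1/2 < γ` there is no such graph with `1 ≤ ε N`: `X` = one
vertex gives `0 ≤ (1/2 - γ) |E|`, `E = ∅`). `m = ⌊ε N⌋ ≥ ε N / 2` for `N ≥ 2 / ε`, `r = ⌈4 / ε⌉`, so
`2 N ≤ r m`, `r' = 2 r + 3`; the rest as in `Conc.lean` (leaves: `k ≤ max 1 (c N) ≤ m`). -/
def St_ConE : Prop :=
  ∀ (d : ℕ) (γ ε : ℝ), 0 < γ → 0 < ε → ∃ (p c : ℝ) (n₀ : ℕ), 0 < p ∧ p < 1 ∧ 0 < c ∧
    ∀ (V : Type) [Fintype V] [DecidableEq V] (E : Finset (V × V)), n₀ ≤ Fintype.card V → OE E →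
      Fintype.card V ≤ 2 * E.card → Sprd E d ⌊ε * Fintype.card V⌋₊ γ →
      0 < (Ep (fun _ => p) fun x => 1 - PhE E x) ∧
      ∀ (k : ℕ) (L : List (Gate V)), (k : ℝ) ≤ max 1 (c * Fintype.card V) →
        Circ k L → (L.length : ℝ) ≤ 2 ^ (c * Fintype.card V) → ∀ g ∈ L,
        (∀ x, g.a x ≤ 2 ^ (c * Fintype.card V)) →
        (1 - 2 ^ (-(c * Fintype.card V))) * (Ep (fun _ => p) fun x => 1 - PhE E x) ≤
          (Ep (fun _ => p) fun x => |g.f x - PhE E x|) ∧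
        (1 - 2 ^ (-(c * Fintype.card V))) * (Ep (fun _ => p) fun x => 1 - PhE E x) ≤
          (Ep (fun _ => p) fun x => |g.f x - (1 - PhE E x)|)

/-- [Ori] An orientation of a graph.
PROOF. `E = {(u, v) | G.Adj u v, u < v}` for some linear order (`Fintype.equivFin`); `pr G X = 2 * ein E X`. -/
def St_Ori : Prop :=
  ∀ (V : Type) [Fintype V] [DecidableEq V] (G : SimpleGraph V), ∃ E : Finset (V × V), OE E ∧
    (∀ x, PhiG G x = PhE E x) ∧ (∀ X, pr G X = 2 * ein E X) ∧ pr G univ = 2 * E.card ∧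
    ∀ v, (E.filter fun e => e.1 = v ∨ e.2 = v).card = {u | G.Adj v u}.ncard

/-- [GrE] (from `DSD.St_Gra`) The graphs of [Gra] as `SimpleGraph`s.
PROOF. `inl a` and `inr b` adjacent iff `(a, b) ∈ E`; `pr G X = 2 * (number of (a, b) ∈ E, inl a ∈ X, inr b ∈ X) ≤ 4 |X|`,
`pr G univ = 512 n`, `|V| = 32 n`. -/
def St_GrE : Prop :=
  ∃ ε : ℝ, 0 < ε ∧ ∀ n : ℕ, 1 ≤ n →
    ∃ E : Finset ((Fin 16 × Fin n) × (Fin 16 × Fin n)), E.card = 256 * n ∧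
      (∀ a, ∃ b, (a, b) ∈ E) ∧ (∀ b, ∃ a, (a, b) ∈ E) ∧
      ∃ G : SimpleGraph ((Fin 16 × Fin n) ⊕ (Fin 16 × Fin n)), (∀ x, PhiG G x = Phi E x) ∧
        (∀ v, {u | G.Adj v u}.ncard = 16) ∧ Spread G 16 (1 / 4) ε

/-- The theorem. -/
def Main2 : Prop :=
  (∀ q : CQ, SJF q → Reduced {q} ∧ (Hier q → ∀ D : Finset Fact, (∃ S ⊆ D, ReadOnce S (lin {q} D)) ∧
    ∃ L : List (Gate Fact), Circ 1 L ∧ DetCirc L ∧ L.length ≤ 8 * D.card + 2 ∧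
      (∃ g ∈ L, ∀ x, g.f x = bv (lin {q} D x)) ∧ ∃ g ∈ L, ∀ x, g.f x = 1 - bv (lin {q} D x))) ∧
  (∀ (d : ℕ) (γ ε : ℝ), 0 < γ → 0 < ε → ∃ (p c : ℝ) (n₀ : ℕ), 0 < p ∧ p < 1 ∧ 0 < c ∧
    ∀ (V : Type) [Fintype V] [DecidableEq V] (G : SimpleGraph V), n₀ ≤ Fintype.card V →
      Spread G d γ ε →
      0 < (Ep (fun _ => p) fun x => 1 - PhiG G x) ∧
      Hard (Ep fun _ => p) (PhiG G) (fun _ => True) (c * Fintype.card V)) ∧
  (∃ ε : ℝ, 0 < ε ∧ ∀ n : ℕ, 1 ≤ n → ∃ (V : Type) (_ : Fintype V) (_ : DecidableEq V)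
    (G : SimpleGraph V), Fintype.card V = 32 * n ∧ (∀ v, {u | G.Adj v u}.ncard = 16) ∧
      Spread G 16 (1 / 4) ε) ∧
  ∃ p c C : ℝ, 0 < p ∧ p < 1 ∧ 0 < c ∧ ∀ n : ℕ, 1 ≤ n →
    ∀ Q : UCQ, Reduced Q → ∀ q ∈ Q, ¬ Hier q →
      ∃ (D : Finset Fact) (t : Fact → ℝ) (T : Finset (Finset Fact)),
        (D.card : ℝ) ≤ C * q.card * n ∧ (∀ f ∈ D, t f = p ∨ t f = 1) ∧
        ((T.card : ℝ) ≤ C * n ∧ (∀ s ∈ T, s.card ≤ q.card) ∧
          ∀ x : Fact → Bool, lin Q D x = true ↔ ∃ s ∈ T, ∀ f ∈ s, x f = true) ∧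
        0 < (Mean D t fun x => 1 - bv (lin Q D x)) ∧
        Hard (Mean D t) (fun x => bv (lin Q D x)) (fun x => ∃ W ⊆ D, x = ind W) (c * n)

end DSU
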